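import Mathlib

/-!
# Large subgroups of class two in finite `p`-groups

Every finite `p`-group `G` has a subgroup `W` of class at most two with
`|W : W' W ^ (p ^ 2)| ≥ |G : G' G ^ (p ^ 2)|`.
-/

namespace Pool.Agent.N580

open Subgroup
open scoped commutatorElement

section CT

variable {G : Type*} [Group G]

/-- the subgroup generated by the commutators and the `n`-th powers -/
def dd (n : ℕ) (W : Subgroup G) : Subgroup G :=
  ⁅W, W⁆ ⊔ Subgroup.closure ((fun x => x ^ n) '' (W : Set G))

theorem dd_map {G' : Type*} [Group G'] (f : G →* G') (n : ℕ) (W : Subgroup G) :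
    (dd n W).map f = dd n (W.map f) := by
  rw [dd, dd, Subgroup.map_sup, Subgroup.map_commutator, MonoidHom.map_closure]
  congr 2
  ext y
  constructor
  · rintro ⟨_, ⟨x, hx, rfl⟩, rfl⟩
    exact ⟨f x, ⟨x, hx, rfl⟩, by simp⟩
  · rintro ⟨_, ⟨x, hx, rfl⟩, rfl⟩
    exact ⟨x ^ n, ⟨x, hx, rfl⟩, by simp⟩

theorem comm_le_dd (n : ℕ) (W : Subgroup G) : ⁅W, W⁆ ≤ dd n W := le_sup_left

theorem pow_mem_dd (n : ℕ) (W : Subgroup G) {x : G} (hx : x ∈ W) : x ^ n ∈ dd n W :=
  mem_sup_right (subset_closure ⟨x, hx, rfl⟩)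

theorem dd_le {n : ℕ} {W U : Subgroup G} (h1 : ⁅W, W⁆ ≤ U) (h2 : ∀ x ∈ W, x ^ n ∈ U) :
    dd n W ≤ U := by
  refine sup_le h1 ?_
  rw [Subgroup.closure_le]
  rintro _ ⟨x, hx, rfl⟩
  exact h2 x hx

theorem dd_normal (n : ℕ) (W : Subgroup G) (hW : W.Normal) : (dd n W).Normal := by
  constructor
  intro x hx g
  have h1 : (dd n W).map (MulAut.conj g).toMonoidHom = dd n W := by
    rw [dd_map]
    congr 1
    ext y
    constructor
    · rintro ⟨x, hx, rfl⟩
      exact hW.conj_mem x hx g
    · intro hy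
      exact ⟨g⁻¹ * y * g, by simpa using hW.conj_mem y hy g⁻¹, by simp [mul_assoc]⟩
  rw [← h1]
  exact ⟨x, hx, rfl⟩

/-- three subgroups modulo a normal subgroup -/
theorem three_subgroups {M K₁ K₂ K₃ : Subgroup G} (hM : M.Normal) (h1 : ⁅⁅K₂, K₃⁆, K₁⁆ ≤ M)
    (h2 : ⁅⁅K₃, K₁⁆, K₂⁆ ≤ M) : ⁅⁅K₁, K₂⁆, K₃⁆ ≤ M := by
  have key : ∀ A : Subgroup G, A.map (QuotientGroup.mk' M) = ⊥ ↔ A ≤ M := by
    intro A
    rw [Subgroup.map_eq_bot_iff, QuotientGroup.ker_mk']
  rw [← key] at h1 h2 ⊢
  simp only [Subgroup.map_commutator] at h1 h2 ⊢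
  exact Subgroup.commutator_commutator_eq_bot_of_rotate h1 h2

theorem twist_pow {x b z : G} (hz : ∀ y, Commute z y) (h : x * b = z * b * x) (n : ℕ) :
    (b * x) ^ n = z ^ (n.choose 2) * b ^ n * x ^ n := by
  have h1 : ∀ n : ℕ, x ^ n * b = z ^ n * b * x ^ n := by
    intro n
    induction n with
    | zero => simp
    | succ n ih =>
      calc x ^ (n + 1) * b = x * (x ^ n * b) := by rw [pow_succ']; simp only [mul_assoc]
        _ = x * (z ^ n * b * x ^ n) := by rw [ih]
        _ = z ^ n * (x * b) * x ^ n := by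
            rw [← mul_assoc, ← mul_assoc, ← ((hz x).pow_left n).eq]
            simp only [mul_assoc]
        _ = z ^ n * (z * b * x) * x ^ n := by rw [h]
        _ = _ := by
            rw [pow_succ z n, pow_succ' x n]
            simp only [mul_assoc]
  induction n with
  | zero => simp
  | succ n ih =>
    have e : (n + 1).choose 2 = n.choose 2 + n := by
      rw [Nat.choose_succ_succ' n 1, Nat.choose_one_right, add_comm]
    calc (b * x) ^ (n + 1) = (b * x) ^ n * (b * x) := pow_succ _ _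
      _ = z ^ (n.choose 2) * b ^ n * (x ^ n * b) * x := by rw [ih]; simp only [mul_assoc]
      _ = z ^ (n.choose 2) * b ^ n * (z ^ n * b * x ^ n) * x := by rw [h1]
      _ = z ^ (n.choose 2) * z ^ n * (b ^ n * b) * (x ^ n * x) := by
          have := ((hz (b ^ n)).pow_left n).eq
          calc _ = z ^ (n.choose 2) * (b ^ n * z ^ n) * b * x ^ n * x := by simp only [mul_assoc]
            _ = z ^ (n.choose 2) * (z ^ n * b ^ n) * b * x ^ n * x := by rw [this]
            _ = _ := by simp only [mul_assoc]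
      _ = _ := by rw [e, pow_add, pow_succ b n, pow_succ x n]

/-- the computation of the power -/
theorem power_trick {x w z : G} {q : ℕ} (hz : ∀ y, Commute z y) (hzq : z ^ (q.choose 2) = 1)
    (hxz : x * ⁅x, w⁆⁻¹ = z * ⁅x, w⁆⁻¹ * x) (hw : Commute w ⁅x, w⁆) (hxq : Commute w (x ^ q)) :
    Commute x (w ^ q) := by
  set c := ⁅x, w⁆ with hc
  have h1 : w * x * w⁻¹ = c⁻¹ * x := by
    rw [hc, commutatorElement_def]
    group
  have h2 : (c⁻¹ * x) ^ q = x ^ q := by
    rw [← h1, conj_pow]
    have := hxq.eq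
    rw [this]
    group
  rw [twist_pow hz hxz, hzq, one_mul] at h2
  have h3 : c ^ q = 1 := by
    have h4 : c⁻¹ ^ q = 1 := by
      have := mul_right_cancel (h2.trans (one_mul (x ^ q)).symm)
      exact this
    rw [inv_pow, inv_eq_one] at h4
    exact h4
  have h4 : x * w * x⁻¹ = c * w := by
    rw [hc, commutatorElement_def]
    group
  have h5 : x * w ^ q * x⁻¹ = w ^ q := by
    rw [← conj_pow, h4, (hw.symm).mul_pow, h3, one_mul]
  change x * w ^ q = w ^ q * x
  calc x * w ^ q = (x * w ^ q * x⁻¹) * x := by group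
    _ = w ^ q * x := by rw [h5]

/-- a character of order `p` of a normal subgroup, trivial on the commutators with the group -/
theorem exists_char {p : ℕ} [hp : Fact p.Prime] [Finite G] (hG : IsPGroup p G) (N : Subgroup G)
    (hN : N.Normal) (hne : N ≠ ⊥) :
    ∃ χ : N →* ℂˣ, χ ≠ 1 ∧ (∀ n, χ n ^ p = 1) ∧
      ∀ n : N, (n : G) ∈ ⁅N, (⊤ : Subgroup G)⁆ → χ n = 1 := by
  classical
  set K : Subgroup G := ⁅N, (⊤ : Subgroup G)⁆ with hK
  have hKN : K ≤ N := Subgroup.commutator_le_left _ _
  have hKn : K.Normal := Subgroup.commutator_normal _ _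
  have hKne : ¬ N ≤ K := by
    intro hle
    have hnil : Group.IsNilpotent G := hG.isNilpotent
    obtain ⟨c, hc⟩ := Subgroup.nilpotent_iff_lowerCentralSeries.1 hnil
    have h1 : ∀ n, N ≤ (⊤ : Subgroup G).lowerCentralSeries n := by
      intro n
      induction n with
      | zero => exact le_top
      | succ n ih =>
        refine hle.trans ?_
        exact Subgroup.commutator_mono ih le_rfl
    have h2 := h1 c
    rw [hc, le_bot_iff] at h2
    exact hne h2
  let cg : CommGroup (N ⧸ K.subgroupOf N) :=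
    { (inferInstance : Group (N ⧸ K.subgroupOf N)) with
      mul_comm := by
        intro a b
        induction a using QuotientGroup.induction_on with
        | H a =>
          induction b using QuotientGroup.induction_on with
          | H b =>
            rw [← QuotientGroup.mk_mul, ← QuotientGroup.mk_mul, QuotientGroup.eq,
              Subgroup.mem_subgroupOf]
            have h : ⁅(b : G)⁻¹, (a : G)⁻¹⁆ ∈ K :=
              Subgroup.commutator_mem_commutator (inv_mem b.2) (Subgroup.mem_top _)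
            rw [commutatorElement_def] at h
            push_cast
            convert h using 1
            group }
  have hcard1 : Nat.card ((N ⧸ K.subgroupOf N) →* ℂˣ) = Nat.card (N ⧸ K.subgroupOf N) := by
    have : NeZero (Monoid.exponent (N ⧸ K.subgroupOf N)) :=
      ⟨Monoid.exponent_ne_zero_of_finite⟩
    exact CommGroup.card_monoidHom_of_hasEnoughRootsOfUnity _ ℂ
  have hNp : IsPGroup p (N ⧸ K.subgroupOf N) := (hG.to_subgroup N).to_quotient _
  have hfin : Finite ((N ⧸ K.subgroupOf N) →* ℂˣ) := by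
    apply Nat.finite_of_card_ne_zero
    rw [hcard1]
    exact Nat.card_pos.ne'
  obtain ⟨a, ha⟩ := IsPGroup.iff_card.1 hNp
  have ha0 : a ≠ 0 := by
    rintro rfl
    rw [pow_zero] at ha
    apply hKne
    intro x hx
    have h1 : (K.subgroupOf N) = ⊤ := by
      rw [← Subgroup.index_eq_one]
      exact ha
    have h2 : (⟨x, hx⟩ : N) ∈ K.subgroupOf N := by rw [h1]; exact Subgroup.mem_top _
    exact h2
  have hdvd : p ∣ Nat.card ((N ⧸ K.subgroupOf N) →* ℂˣ) := by
    rw [hcard1, ha]
    exact dvd_pow_self p ha0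
  obtain ⟨ψ, hψ⟩ := exists_prime_orderOf_dvd_card' p hdvd
  have hψ1 : ψ ≠ 1 := by
    intro h
    rw [h, orderOf_one] at hψ
    exact hp.out.one_lt.ne hψ
  have hψp : ψ ^ p = 1 := by rw [← hψ]; exact pow_orderOf_eq_one ψ
  refine ⟨ψ.comp (QuotientGroup.mk' (K.subgroupOf N)), ?_, ?_, ?_⟩
  · intro h
    apply hψ1
    ext x
    exact congrArg (fun f : N →* ℂˣ => ((f x : ℂˣ) : ℂ)) h
  · intro n
    exact congrArg (fun f : (N ⧸ K.subgroupOf N) →* ℂˣ => f (QuotientGroup.mk n)) hψp
  · intro n hn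
    have h1 : (QuotientGroup.mk n : N ⧸ K.subgroupOf N) = 1 := by
      rw [QuotientGroup.eq_one_iff, Subgroup.mem_subgroupOf]
      exact hn
    change ψ (QuotientGroup.mk n) = 1
    rw [h1, map_one]

/-- the main step -/
theorem ct_step {p : ℕ} [hp : Fact p.Prime] [Finite G] (hG : IsPGroup p G)
    (hne : ⁅dd (p ^ 2) (⊤ : Subgroup G), (⊤ : Subgroup G)⁆ ≠ ⊥) :
    ∃ W : Subgroup G, W ≠ ⊤ ∧
      Nat.card G * Nat.card (dd (p ^ 2) W) ≤ Nat.card W * Nat.card (dd (p ^ 2) (⊤ : Subgroup G)) := by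
  classical
  set q := p ^ 2 with hq
  set D : Subgroup G := dd q ⊤ with hD
  have hDn : D.Normal := dd_normal _ _ inferInstance
  set N : Subgroup G := ⁅D, (⊤ : Subgroup G)⁆ with hN
  have hNn : N.Normal := Subgroup.commutator_normal _ _
  have hND : N ≤ D := Subgroup.commutator_le_left _ _
  obtain ⟨χ, hχ1, hχp, hχK⟩ := exists_char hG N hNn hne
  have hcomm : ∀ (x u : G), u ∈ D → ⁅x, u⁆ ∈ N := by
    intro x u hu
    rw [hN, Subgroup.commutator_comm]
    exact Subgroup.commutator_mem_commutator (Subgroup.mem_top x) hu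
  -- invariance of the character
  have hinv : ∀ (g n : G) (hn : n ∈ N) (hn' : g * n * g⁻¹ ∈ N),
      χ ⟨g * n * g⁻¹, hn'⟩ = χ ⟨n, hn⟩ := by
    intro g n hn hn'
    have h1 : ⁅g, n⁆ ∈ N := by
      rw [commutatorElement_def]
      exact mul_mem hn' (inv_mem hn)
    have h2 : (⟨g * n * g⁻¹, hn'⟩ : N) = ⟨⁅g, n⁆, h1⟩ * ⟨n, hn⟩ := by
      apply Subtype.ext
      simp [commutatorElement_def]
    rw [h2, map_mul, hχK ⟨⁅g, n⁆, h1⟩, one_mul]
    change ⁅g, n⁆ ∈ _
    rw [Subgroup.commutator_comm]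
    exact Subgroup.commutator_mem_commutator (Subgroup.mem_top g) hn
  -- the pairing
  let β : G → D → ℂˣ := fun x u => χ ⟨⁅x, (u : G)⁆, hcomm x u u.2⟩
  have hβ1 : ∀ x (u v : D), β x (u * v) = β x u * β x v := by
    intro x u v
    have h1 : (u : G) * ⁅x, (v : G)⁆ * (u : G)⁻¹ ∈ N := hNn.conj_mem _ (hcomm x v v.2) _
    have h2 : (⟨⁅x, ((u * v : D) : G)⁆, hcomm x _ (u * v).2⟩ : N) =
        ⟨⁅x, (u : G)⁆, hcomm x u u.2⟩ * ⟨(u : G) * ⁅x, (v : G)⁆ * (u : G)⁻¹, h1⟩ := by
      apply Subtype.ext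
      simp only [commutatorElement_def, Subgroup.coe_mul]
      group
    change χ _ = χ _ * χ _
    rw [h2, map_mul, hinv _ _ (hcomm x v v.2) h1]
  have hβ2 : ∀ x y (u : D), β (x * y) u = β x u * β y u := by
    intro x y u
    have h1 : x * ⁅y, (u : G)⁆ * x⁻¹ ∈ N := hNn.conj_mem _ (hcomm y u u.2) _
    have h2 : (⟨⁅x * y, (u : G)⁆, hcomm (x * y) _ u.2⟩ : N) =
        ⟨x * ⁅y, (u : G)⁆ * x⁻¹, h1⟩ * ⟨⁅x, (u : G)⁆, hcomm x u u.2⟩ := by
      apply Subtype.ext
      simp only [commutatorElement_def, Subgroup.coe_mul]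
      group
    change χ _ = χ _ * χ _
    rw [h2, map_mul, hinv _ _ (hcomm y u u.2) h1, mul_comm]
  have hβ1' : ∀ x, β x 1 = 1 := by
    intro x
    have := hβ1 x 1 1
    rw [mul_one] at this
    exact (mul_eq_left.1 this.symm)
  have hβ2' : ∀ u, β 1 u = 1 := by
    intro u
    have := hβ2 1 1 u
    rw [mul_one] at this
    exact (mul_eq_left.1 this.symm)
  -- the two kernels
  let W : Subgroup G :=
    { carrier := {x | ∀ u, β x u = 1}
      one_mem' := hβ2'
      mul_mem' := by
        intro x y hx hy u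
        rw [hβ2, hx, hy, one_mul]
      inv_mem' := by
        intro x hx u
        have := hβ2 x x⁻¹ u
        rw [mul_inv_cancel, hβ2', hx, one_mul] at this
        exact this.symm }
  let U' : Subgroup D :=
    { carrier := {u | ∀ x, β x u = 1}
      one_mem' := hβ1'
      mul_mem' := by
        intro u v hu hv x
        rw [hβ1, hu, hv, one_mul]
      inv_mem' := by
        intro u hu x
        have := hβ1 x u u⁻¹
        rw [mul_inv_cancel, hβ1', hu, one_mul] at this
        exact this.symm }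
  have hcount : Nat.card W * Nat.card D = Nat.card G * Nat.card U' := by
    have : Fintype G := Fintype.ofFinite G
    have : Fintype D := Fintype.ofFinite D
    let f1 : G → (D →* ℂ) := fun x =>
      { toFun := fun u => ((β x u : ℂˣ) : ℂ)
        map_one' := by rw [hβ1', Units.val_one]
        map_mul' := fun u v => by rw [hβ1, Units.val_mul] }
    let f2 : D → (G →* ℂ) := fun u =>
      { toFun := fun x => ((β x u : ℂˣ) : ℂ)
        map_one' := by rw [hβ2', Units.val_one]
        map_mul' := fun u v => by rw [hβ2, Units.val_mul] }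
    have e1 : ∀ x, f1 x = 1 ↔ x ∈ W := by
      intro x
      constructor
      · intro h u
        have := congrArg (fun f : D →* ℂ => f u) h
        exact Units.ext this
      · intro h
        ext u
        exact congrArg Units.val (h u)
    have e2 : ∀ u, f2 u = 1 ↔ u ∈ U' := by
      intro u
      constructor
      · intro h x
        have := congrArg (fun f : G →* ℂ => f x) h
        exact Units.ext this
      · intro h
        ext x
        exact congrArg Units.val (h x)
    have s1 : ∑ x : G, ∑ u : D, ((β x u : ℂˣ) : ℂ) = Nat.card W * Nat.card D := by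
      have h1 : ∀ x : G, ∑ u : D, ((β x u : ℂˣ) : ℂ) = if x ∈ W then (Nat.card D : ℂ) else 0 := by
        intro x
        have := sum_hom_units (f1 x)
        rw [Nat.card_eq_fintype_card]
        by_cases hx : x ∈ W
        · rw [if_pos hx]
          rw [if_pos ((e1 x).2 hx)] at this
          exact this
        · rw [if_neg hx]
          rw [if_neg (fun h => hx ((e1 x).1 h)), Nat.cast_zero] at this
          exact this
      rw [Finset.sum_congr rfl fun x _ => h1 x, Finset.sum_ite, Finset.sum_const_zero, add_zero,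
        Finset.sum_const, nsmul_eq_mul]
      congr 2
      rw [← Fintype.card_subtype, Nat.card_eq_fintype_card]
    have s2 : ∑ x : G, ∑ u : D, ((β x u : ℂˣ) : ℂ) = Nat.card U' * Nat.card G := by
      rw [Finset.sum_comm]
      have h1 : ∀ u : D, ∑ x : G, ((β x u : ℂˣ) : ℂ) = if u ∈ U' then (Nat.card G : ℂ) else 0 := by
        intro u
        have := sum_hom_units (f2 u)
        rw [Nat.card_eq_fintype_card]
        by_cases hx : u ∈ U'
        · rw [if_pos hx]
          rw [if_pos ((e2 u).2 hx)] at this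
          exact this
        · rw [if_neg hx]
          rw [if_neg (fun h => hx ((e2 u).1 h)), Nat.cast_zero] at this
          exact this
      rw [Finset.sum_congr rfl fun u _ => h1 u, Finset.sum_ite, Finset.sum_const_zero, add_zero,
        Finset.sum_const, nsmul_eq_mul]
      congr 2
      rw [← Fintype.card_subtype, Nat.card_eq_fintype_card]
    rw [s1] at s2
    have s3 : ((Nat.card W * Nat.card D : ℕ) : ℂ) = ((Nat.card U' * Nat.card G : ℕ) : ℂ) := by
      push_cast; exact s2
    have s4 := Nat.cast_injective s3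
    rw [s4, mul_comm]
  -- the kernel of the character
  let M : Subgroup G := χ.ker.map N.subtype
  have hM : ∀ (n : G) (hn : n ∈ N), n ∈ M ↔ χ ⟨n, hn⟩ = 1 := by
    intro n hn
    constructor
    · rintro ⟨m, hm, rfl⟩
      exact hm
    · intro h
      exact ⟨⟨n, hn⟩, h, rfl⟩
  have hMN : M ≤ N := by
    rintro _ ⟨m, _, rfl⟩
    exact m.2
  have hMn : M.Normal := by
    constructor
    intro n hn g
    have hn' : g * n * g⁻¹ ∈ N := hNn.conj_mem n (hMN hn) g
    rw [hM _ hn', hinv g n (hMN hn) hn']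
    exact (hM _ (hMN hn)).1 hn
  have hβM : ∀ (x u : G) (hu : u ∈ D), β x ⟨u, hu⟩ = 1 ↔ ⁅x, u⁆ ∈ M := by
    intro x u hu
    rw [hM _ (hcomm x u hu)]
  have hWM : ∀ x ∈ W, ∀ u ∈ D, ⁅x, u⁆ ∈ M := fun x hx u hu => (hβM x u hu).1 (hx ⟨u, hu⟩)
  have hNM : ∀ n ∈ N, n ^ p ∈ M := by
    intro n hn
    rw [hM _ (pow_mem hn p)]
    have : (⟨n ^ p, pow_mem hn p⟩ : N) = ⟨n, hn⟩ ^ p := rfl
    rw [this, map_pow]
    exact hχp _
  have hcentr : ∀ n ∈ N, ∀ g : G, ⁅g, n⁆ ∈ M := by
    intro n hn g
    have h1 : ⁅g, n⁆ ∈ ⁅N, (⊤ : Subgroup G)⁆ := by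
      rw [Subgroup.commutator_comm]
      exact Subgroup.commutator_mem_commutator (Subgroup.mem_top g) hn
    have h2 : ⁅g, n⁆ ∈ N := Subgroup.commutator_le_left _ _ h1
    rw [hM _ h2]
    exact hχK ⟨_, h2⟩ h1
  have hDW : ⁅D, W⁆ ≤ M := by
    rw [Subgroup.commutator_comm, Subgroup.commutator_le]
    exact hWM
  -- commutators of `W`
  have htopD : ⁅(⊤ : Subgroup G), ⊤⁆ ≤ D := comm_le_dd q ⊤
  have hWW : ⁅⁅W, W⁆, (⊤ : Subgroup G)⁆ ≤ M := by
    refine three_subgroups hMn ?_ ?_
    · exact (Subgroup.commutator_mono ((Subgroup.commutator_mono le_top le_rfl).trans htopD)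
        le_rfl).trans hDW
    · exact (Subgroup.commutator_mono ((Subgroup.commutator_mono le_rfl le_top).trans htopD)
        le_rfl).trans hDW
  -- powers of elements of `W`
  have hWpow : ∀ w ∈ W, ∀ x : G, ⁅x, w ^ q⁆ ∈ M := by
    intro w hw x
    let π := QuotientGroup.mk' M
    have hπ : ∀ y : G, π y = 1 ↔ y ∈ M := fun y => QuotientGroup.eq_one_iff y
    have hcm : ∀ a b : G, ⁅a, b⁆ ∈ M → Commute (π a) (π b) := by
      intro a b hab
      rw [← hπ, map_commutatorElement] at hab
      exact commutatorElement_eq_one_iff_commute.1 hab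
    set c := ⁅x, w⁆ with hc
    have hcD : c ∈ D := htopD (Subgroup.commutator_mem_commutator (Subgroup.mem_top _)
      (Subgroup.mem_top _))
    set z := ⁅x, c⁻¹⁆ with hz
    have hzN : z ∈ N := hcomm x _ (inv_mem hcD)
    have hzz : ∀ y, Commute (π z) y := by
      intro y
      obtain ⟨y, rfl⟩ := QuotientGroup.mk'_surjective M y
      exact (hcm y z (hcentr z hzN y)).symm
    have hzq : π z ^ (q.choose 2) = 1 := by
      obtain ⟨k, hk⟩ : p ∣ q.choose 2 :=
        hp.out.dvd_choose_pow two_ne_zero (by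
          have := hp.out.two_le
          have : 2 ^ 2 ≤ p ^ 2 := Nat.pow_le_pow_left this 2
          omega)
      rw [hk, pow_mul, ← map_pow, (hπ _).2 (hNM z hzN), one_pow]
    have hcπ : ⁅π x, π w⁆ = π c := by rw [hc, map_commutatorElement]
    have h1 : Commute (π x) (π w ^ q) := by
      refine power_trick (z := π z) hzz hzq ?_ ?_ ?_
      · rw [hcπ, ← map_inv, ← map_mul, ← map_mul, ← map_mul]
        congr 1
        rw [hz, commutatorElement_def]
        group
      · rw [hcπ]
        exact hcm _ _ (hWM w hw c hcD)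
      · rw [← map_pow]
        exact hcm _ _ (hWM w hw _ (pow_mem_dd q ⊤ (Subgroup.mem_top x)))
    rw [← hπ, map_commutatorElement, map_pow]
    exact commutatorElement_eq_one_iff_commute.2 h1
  -- the new subgroup
  have hddW : dd q W ≤ U'.map D.subtype := by
    have hU : ∀ y ∈ D, (∀ x : G, ⁅x, y⁆ ∈ M) → y ∈ U'.map D.subtype := by
      intro y hy h
      exact ⟨⟨y, hy⟩, fun x => (hβM x y hy).2 (h x), rfl⟩
    refine dd_le ?_ ?_
    · intro y hy
      refine hU y (htopD (Subgroup.commutator_mono le_top le_top hy)) fun x => ?_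
      have h1 := hWW (Subgroup.commutator_mem_commutator hy (Subgroup.mem_top x))
      rw [← inv_mem_iff, commutatorElement_inv]
      exact h1
    · intro w hw
      exact hU _ (pow_mem_dd q ⊤ (Subgroup.mem_top w)) (hWpow w hw)
  refine ⟨W, ?_, ?_⟩
  · intro hWtop
    apply hχ1
    have h1 : N ≤ M := by
      refine le_trans ?_ hDW
      rw [hWtop]
    ext n
    have := (hM n n.2).1 (h1 n.2)
    exact congrArg Units.val this
  · have h1 : Nat.card (dd q W) ≤ Nat.card U' := by
      have := Subgroup.card_le_of_le hddW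
      rwa [Subgroup.card_map_of_injective D.subtype_injective] at this
    calc Nat.card G * Nat.card (dd q W) ≤ Nat.card G * Nat.card U' := Nat.mul_le_mul_left _ h1
      _ = Nat.card W * Nat.card D := hcount.symm

theorem ct_exists {p : ℕ} [hp : Fact p.Prime] : ∀ (n : ℕ) (G : Type*) [Group G] [Finite G],
    Nat.card G = n → IsPGroup p G → ∃ W : Subgroup G, ⁅dd (p ^ 2) W, W⁆ = ⊥ ∧
      Nat.card G * Nat.card (dd (p ^ 2) W) ≤
        Nat.card W * Nat.card (dd (p ^ 2) (⊤ : Subgroup G)) := by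
  intro n
  induction n using Nat.strong_induction_on with
  | _ n ih =>
    intro G _ _ hn hG
    by_cases h : ⁅dd (p ^ 2) (⊤ : Subgroup G), (⊤ : Subgroup G)⁆ = ⊥
    · exact ⟨⊤, h, by simp⟩
    · obtain ⟨W, hW, hcard⟩ := ct_step hG h
      have hlt : Nat.card W < n := by
        rw [← hn]
        refine lt_of_le_of_ne (Nat.le_of_dvd Nat.card_pos W.card_subgroup_dvd_card) ?_
        intro heq
        apply hW
        exact Subgroup.eq_top_of_card_eq W heq
      obtain ⟨V, hV1, hV2⟩ := ih (Nat.card W) hlt W rfl (hG.to_subgroup W)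
      have e1 : (dd (p ^ 2) V).map W.subtype = dd (p ^ 2) (V.map W.subtype) := dd_map _ _ _
      have e2 : (dd (p ^ 2) (⊤ : Subgroup W)).map W.subtype = dd (p ^ 2) W := by
        rw [dd_map, ← MonoidHom.range_eq_map, Subgroup.range_subtype]
      have c1 : Nat.card (dd (p ^ 2) (V.map W.subtype)) = Nat.card (dd (p ^ 2) V) := by
        rw [← e1, Subgroup.card_map_of_injective W.subtype_injective]
      have c2 : Nat.card (dd (p ^ 2) W) = Nat.card (dd (p ^ 2) (⊤ : Subgroup W)) := by
        rw [← e2, Subgroup.card_map_of_injective W.subtype_injective]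
      have c3 : Nat.card (V.map W.subtype) = Nat.card V :=
        Subgroup.card_map_of_injective W.subtype_injective
      refine ⟨V.map W.subtype, ?_, ?_⟩
      · rw [← e1, ← Subgroup.map_commutator, hV1, Subgroup.map_bot]
      · rw [c1, c3]
        rw [c2] at hcard
        have hpos : 0 < Nat.card W := Nat.card_pos
        refine Nat.le_of_mul_le_mul_left ?_ hpos
        have hpos2 : 0 < Nat.card (dd (p ^ 2) (⊤ : Subgroup W)) := Nat.card_pos
        refine Nat.le_of_mul_le_mul_left ?_ hpos2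
        calc _ = (Nat.card G * Nat.card (dd (p ^ 2) (⊤ : Subgroup W))) *
              (Nat.card W * Nat.card (dd (p ^ 2) V)) := by ring
          _ ≤ (Nat.card W * Nat.card (dd (p ^ 2) (⊤ : Subgroup G))) *
              (Nat.card V * Nat.card (dd (p ^ 2) (⊤ : Subgroup W))) := Nat.mul_le_mul hcard hV2
          _ = _ := by ring

theorem dvd_choose_two (q : ℕ) : q ∣ (q ^ 2).choose 2 := by
  rcases Nat.eq_zero_or_pos q with rfl | hq
  · simp
  · refine ⟨q.choose 2 * (q + 1), ?_⟩
    have h1 := Nat.choose_two_right (q ^ 2)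
    have h2 := Nat.choose_two_right q
    obtain ⟨a, rfl⟩ : ∃ a, q = a + 1 := ⟨q - 1, by omega⟩
    rw [Nat.add_sub_cancel] at h2
    have e1 : (a + 1) ^ 2 - 1 = a * (a + 2) := by
      have : (a + 1) ^ 2 = a * (a + 2) + 1 := by ring
      omega
    rw [e1] at h1
    have h3 : 2 ∣ (a + 1) * a := by
      rw [mul_comm]
      exact (Nat.even_mul_succ_self a).two_dvd
    obtain ⟨b, hb⟩ := h3
    have h4 : (a + 1) ^ 2 * (a * (a + 2)) = 2 * (b * ((a + 1) * (a + 2))) := by
      calc _ = ((a + 1) * a) * ((a + 1) * (a + 2)) := by ring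
        _ = _ := by rw [hb]; ring
    rw [h4, Nat.mul_div_cancel_left _ (by norm_num : 0 < 2)] at h1
    rw [hb, Nat.mul_div_cancel_left _ (by norm_num : 0 < 2)] at h2
    rw [h1, h2]
    ring

/-- the subgroup of exponent dividing `p ^ 4` of class at most two -/
theorem exists_omega {p : ℕ} [hp : Fact p.Prime] (G : Type*) [Group G] [Finite G]
    (hG : IsPGroup p G) : ∃ Ω : Subgroup G, ⁅⁅Ω, Ω⁆, Ω⁆ = ⊥ ∧ (∀ x ∈ Ω, x ^ p ^ 4 = 1) ∧
      Nat.card G ≤ Nat.card Ω * Nat.card (dd (p ^ 2) (⊤ : Subgroup G)) := by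
  obtain ⟨W, hW, hcard⟩ := ct_exists (p := p) (Nat.card G) G rfl hG
  have hcen : ∀ u ∈ dd (p ^ 2) W, ∀ x ∈ W, Commute u x := by
    intro u hu x hx
    rw [← commutatorElement_eq_one_iff_commute]
    have := Subgroup.commutator_mem_commutator hu hx
    rw [hW] at this
    exact Subgroup.mem_bot.1 this
  -- the power map
  have hmul : ∀ x ∈ W, ∀ y ∈ W, (x * y) ^ p ^ 4 = x ^ p ^ 4 * y ^ p ^ 4 := by
    intro x hx y hy
    set z := ⁅y, x⁆ with hz
    have hzD : z ∈ dd (p ^ 2) W := comm_le_dd _ _ (Subgroup.commutator_mem_commutator hy hx)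
    -- work in `W`
    have hzW : ∀ g : W, Commute (⟨z, (Subgroup.commutator_mem_commutator hy hx |> fun h => W.commutator_le_self h)⟩ : W) g := by
      intro g
      have := hcen z hzD g g.2
      exact Subtype.ext this.eq
    have h1 := twist_pow (x := (⟨y, hy⟩ : W)) (b := ⟨x, hx⟩) hzW (Subtype.ext (by
      change y * x = z * x * y
      rw [hz, commutatorElement_def]
      group)) (p ^ 4)
    have h2 := congrArg (fun g : W => (g : G)) h1
    simp only [Subgroup.coe_pow, Subgroup.coe_mul] at h2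
    rw [h2]
    have h3 : z ^ p ^ 2 = 1 := by
      have h4 : Commute (y ^ p ^ 2) x := hcen _ (pow_mem_dd _ _ hy) x hx
      have h5 : x * y ^ p ^ 2 * x⁻¹ = y ^ p ^ 2 := by rw [← h4.eq]; group
      rw [← conj_pow] at h5
      have h6 : x * y * x⁻¹ = z⁻¹ * y := by rw [hz, commutatorElement_def]; group
      rw [h6, (((hcen z hzD y hy).inv_left).mul_pow)] at h5
      have h7 : z⁻¹ ^ p ^ 2 = 1 := mul_eq_right.1 h5
      rwa [inv_pow, inv_eq_one] at h7
    have h4 : z ^ (p ^ 4).choose 2 = 1 := by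
      obtain ⟨k, hk⟩ := dvd_choose_two (p ^ 2)
      have e : p ^ 4 = (p ^ 2) ^ 2 := by ring
      rw [e, hk, pow_mul, h3, one_pow]
    rw [h4, one_mul]
  let π : W →* G :=
    { toFun := fun x => (x : G) ^ p ^ 4
      map_one' := by simp
      map_mul' := fun x y => hmul x x.2 y y.2 }
  have hrange : π.range ≤ dd (p ^ 2) W := by
    rintro _ ⟨x, rfl⟩
    change (x : G) ^ p ^ 4 ∈ _
    have e : p ^ 4 = p ^ 2 * p ^ 2 := by ring
    rw [e, pow_mul]
    exact pow_mem (pow_mem_dd _ _ x.2) _
  refine ⟨π.ker.map W.subtype, ?_, ?_, ?_⟩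
  · rw [eq_bot_iff, ← hW]
    have hle : π.ker.map W.subtype ≤ W := by
      rintro _ ⟨x, _, rfl⟩
      exact x.2
    exact Subgroup.commutator_mono ((Subgroup.commutator_mono hle hle).trans (comm_le_dd _ _)) hle
  · rintro _ ⟨x, hx, rfl⟩
    exact hx
  · rw [Subgroup.card_map_of_injective W.subtype_injective]
    have h1 : Nat.card W = Nat.card π.ker * Nat.card π.range := by
      rw [← π.ker.card_mul_index, Subgroup.index_ker]
    have h2 := Subgroup.card_le_of_le hrange
    have hpos : 0 < Nat.card (dd (p ^ 2) W) := Nat.card_pos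
    refine Nat.le_of_mul_le_mul_right ?_ hpos
    calc Nat.card G * Nat.card (dd (p ^ 2) W)
        ≤ Nat.card W * Nat.card (dd (p ^ 2) (⊤ : Subgroup G)) := hcard
      _ ≤ (Nat.card π.ker * Nat.card (dd (p ^ 2) W)) *
          Nat.card (dd (p ^ 2) (⊤ : Subgroup G)) := by
          rw [h1]
          exact Nat.mul_le_mul_right _ (Nat.mul_le_mul_left _ h2)
      _ = _ := by ring

end CT

end Pool.Agent.N580
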