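import Mathlib

/-!
# A greedy lemma on actions of nilpotent groups

`G` acts on the abelian group `U` by `ρ`.  `EE ρ N m` is the set of the elements of `U` which are
killed by all products of `m` operators `ρ x - 1`, `x ∈ N`.
-/

namespace Pool.Agent.N580

open Subgroup
open scoped commutatorElement

section Greedy

variable {G : Type*} [Group G] {U : Type*} [AddCommGroup U]

/-- the elements killed by any `m` operators `ρ x - 1`, `x ∈ N` -/
def EE (ρ : G →* AddMonoid.End U) (N : Subgroup G) : ℕ → AddSubgroup U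
  | 0 => ⊥
  | m + 1 =>
    { carrier := {u | ∀ x ∈ N, ρ x u - u ∈ EE ρ N m}
      zero_mem' := fun x _ => by simp [map_zero, zero_mem]
      add_mem' := fun {a b} ha hb x hx => by
        have : ρ x (a + b) - (a + b) = (ρ x a - a) + (ρ x b - b) := by
          rw [map_add]; abel
        rw [this]
        exact add_mem (ha x hx) (hb x hx)
      neg_mem' := fun {a} ha x hx => by
        have : ρ x (-a) - (-a) = -(ρ x a - a) := by
          rw [map_neg]; abel
        rw [this]
        exact neg_mem (ha x hx) }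

variable {ρ : G →* AddMonoid.End U}

theorem mem_EE_succ {N : Subgroup G} {m : ℕ} {u : U} :
    u ∈ EE ρ N (m + 1) ↔ ∀ x ∈ N, ρ x u - u ∈ EE ρ N m := Iff.rfl

theorem mem_EE_zero {N : Subgroup G} {u : U} : u ∈ EE ρ N 0 ↔ u = 0 := by
  change u ∈ (⊥ : AddSubgroup U) ↔ _
  simp

theorem EE_mono_succ (N : Subgroup G) (m : ℕ) : EE ρ N m ≤ EE ρ N (m + 1) := by
  induction m with
  | zero =>
    intro u hu
    rw [mem_EE_zero] at hu
    subst hu
    exact zero_mem _
  | succ m ih =>
    intro u hu x hx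
    exact ih (hu x hx)

theorem EE_mono (N : Subgroup G) {m n : ℕ} (h : m ≤ n) : EE ρ N m ≤ EE ρ N n :=
  monotone_nat_of_le_succ (EE_mono_succ N) h

theorem EE_anti {N N' : Subgroup G} (h : N' ≤ N) (m : ℕ) : EE ρ N m ≤ EE ρ N' m := by
  induction m with
  | zero => exact le_refl _
  | succ m ih =>
    intro u hu x hx
    exact ih (hu x (h hx))

theorem EE_inv {N : Subgroup G} (hN : N.Normal) (m : ℕ) (g : G) {u : U} (hu : u ∈ EE ρ N m) :
    ρ g u ∈ EE ρ N m := by
  induction m generalizing u with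
  | zero =>
    rw [mem_EE_zero] at hu ⊢
    rw [hu, map_zero]
  | succ m ih =>
    intro x hx
    have h1 := ih (hu (g⁻¹ * x * g) (by simpa using hN.conj_mem x hx g⁻¹))
    have h2 : ρ g (ρ (g⁻¹ * x * g) u - u) = ρ x (ρ g u) - ρ g u := by
      rw [map_sub]
      congr 1
      have : ρ g (ρ (g⁻¹ * x * g) u) = ρ (g * (g⁻¹ * x * g)) u := by
        rw [map_mul ρ g]; rfl
      rw [this]
      have h3 : g * (g⁻¹ * x * g) = x * g := by group
      rw [h3, map_mul]
      rfl
    rw [h2] at h1
    exact h1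

theorem rho_mul (x y : G) (u : U) : ρ (x * y) u = ρ x (ρ y u) := by
  rw [map_mul]; rfl

theorem dd_comm (x y : G) (u : U) :
    ρ x (ρ y u - u) - (ρ y u - u) =
      (ρ y (ρ x u - u) - (ρ x u - u)) + ρ (y * x) (ρ ⁅x⁻¹, y⁻¹⁆ u - u) := by
  have h : ρ (y * x) (ρ ⁅x⁻¹, y⁻¹⁆ u) = ρ x (ρ y u) := by
    rw [← rho_mul, ← rho_mul]
    congr 2
    rw [commutatorElement_def]
    group
  rw [map_sub, map_sub, map_sub, h, rho_mul]
  abel

theorem EE_lcs {N : Subgroup G} (hN : N.Normal) (m : ℕ) :
    ∀ z ∈ N.lowerCentralSeries m, ∀ i, ∀ u ∈ EE ρ N i, ρ z u - u ∈ EE ρ N (i - (m + 1)) := by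
  induction m with
  | zero =>
    intro z hz i u hu
    rw [Subgroup.lowerCentralSeries_zero] at hz
    rcases i with _ | i
    · rw [mem_EE_zero] at hu
      subst hu
      simp
    · exact hu z hz
  | succ m ih =>
    -- the set of good elements is a subgroup
    let S : Subgroup G :=
      { carrier := {z | ∀ i, ∀ u ∈ EE ρ N i, ρ z u - u ∈ EE ρ N (i - (m + 1 + 1))}
        one_mem' := by
          intro i u hu
          simp
        mul_mem' := by
          intro a b ha hb i u hu
          have h1 : ρ (a * b) u - u = ρ a (ρ b u - u) + (ρ a u - u) := by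
            rw [rho_mul, map_sub]; abel
          rw [h1]
          exact add_mem (EE_inv hN _ _ (hb i u hu)) (ha i u hu)
        inv_mem' := by
          intro a ha i u hu
          have h1 : ρ a⁻¹ u - u = - ρ a⁻¹ (ρ a u - u) := by
            rw [map_sub, ← rho_mul]
            simp
          rw [h1]
          exact neg_mem (EE_inv hN _ _ (ha i u hu)) }
    have hS : N.lowerCentralSeries (m + 1) ≤ S := by
      rw [Subgroup.lowerCentralSeries_succ, Subgroup.commutator_le]
      intro a ha b hb i u hu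
      have h0 := dd_comm (ρ := ρ) a⁻¹ b⁻¹ u
      rw [inv_inv, inv_inv] at h0
      have ha' := inv_mem ha
      have hb' := inv_mem hb
      have h1 : ρ a⁻¹ (ρ b⁻¹ u - u) - (ρ b⁻¹ u - u) ∈ EE ρ N (i - (m + 1 + 1)) := by
        rcases i with _ | i
        · rw [mem_EE_zero] at hu
          subst hu
          simp
        · have := ih _ ha' _ _ (hu b⁻¹ hb')
          have e : i - (m + 1) = i + 1 - (m + 1 + 1) := by omega
          rwa [e] at this
      have h2 : ρ b⁻¹ (ρ a⁻¹ u - u) - (ρ a⁻¹ u - u) ∈ EE ρ N (i - (m + 1 + 1)) := by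
        have h3 := ih _ ha' i u hu
        rcases hi : i - (m + 1) with _ | j
        · rw [hi, mem_EE_zero] at h3
          rw [h3]
          simp
        · rw [hi] at h3
          have := h3 b⁻¹ hb'
          have e : j = i - (m + 1 + 1) := by omega
          rwa [e] at this
      have h4 : ρ (b⁻¹ * a⁻¹) (ρ ⁅a, b⁆ u - u) ∈ EE ρ N (i - (m + 1 + 1)) := by
        have := sub_mem h1 h2
        rw [h0] at this
        simpa using this
      have h5 := EE_inv hN _ (b⁻¹ * a⁻¹)⁻¹ h4
      rw [← rho_mul] at h5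
      simpa using h5
    intro z hz
    exact hS hz

/-- The greedy lemma. -/
theorem greedy [Finite G] [Finite U] (ρ : G →* AddMonoid.End U) (N₁ Z : Subgroup G)
    (hN₁ : N₁.Normal) (hZN : Z ≤ N₁) (hZρ : ∀ z ∈ Z, ρ z = 1)
    (k : ℕ) (hk : ∀ z ∈ N₁.lowerCentralSeries k, ρ z = 1)
    (hnil : ∀ H : AddSubgroup U, (∀ g, ∀ u ∈ H, ρ g u ∈ H) → H ≠ ⊤ →
      ∃ t, t ∉ H ∧ ∀ g, ρ g t - t ∈ H) :
    ∃ N : Subgroup G, N.Normal ∧ Z ≤ N ∧ N ≤ N₁ ∧ Nat.card N₁ ≤ Nat.card N * Nat.card U ∧
      EE ρ N (k + 1) = ⊤ := by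
  classical
  let P : Subgroup G → Prop := fun N => N.Normal ∧ Z ≤ N ∧ N ≤ N₁ ∧
    Nat.card N₁ * Nat.card (EE ρ N₁ k) ≤ Nat.card N * Nat.card (EE ρ N k)
  have hP : P N₁ := ⟨hN₁, hZN, le_refl _, le_refl _⟩
  obtain ⟨N, hN, hmin⟩ := WellFounded.has_min (measure fun N : Subgroup G => Nat.card N).wf
    {N | P N} ⟨N₁, hP⟩
  obtain ⟨hnorm, hZle, hle, hcard⟩ := hN
  have hEcard : Nat.card (EE ρ N k) ≤ Nat.card U := AddSubgroup.card_le_card_addGroup _
  have hE1 : 0 < Nat.card (EE ρ N₁ k) := Nat.card_pos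
  refine ⟨N, hnorm, hZle, hle, ?_, ?_⟩
  · calc Nat.card N₁ ≤ Nat.card N₁ * Nat.card (EE ρ N₁ k) := Nat.le_mul_of_pos_right _ hE1
      _ ≤ _ := hcard
      _ ≤ _ := Nat.mul_le_mul_left _ hEcard
  by_contra hne
  obtain ⟨t, ht, htg⟩ := hnil (EE ρ N (k + 1)) (fun g u hu => EE_inv hnorm _ g hu) hne
  -- the new subgroup
  let N' : Subgroup G :=
    { carrier := {x | x ∈ N ∧ ρ x t - t ∈ EE ρ N k}
      one_mem' := ⟨one_mem _, by simp⟩
      mul_mem' := by
        rintro a b ⟨ha, ha'⟩ ⟨hb, hb'⟩
        refine ⟨mul_mem ha hb, ?_⟩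
        have h1 : ρ (a * b) t - t = ρ a (ρ b t - t) + (ρ a t - t) := by
          rw [rho_mul, map_sub]; abel
        rw [h1]
        exact add_mem (EE_inv hnorm _ _ hb') ha'
      inv_mem' := by
        rintro a ⟨ha, ha'⟩
        refine ⟨inv_mem ha, ?_⟩
        have h1 : ρ a⁻¹ t - t = - ρ a⁻¹ (ρ a t - t) := by
          rw [map_sub, ← rho_mul]
          simp
        rw [h1]
        exact neg_mem (EE_inv hnorm _ _ ha') }
  have hN'N : N' ≤ N := fun x hx => hx.1
  have hN'norm : N'.Normal := by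
    constructor
    rintro x ⟨hx, hx'⟩ g
    refine ⟨hnorm.conj_mem x hx g, ?_⟩
    have h1 : ρ (g * x * g⁻¹) t - t = ρ g ((ρ x t - t) + (ρ x (ρ g⁻¹ t - t) - (ρ g⁻¹ t - t))) := by
      have h3 : ρ g (ρ g⁻¹ t) = t := by rw [← rho_mul]; simp
      simp only [map_sub, map_add, rho_mul, h3]
      abel
    rw [h1]
    exact EE_inv hnorm _ _ (add_mem hx' (htg g⁻¹ x hx))
  -- key claim
  have key : ∀ j, j ≤ k → ∀ z ∈ N.lowerCentralSeries (k - j), ρ z t - t ∈ EE ρ N' j := by
    intro j
    induction j with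
    | zero =>
      intro _ z hz
      have : ρ z = 1 := hk z (by
        have hmono : ∀ n, N.lowerCentralSeries n ≤ N₁.lowerCentralSeries n := by
          intro n
          induction n with
          | zero => exact hle
          | succ n ih => exact Subgroup.commutator_mono ih hle
        exact hmono _ hz)
      rw [this]
      simp
    | succ j ih =>
      intro hj z hz x hx
      rw [dd_comm]
      refine add_mem ?_ ?_
      · have h1 : ρ x t - t ∈ EE ρ N k := hx.2
        have h2 := EE_lcs hnorm _ z hz _ _ h1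
        refine EE_anti hN'N _ ?_
        have e : k - (k - (j + 1) + 1) = j := by omega
        rwa [e] at h2
      · refine EE_inv hN'norm _ _ ?_
        apply ih (by omega)
        have e : k - j = (k - (j + 1)) + 1 := by omega
        rw [e, Subgroup.lowerCentralSeries_succ, Subgroup.commutator_comm]
        exact Subgroup.commutator_mem_commutator (inv_mem (hN'N hx)) (inv_mem hz)
  have key' : ∀ z ∈ N, ρ z t - t ∈ EE ρ N' k := by
    intro z hz
    apply key k le_rfl
    simpa using hz
  -- counting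
  have hcount : Nat.card N * Nat.card (EE ρ N k) ≤ Nat.card N' * Nat.card (EE ρ N' k) := by
    have hEle : EE ρ N k ≤ EE ρ N' k := EE_anti hN'N _
    -- injection from N ⧸ N' to EE N' / EE N
    have h1 : (N'.subgroupOf N).index ≤ ((EE ρ N k).addSubgroupOf (EE ρ N' k)).index := by
      rw [Subgroup.index, AddSubgroup.index]
      let f : N → (EE ρ N' k) ⧸ ((EE ρ N k).addSubgroupOf (EE ρ N' k)) := fun x =>
        QuotientAddGroup.mk ⟨ρ x t - t, key' x x.2⟩
      have hf : ∀ a b : N, f a = f b ↔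
          (QuotientGroup.mk a : N ⧸ N'.subgroupOf N) = QuotientGroup.mk b := by
        intro a b
        rw [QuotientGroup.eq, QuotientAddGroup.eq, Subgroup.mem_subgroupOf,
          AddSubgroup.mem_addSubgroupOf]
        have e1 : ((-(⟨ρ a t - t, key' a a.2⟩ : EE ρ N' k) + ⟨ρ b t - t, key' b b.2⟩ :
            EE ρ N' k) : U) = ρ (a : G) (ρ ((a : G)⁻¹ * b) t - t) := by
          rw [map_sub, ← rho_mul]
          have : (a : G) * ((a : G)⁻¹ * b) = b := by group
          rw [this]
          push_cast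
          abel
        rw [e1]
        constructor
        · intro h
          refine ⟨(a⁻¹ * b).2, ?_⟩
          have := EE_inv hnorm _ (a : G)⁻¹ h
          rw [← rho_mul] at this
          simpa using this
        · rintro ⟨_, h⟩
          exact EE_inv hnorm _ _ (by simpa using h)
      let F : (N ⧸ N'.subgroupOf N) → (EE ρ N' k) ⧸ ((EE ρ N k).addSubgroupOf (EE ρ N' k)) :=
        fun q => f q.out
      refine Nat.card_le_card_of_injective F ?_
      intro a b hab
      have := (hf _ _).1 hab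
      simpa using this
    have h2 := (N'.subgroupOf N).card_mul_index
    have h3 := ((EE ρ N k).addSubgroupOf (EE ρ N' k)).card_mul_index
    have h4 : Nat.card (N'.subgroupOf N) = Nat.card N' :=
      Nat.card_congr (Subgroup.subgroupOfEquivOfLe hN'N).toEquiv
    have h5 : Nat.card ((EE ρ N k).addSubgroupOf (EE ρ N' k)) = Nat.card (EE ρ N k) :=
      Nat.card_congr (AddSubgroup.addSubgroupOfEquivOfLe hEle).toEquiv
    rw [h4] at h2
    rw [h5] at h3
    rw [← h2, ← h3]
    calc Nat.card N' * (N'.subgroupOf N).index * Nat.card (EE ρ N k)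
        ≤ Nat.card N' * ((EE ρ N k).addSubgroupOf (EE ρ N' k)).index * Nat.card (EE ρ N k) :=
          Nat.mul_le_mul_right _ (Nat.mul_le_mul_left _ h1)
      _ = _ := by ring
  have hP' : P N' := by
    refine ⟨hN'norm, ?_, hN'N.trans hle, hcard.trans hcount⟩
    intro z hz
    refine ⟨hZle hz, ?_⟩
    rw [hZρ z hz]
    simp
  have hlt : Nat.card N' < Nat.card N := by
    have hle' : Nat.card N' ≤ Nat.card N := Subgroup.card_le_of_le hN'N
    refine lt_of_le_of_ne hle' ?_
    intro heq
    have : N' = N := Subgroup.eq_of_le_of_card_ge hN'N (by rw [heq])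
    apply ht
    intro x hx
    rw [← this] at hx
    exact hx.2
  exact hmin N' hP' hlt

end Greedy

end Pool.Agent.N580
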