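import Mathlib
import Pool.Agent.N580.Greedy

/-!
# The greedy lemma for abelian normal sections of a finite nilpotent group
-/

namespace Pool.Agent.N580

open Subgroup
open scoped commutatorElement

section Sec

variable {G : Type*} [Group G]

/-- the action of `G` by conjugation on the section `D / K` -/
noncomputable def conjQ (D K : Subgroup G) [D.Normal] [K.Normal] (g : G) :
    (D ⧸ K.subgroupOf D) →* (D ⧸ K.subgroupOf D) :=
  QuotientGroup.map (K.subgroupOf D) (K.subgroupOf D) (MulAut.conjNormal g : MulAut D).toMonoidHom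
    (by
      intro x hx
      rw [Subgroup.mem_comap, Subgroup.mem_subgroupOf]
      rw [Subgroup.mem_subgroupOf] at hx
      have := (inferInstance : K.Normal).conj_mem _ hx g
      simpa [MulAut.conjNormal_apply] using this)

theorem conjQ_mk (D K : Subgroup G) [D.Normal] [K.Normal] (g : G) (x : D) :
    conjQ D K g (QuotientGroup.mk x) = QuotientGroup.mk (MulAut.conjNormal g x) := rfl

theorem conjQ_one (D K : Subgroup G) [D.Normal] [K.Normal] (v : D ⧸ K.subgroupOf D) :
    conjQ D K 1 v = v := by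
  induction v using QuotientGroup.induction_on with
  | H b =>
    rw [conjQ_mk]
    congr 1
    ext
    simp

theorem conjQ_mul (D K : Subgroup G) [D.Normal] [K.Normal] (a b : G) (v : D ⧸ K.subgroupOf D) :
    conjQ D K (a * b) v = conjQ D K a (conjQ D K b v) := by
  induction v using QuotientGroup.induction_on with
  | H c =>
    rw [conjQ_mk, conjQ_mk, conjQ_mk]
    congr 1
    ext
    simp [MulAut.conjNormal_apply, mul_assoc]

/-- the subgroups `[D, G, ..., G]` -/
def iterComm (D : Subgroup G) : ℕ → Subgroup G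
  | 0 => D
  | n + 1 => ⁅iterComm D n, (⊤ : Subgroup G)⁆

theorem iterComm_normal (D : Subgroup G) (hD : D.Normal) (n : ℕ) :
    (iterComm D n).Normal ∧ iterComm D n ≤ D := by
  induction n with
  | zero => exact ⟨hD, le_rfl⟩
  | succ n ih =>
    have h1 := ih.1
    exact ⟨Subgroup.commutator_normal _ _, (Subgroup.commutator_le_left _ _).trans ih.2⟩

theorem iterComm_le (D : Subgroup G) (n : ℕ) :
    iterComm D n ≤ (⊤ : Subgroup G).lowerCentralSeries n := by
  induction n with
  | zero => exact le_top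
  | succ n ih => exact Subgroup.commutator_mono ih le_rfl

theorem greedy_sub [Finite G] (hG : Group.IsNilpotent G) (D K N₁ : Subgroup G)
    (hD : D.Normal) (hK : K.Normal) (hN₁ : N₁.Normal) (hKD : K ≤ D) (hDN : D ≤ N₁)
    (hDD : ⁅D, D⁆ ≤ K) (k : ℕ) (hk : N₁.lowerCentralSeries k ≤ D) :
    ∃ N : Subgroup G, N.Normal ∧ D ≤ N ∧ N ≤ N₁ ∧
      Nat.card N₁ * Nat.card K ≤ Nat.card N * Nat.card D ∧
      ∃ E : ℕ → Subgroup G, E 0 = D ∧ E (k + 1) = K ∧ (∀ i, (E i).Normal) ∧
        (∀ i, E (i + 1) ≤ E i) ∧ (∀ i, K ≤ E i) ∧ ∀ i, i < k + 1 → ⁅E i, N⁆ ≤ E (i + 1) := by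
  classical
  let cg : CommGroup (D ⧸ K.subgroupOf D) :=
    { (inferInstance : Group (D ⧸ K.subgroupOf D)) with
      mul_comm := by
        intro a b
        induction a using QuotientGroup.induction_on with
        | H a =>
          induction b using QuotientGroup.induction_on with
          | H b =>
            rw [← QuotientGroup.mk_mul, ← QuotientGroup.mk_mul, QuotientGroup.eq,
              Subgroup.mem_subgroupOf]
            have h := hDD (Subgroup.commutator_mem_commutator (inv_mem b.2) (inv_mem a.2))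
            rw [commutatorElement_def] at h
            push_cast
            convert h using 1
            group }
  let U := Additive (D ⧸ K.subgroupOf D)
  let ρ : G →* AddMonoid.End U :=
    { toFun := fun g => (MonoidHom.toAdditive (conjQ D K g) : U →+ U)
      map_one' := by
        ext u
        exact congrArg Additive.ofMul (conjQ_one D K (Additive.toMul u))
      map_mul' := by
        intro a b
        ext u
        exact congrArg Additive.ofMul (conjQ_mul D K a b (Additive.toMul u)) }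
  have hρ : ∀ (g : G) (x : D), ρ g (Additive.ofMul (QuotientGroup.mk x)) =
      Additive.ofMul (QuotientGroup.mk (MulAut.conjNormal g x)) := fun g x => rfl
  let mk : D → U := fun x => Additive.ofMul (QuotientGroup.mk x)
  have hmk_mul : ∀ a b : D, mk (a * b) = mk a + mk b := fun a b => rfl
  have hmk_inv : ∀ a : D, mk a⁻¹ = - mk a := fun a => rfl
  have hmk_surj : ∀ u : U, ∃ x : D, mk x = u := fun u => Quot.exists_rep u
  have hmk_zero : ∀ x : D, mk x = 0 ↔ (x : G) ∈ K := by
    intro x
    change (QuotientGroup.mk x : D ⧸ K.subgroupOf D) = 1 ↔ _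
    rw [QuotientGroup.eq_one_iff, Subgroup.mem_subgroupOf]
  have hsub : ∀ (g : G) (x : D) (hc : ⁅g, (x : G)⁆ ∈ D),
      ρ g (mk x) - mk x = mk ⟨⁅g, (x : G)⁆, hc⟩ := by
    intro g x hc
    rw [sub_eq_iff_eq_add, ← hmk_mul]
    change ρ g (Additive.ofMul (QuotientGroup.mk x)) = _
    rw [hρ]
    change mk _ = mk _
    congr 1
    ext
    simp [MulAut.conjNormal_apply, commutatorElement_def]
  -- preimages in `G` of subgroups of `U`
  let pre : AddSubgroup U → Subgroup G := fun H =>
    { carrier := {g | ∃ h : g ∈ D, mk ⟨g, h⟩ ∈ H}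
      one_mem' := ⟨one_mem _, by
        have : mk (⟨1, one_mem _⟩ : D) = 0 := (hmk_zero _).2 (one_mem K)
        rw [this]; exact zero_mem _⟩
      mul_mem' := by
        rintro a b ⟨ha, ha'⟩ ⟨hb, hb'⟩
        refine ⟨mul_mem ha hb, ?_⟩
        have : mk (⟨a * b, mul_mem ha hb⟩ : D) = mk ⟨a, ha⟩ + mk ⟨b, hb⟩ := rfl
        rw [this]
        exact add_mem ha' hb'
      inv_mem' := by
        rintro a ⟨ha, ha'⟩
        refine ⟨inv_mem ha, ?_⟩
        have : mk (⟨a⁻¹, inv_mem ha⟩ : D) = - mk ⟨a, ha⟩ := rfl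
        rw [this]
        exact neg_mem ha' }
  have hpre : ∀ (H : AddSubgroup U) (g : G), g ∈ pre H ↔ ∃ h : g ∈ D, mk ⟨g, h⟩ ∈ H :=
    fun H g => Iff.rfl
  have hpreD : ∀ H, pre H ≤ D := fun H g hg => hg.1
  have hpreK : ∀ H, K ≤ pre H := by
    intro H g hg
    refine ⟨hKD hg, ?_⟩
    rw [(hmk_zero ⟨g, hKD hg⟩).2 hg]
    exact zero_mem _
  have hpremono : ∀ {H H' : AddSubgroup U}, H ≤ H' → pre H ≤ pre H' := by
    intro H H' h g hg
    exact ⟨hg.1, h hg.2⟩
  have hnil : ∀ H : AddSubgroup U, (∀ g, ∀ u ∈ H, ρ g u ∈ H) → H ≠ ⊤ →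
      ∃ t, t ∉ H ∧ ∀ g, ρ g t - t ∈ H := by
    intro H _ hne
    obtain ⟨c, hc⟩ := Subgroup.nilpotent_iff_lowerCentralSeries.1 hG
    have hex : ∃ n, iterComm D n ≤ pre H := ⟨c, by
      have := iterComm_le D c
      rw [hc] at this
      exact this.trans bot_le⟩
    have hspec := Nat.find_spec hex
    rcases hn : Nat.find hex with _ | m
    · exfalso
      rw [hn] at hspec
      apply hne
      rw [AddSubgroup.eq_top_iff']
      intro u
      obtain ⟨x, rfl⟩ := hmk_surj u
      exact (hspec x.2).2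
    · have h1 := Nat.find_min hex (m := m) (by omega)
      rw [hn] at hspec
      obtain ⟨t, htf, htH⟩ := SetLike.not_le_iff_exists.1 h1
      have htD : t ∈ D := (iterComm_normal D hD m).2 htf
      refine ⟨mk ⟨t, htD⟩, fun h => htH ⟨htD, h⟩, ?_⟩
      intro g
      have h2 : ⁅g, t⁆ ∈ iterComm D (m + 1) := by
        rw [iterComm, Subgroup.commutator_comm]
        exact Subgroup.commutator_mem_commutator (Subgroup.mem_top g) htf
      have h3 := hspec h2
      rw [hsub g ⟨t, htD⟩ h3.1]
      exact h3.2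
  have hDρ : ∀ z ∈ D, ρ z = 1 := by
    intro z hz
    ext u
    obtain ⟨x, rfl⟩ := hmk_surj u
    have hc : ⁅z, (x : G)⁆ ∈ K := hDD (Subgroup.commutator_mem_commutator hz x.2)
    have h1 := hsub z x (hKD hc)
    rw [(hmk_zero ⟨⁅z, (x : G)⁆, hKD hc⟩).2 hc, sub_eq_zero] at h1
    exact h1
  obtain ⟨N, hN, hDleN, hNle, hcard, htop⟩ := greedy ρ N₁ D hN₁ hDN hDρ k
    (fun z hz => hDρ z (hk hz)) hnil
  have hcardU : Nat.card U * Nat.card K = Nat.card D := by
    have h1 := (K.subgroupOf D).card_mul_index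
    have h2 : Nat.card (K.subgroupOf D) = Nat.card K :=
      Nat.card_congr (Subgroup.subgroupOfEquivOfLe hKD).toEquiv
    rw [h2, Subgroup.index] at h1
    rw [mul_comm]
    exact h1
  refine ⟨N, hN, hDleN, hNle, ?_, fun i => pre (EE ρ N (k + 1 - i)), ?_, ?_, ?_, ?_, ?_, ?_⟩
  · calc Nat.card N₁ * Nat.card K ≤ Nat.card N * Nat.card U * Nat.card K :=
          Nat.mul_le_mul_right _ hcard
      _ = Nat.card N * (Nat.card U * Nat.card K) := by ring
      _ = _ := by rw [hcardU]
  · change pre (EE ρ N (k + 1 - 0)) = D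
    rw [Nat.sub_zero, htop]
    refine le_antisymm (hpreD _) (fun g hg => ⟨hg, AddSubgroup.mem_top _⟩)
  · change pre (EE ρ N (k + 1 - (k + 1))) = K
    rw [Nat.sub_self]
    refine le_antisymm ?_ (hpreK _)
    rintro g ⟨hg, h⟩
    rw [mem_EE_zero] at h
    exact (hmk_zero _).1 h
  · intro i
    constructor
    rintro g ⟨hg, h⟩ y
    have hyg : y * g * y⁻¹ ∈ D := hD.conj_mem g hg y
    refine ⟨hyg, ?_⟩
    have h1 := EE_inv hN _ y h
    have h2 : ρ y (mk ⟨g, hg⟩) = mk ⟨y * g * y⁻¹, hyg⟩ := by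
      change ρ y (Additive.ofMul (QuotientGroup.mk _)) = _
      rw [hρ]
      change mk _ = mk _
      congr 1
    rw [h2] at h1
    exact h1
  · intro i
    exact hpremono (EE_mono N (by omega))
  · intro i
    exact hpreK _
  · intro i hi
    rw [Subgroup.commutator_comm, Subgroup.commutator_le]
    rintro x hx g ⟨hg, h⟩
    have hc : ⁅x, g⁆ ∈ D := by
      have h1 : x * g * x⁻¹ ∈ D := hD.conj_mem g hg x
      rw [commutatorElement_def]
      exact mul_mem h1 (inv_mem hg)
    refine ⟨hc, ?_⟩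
    have e : k + 1 - i = (k + 1 - (i + 1)) + 1 := by omega
    change mk ⟨g, hg⟩ ∈ EE ρ N (k + 1 - i) at h
    rw [e] at h
    have h1 := h x hx
    rw [hsub x ⟨g, hg⟩ hc] at h1
    exact h1

end Sec

end Pool.Agent.N580
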