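import Mathlib
import Pool.Agent.N580.Section

/-!
# Large normal subgroups of bounded class
-/

namespace Pool.Agent.N580

open Subgroup
open scoped commutatorElement

section Ch

variable {G : Type*} [Group G]

/-- a chain of length `n` from `X` down to `K` of normal subgroups of `G` such that commutators with
`N` and `p`-th powers of elements of a term are in the next one -/
def CC (p : ℕ) (N X K : Subgroup G) (n : ℕ) : Prop :=
  ∃ L : ℕ → Subgroup G, L 0 = X ∧ L n = K ∧ (∀ i, (L i).Normal) ∧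
    ∀ i < n, L (i + 1) ≤ L i ∧ ⁅L i, N⁆ ≤ L (i + 1) ∧ ∀ x ∈ L i, x ^ p ∈ L (i + 1)

/-- a chain with abelian factors of exponent `p` -/
def DC (p : ℕ) (X K : Subgroup G) (n : ℕ) : Prop :=
  ∃ L : ℕ → Subgroup G, L 0 = X ∧ L n = K ∧ (∀ i, (L i).Normal) ∧
    ∀ i < n, L (i + 1) ≤ L i ∧ ⁅L i, L i⁆ ≤ L (i + 1) ∧ ∀ x ∈ L i, x ^ p ∈ L (i + 1)

theorem CC.refl (p : ℕ) (N X : Subgroup G) (hX : X.Normal) : CC p N X X 0 :=
  ⟨fun _ => X, rfl, rfl, fun _ => hX, fun i hi => absurd hi (by omega)⟩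

theorem DC.refl (p : ℕ) (X : Subgroup G) (hX : X.Normal) : DC p X X 0 :=
  ⟨fun _ => X, rfl, rfl, fun _ => hX, fun i hi => absurd hi (by omega)⟩

theorem CC.append {p : ℕ} {N X Y K : Subgroup G} {m n : ℕ} (h1 : CC p N X Y m)
    (h2 : CC p N Y K n) : CC p N X K (m + n) := by
  obtain ⟨L, hL0, hLm, hLn, hL⟩ := h1
  obtain ⟨M, hM0, hMn, hMno, hM⟩ := h2
  refine ⟨fun i => if i < m then L i else M (i - m), ?_, ?_, ?_, ?_⟩
  · by_cases hm : 0 < m
    · simp [hm, hL0]
    · have : m = 0 := by omega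
      subst this
      simp only [lt_irrefl, if_false]
      rw [Nat.sub_self, hM0, ← hLm, hL0]
  · have : ¬ m + n < m := by omega
    simp [this, hMn]
  · intro i
    by_cases hi : i < m
    · simpa [hi] using hLn i
    · simpa [hi] using hMno (i - m)
  · intro i hi
    by_cases h1 : i + 1 < m
    · have h2 : i < m := by omega
      simpa [h1, h2] using hL i h2
    · by_cases h2 : i < m
      · have h3 : i + 1 = m := by omega
        have := hL i h2
        rw [h3, hLm, ← hM0] at this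
        simpa [h2, h3] using this
      · have h3 : i + 1 - m = i - m + 1 := by omega
        simpa [h1, h2, h3] using hM (i - m) (by omega)

theorem DC.append {p : ℕ} {X Y K : Subgroup G} {m n : ℕ} (h1 : DC p X Y m)
    (h2 : DC p Y K n) : DC p X K (m + n) := by
  obtain ⟨L, hL0, hLm, hLn, hL⟩ := h1
  obtain ⟨M, hM0, hMn, hMno, hM⟩ := h2
  refine ⟨fun i => if i < m then L i else M (i - m), ?_, ?_, ?_, ?_⟩
  · by_cases hm : 0 < m
    · simp [hm, hL0]
    · have : m = 0 := by omega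
      subst this
      simp only [lt_irrefl, if_false]
      rw [Nat.sub_self, hM0, ← hLm, hL0]
  · have : ¬ m + n < m := by omega
    simp [this, hMn]
  · intro i
    by_cases hi : i < m
    · simpa [hi] using hLn i
    · simpa [hi] using hMno (i - m)
  · intro i hi
    by_cases h1 : i + 1 < m
    · have h2 : i < m := by omega
      simpa [h1, h2] using hL i h2
    · by_cases h2 : i < m
      · have h3 : i + 1 = m := by omega
        have := hL i h2
        rw [h3, hLm, ← hM0] at this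
        simpa [h2, h3] using this
      · have h3 : i + 1 - m = i - m + 1 := by omega
        simpa [h1, h2, h3] using hM (i - m) (by omega)

theorem CC.bot_succ {p : ℕ} {N X : Subgroup G} {n m : ℕ} (h : CC p N X ⊥ n) (hnm : n ≤ m) :
    CC p N X ⊥ m := by
  obtain ⟨k, rfl⟩ := Nat.exists_eq_add_of_le hnm
  refine h.append ⟨fun _ => ⊥, rfl, rfl, fun _ => inferInstance, fun i _ => ⟨le_rfl, ?_, ?_⟩⟩
  · rw [Subgroup.commutator_bot_left]
  · intro x hx
    rw [Subgroup.mem_bot] at hx ⊢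
    rw [hx, one_pow]

theorem CC.inf {p : ℕ} {N N' X K : Subgroup G} {n : ℕ} (h : CC p N X K n) (hN' : N'.Normal)
    (hle : N' ≤ N) : CC p N' (X ⊓ N') (K ⊓ N') n := by
  obtain ⟨L, hL0, hLm, hLn, hL⟩ := h
  refine ⟨fun i => L i ⊓ N', by simp only [hL0], by simp only [hLm], ?_, ?_⟩
  · intro i
    have := hLn i
    infer_instance
  · intro i hi
    obtain ⟨h1, h2, h3⟩ := hL i hi
    refine ⟨inf_le_inf_right _ h1, ?_, ?_⟩
    · refine le_inf ?_ ?_
      · exact (Subgroup.commutator_mono inf_le_left hle).trans h2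
      · exact Subgroup.commutator_le_right _ _
    · rintro x ⟨hx, hx'⟩
      exact ⟨h3 x hx, pow_mem hx' _⟩

/-- powers in abelian sections -/
theorem pow_mul_mem {X Y : Subgroup G} (hY : Y.Normal) (hXY : ⁅X, X⁆ ≤ Y) (n : ℕ) {a b : G}
    (ha : a ∈ X) (hb : b ∈ X) (han : a ^ n ∈ Y) (hbn : b ^ n ∈ Y) : (a * b) ^ n ∈ Y := by
  have hc : Commute (QuotientGroup.mk' Y a) (QuotientGroup.mk' Y b) := by
    rw [← commutatorElement_eq_one_iff_commute, ← map_commutatorElement]
    exact (QuotientGroup.eq_one_iff _).2 (hXY (Subgroup.commutator_mem_commutator ha hb))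
  have h1 : QuotientGroup.mk' Y ((a * b) ^ n) = 1 := by
    rw [map_pow, map_mul, hc.mul_pow, ← map_pow, ← map_pow]
    have h2 : QuotientGroup.mk' Y (a ^ n) = 1 := (QuotientGroup.eq_one_iff (N := Y) (a ^ n)).2 han
    have h3 : QuotientGroup.mk' Y (b ^ n) = 1 := (QuotientGroup.eq_one_iff (N := Y) (b ^ n)).2 hbn
    rw [h2, h3, one_mul]
  exact (QuotientGroup.eq_one_iff _).1 h1

theorem CC.of_pow (p : ℕ) (N : Subgroup G) (f : ℕ) : ∀ (X Y : Subgroup G), X.Normal → Y.Normal →
    Y ≤ X → X ≤ N → ⁅X, N⁆ ≤ Y → (∀ x ∈ X, x ^ p ^ f ∈ Y) → CC p N X Y f := by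
  induction f with
  | zero =>
    intro X Y hX _ hYX _ _ h
    have : Y = X := le_antisymm hYX (fun x hx => by simpa using h x hx)
    subst this
    exact CC.refl _ _ _ hX
  | succ f ih =>
    intro X Y hX hY hYX hXN hc h
    have hXX : ⁅X, X⁆ ≤ Y := (Subgroup.commutator_mono le_rfl hXN).trans hc
    -- the subgroup of the elements with `p ^ f`-th power in `Y`
    let S : Subgroup G :=
      { carrier := {x | x ∈ X ∧ x ^ p ^ f ∈ Y}
        one_mem' := ⟨one_mem _, by simp⟩
        mul_mem' := fun {a b} ha hb => ⟨mul_mem ha.1 hb.1,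
          pow_mul_mem hY hXX _ ha.1 hb.1 ha.2 hb.2⟩
        inv_mem' := fun {a} ha => ⟨inv_mem ha.1, by
          rw [inv_pow]
          exact inv_mem ha.2⟩ }
    let X₁ : Subgroup G := Subgroup.closure {y | ∃ x ∈ X, y = x ^ p} ⊔ Y
    have hX₁ : X₁.Normal := by
      have : (Subgroup.closure {y | ∃ x ∈ X, y = x ^ p}).Normal := by
        constructor
        intro n hn g
        rw [← MulAut.conj_apply, ← MulEquiv.coe_toMonoidHom, ← Subgroup.mem_comap]
        have hle : Subgroup.closure {y | ∃ x ∈ X, y = x ^ p} ≤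
            (Subgroup.closure {y | ∃ x ∈ X, y = x ^ p}).comap (MulAut.conj g).toMonoidHom := by
          rw [Subgroup.closure_le]
          rintro y ⟨x, hx, rfl⟩
          refine Subgroup.subset_closure ⟨g * x * g⁻¹, hX.conj_mem x hx g, ?_⟩
          simp [conj_pow]
        exact hle hn
      infer_instance
    have hX₁X : X₁ ≤ X := by
      refine sup_le ?_ hYX
      rw [Subgroup.closure_le]
      rintro y ⟨x, hx, rfl⟩
      exact pow_mem hx _
    have hX₁S : X₁ ≤ S := by
      refine sup_le ?_ (fun y hy => ⟨hYX hy, pow_mem hy _⟩)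
      rw [Subgroup.closure_le]
      rintro y ⟨x, hx, rfl⟩
      refine ⟨pow_mem hx _, ?_⟩
      rw [← pow_mul, ← pow_succ']
      exact h x hx
    have h1 : CC p N X X₁ 1 := by
      refine ⟨fun i => if i = 0 then X else X₁, by simp, by simp, ?_, ?_⟩
      · intro i
        by_cases hi : i = 0
        · simpa [hi] using hX
        · simpa [hi] using hX₁
      · intro i hi
        have : i = 0 := by omega
        subst this
        refine ⟨by simpa using hX₁X, ?_, ?_⟩
        · simpa using hc.trans le_sup_right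
        · intro x hx
          have hx' : x ∈ X := by simpa using hx
          have : x ^ p ∈ X₁ := Subgroup.mem_sup_left (Subgroup.subset_closure ⟨x, hx', rfl⟩)
          simpa using this
    have h2 : CC p N X₁ Y f := ih X₁ Y hX₁ hY le_sup_right (hX₁X.trans hXN)
      ((Subgroup.commutator_mono hX₁X le_rfl).trans hc) (fun x hx => (hX₁S hx).2)
    have := h1.append h2
    rwa [add_comm] at this

theorem DC.of_pow (p : ℕ) (f : ℕ) (X Y : Subgroup G) (hX : X.Normal) (hY : Y.Normal)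
    (hYX : Y ≤ X) (hc : ⁅X, X⁆ ≤ Y) (h : ∀ x ∈ X, x ^ p ^ f ∈ Y) : DC p X Y f := by
  obtain ⟨L, h0, h1, h2, h3⟩ := CC.of_pow p X f X Y hX hY hYX le_rfl hc h
  have hle : ∀ i, i ≤ f → L i ≤ X := by
    intro i
    induction i with
    | zero => intro _; rw [h0]
    | succ i ih => intro hi; exact (h3 i (by omega)).1.trans (ih (by omega))
  refine ⟨L, h0, h1, h2, fun i hi => ⟨(h3 i hi).1, ?_, (h3 i hi).2.2⟩⟩
  exact (Subgroup.commutator_mono le_rfl (hle i hi.le)).trans (h3 i hi).2.1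

theorem CC.lcs_le {p : ℕ} {N K : Subgroup G} {n : ℕ} (h : CC p N N K n) :
    N.lowerCentralSeries n ≤ K := by
  obtain ⟨L, hL0, hLm, hLn, hL⟩ := h
  have : ∀ i, i ≤ n → N.lowerCentralSeries i ≤ L i := by
    intro i
    induction i with
    | zero => intro _; rw [hL0]; exact le_rfl
    | succ i ih =>
      intro hi
      rw [Subgroup.lowerCentralSeries_succ]
      exact (Subgroup.commutator_mono (ih (by omega)) le_rfl).trans (hL i (by omega)).2.1
  rw [← hLm]
  exact this n le_rfl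

/-- one more abelian section -/
theorem step [Finite G] (hG : Group.IsNilpotent G) (p : ℕ) (D K N₁ : Subgroup G)
    (hD : D.Normal) (hK : K.Normal) (hN₁ : N₁.Normal) (hKD : K ≤ D) (hDN : D ≤ N₁)
    (hDD : ⁅D, D⁆ ≤ K) (hp : ∀ x ∈ D, x ^ p ∈ K) (n : ℕ) (h : CC p N₁ N₁ D n) :
    ∃ N : Subgroup G, N.Normal ∧ D ≤ N ∧ N ≤ N₁ ∧
      Nat.card N₁ * Nat.card K ≤ Nat.card N * Nat.card D ∧ CC p N N K (2 * n + 1) := by
  obtain ⟨N, hN, hDleN, hNle, hcard, E, hE0, hE1, hEn, hEle, hEK, hE⟩ :=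
    greedy_sub hG D K N₁ hD hK hN₁ hKD hDN hDD n h.lcs_le
  refine ⟨N, hN, hDleN, hNle, hcard, ?_⟩
  have h1 := h.inf hN hNle
  have h2 : N₁ ⊓ N = N := inf_eq_right.2 hNle
  have h3 : D ⊓ N = D := inf_eq_left.2 hDleN
  rw [h2, h3] at h1
  have hED : ∀ i, E i ≤ D := by
    intro i
    induction i with
    | zero => rw [hE0]
    | succ i ih => exact (hEle i).trans ih
  have h4 : CC p N D K (n + 1) := by
    refine ⟨E, hE0, hE1, hEn, fun i hi => ⟨hEle i, hE i hi, fun x hx => ?_⟩⟩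
    exact hEK _ (hp x (hED i hx))
  have h5 := h1.append h4
  have : n + (n + 1) = 2 * n + 1 := by ring
  rwa [this] at h5

theorem steps [Finite G] (hG : Group.IsNilpotent G) (p : ℕ) (r : ℕ) (D : ℕ → Subgroup G)
    (hD : ∀ i, (D i).Normal)
    (h : ∀ i < r, D (i + 1) ≤ D i ∧ ⁅D i, D i⁆ ≤ D (i + 1) ∧ ∀ x ∈ D i, x ^ p ∈ D (i + 1)) :
    ∀ j, 1 ≤ j → j ≤ r → ∃ N : Subgroup G, N.Normal ∧ D j ≤ N ∧ N ≤ D 0 ∧
      Nat.card (D 0) * Nat.card (D j) ≤ Nat.card N * Nat.card (D 1) ∧
      CC p N N (D j) (2 ^ j - 1) := by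
  intro j hj
  induction j, hj using Nat.le_induction with
  | base =>
    intro hr
    obtain ⟨h1, h2, h3⟩ := h 0 (by omega)
    refine ⟨D 0, hD 0, h1, le_rfl, le_rfl, ?_⟩
    refine ⟨D, rfl, rfl, hD, fun i hi => ?_⟩
    have : i = 0 := by omega
    subst this
    exact ⟨h1, h2, h3⟩
  | succ j hj ih =>
    intro hr
    obtain ⟨N, hN, hDN, hN0, hcard, hCC⟩ := ih (by omega)
    obtain ⟨h1, h2, h3⟩ := h j (by omega)
    obtain ⟨N', hN', hDN', hNN', hcard', hCC'⟩ :=
      step hG p (D j) (D (j + 1)) N (hD j) (hD (j + 1)) hN h1 hDN h2 h3 _ hCC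
    refine ⟨N', hN', h1.trans hDN', hNN'.trans hN0, ?_, ?_⟩
    · have hpos : 0 < Nat.card (D j) * Nat.card N := Nat.mul_pos Nat.card_pos Nat.card_pos
      refine Nat.le_of_mul_le_mul_left ?_ hpos
      calc Nat.card (D j) * Nat.card N * (Nat.card (D 0) * Nat.card (D (j + 1)))
          = (Nat.card (D 0) * Nat.card (D j)) * (Nat.card N * Nat.card (D (j + 1))) := by ring
        _ ≤ (Nat.card N * Nat.card (D 1)) * (Nat.card N' * Nat.card (D j)) :=
            Nat.mul_le_mul hcard hcard'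
        _ = _ := by ring
    · have e : 2 ^ (j + 1) - 1 = 2 * (2 ^ j - 1) + 1 := by
        have : 1 ≤ 2 ^ j := Nat.one_le_two_pow
        rw [pow_succ]
        omega
      rw [e]
      exact hCC'

/-- a normal subgroup with a chain to `⊥` of length `r` with elementary abelian factors contains a
large normal subgroup of bounded class -/
theorem large [Finite G] (hG : Group.IsNilpotent G) (p : ℕ) (r : ℕ) :
    ∀ X : Subgroup G, DC p X ⊥ r → ∃ N : Subgroup G, N.Normal ∧ N ≤ X ∧
      Nat.card X ≤ Nat.card N ^ 2 ^ r ∧ CC p N N ⊥ (2 ^ r) := by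
  induction r with
  | zero =>
    rintro X ⟨L, hL0, hL1, hLn, -⟩
    have hX : X = ⊥ := by rw [← hL0, hL1]
    subst hX
    exact ⟨⊥, inferInstance, le_rfl, by simp, (CC.refl p _ _ inferInstance).bot_succ (by simp)⟩
  | succ r ih =>
    rintro X ⟨L, hL0, hLr, hLn, hL⟩
    subst hL0
    by_cases hcase : Nat.card (L 1) ^ 2 ≤ Nat.card (L 0)
    · obtain ⟨N, hN, -, hN0, hcard, hCC⟩ := steps hG p (r + 1) L hLn hL (r + 1) (by omega) le_rfl
      rw [hLr] at hcard hCC
      refine ⟨N, hN, hN0, ?_, hCC.bot_succ (Nat.sub_le _ _)⟩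
      have h1 : Nat.card (L 0) ≤ Nat.card N * Nat.card (L 1) := by simpa using hcard
      have h2 : Nat.card (L 0) ≤ Nat.card N ^ 2 := by
        have hpos : 0 < Nat.card (L 1) ^ 2 := pow_pos Nat.card_pos 2
        have h3 : Nat.card (L 0) * Nat.card (L 0) ≤ Nat.card N ^ 2 * Nat.card (L 0) := by
          calc Nat.card (L 0) * Nat.card (L 0)
              ≤ (Nat.card N * Nat.card (L 1)) * (Nat.card N * Nat.card (L 1)) :=
                Nat.mul_le_mul h1 h1
            _ = Nat.card N ^ 2 * Nat.card (L 1) ^ 2 := by ring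
            _ ≤ _ := Nat.mul_le_mul_left _ hcase
        exact Nat.le_of_mul_le_mul_right h3 Nat.card_pos
      refine h2.trans (Nat.pow_le_pow_right Nat.card_pos ?_)
      rw [pow_succ]
      have : 1 ≤ 2 ^ r := Nat.one_le_two_pow
      omega
    · have hDC : DC p (L 1) ⊥ r :=
        ⟨fun i => L (i + 1), rfl, hLr, fun i => hLn _, fun i hi => hL (i + 1) (by omega)⟩
      obtain ⟨N, hN, hN0, hcard, hCC⟩ := ih _ hDC
      refine ⟨N, hN, hN0.trans (hL 0 (by omega)).1, ?_, hCC.bot_succ ?_⟩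
      · calc Nat.card (L 0) ≤ Nat.card (L 1) ^ 2 := by omega
          _ ≤ (Nat.card N ^ 2 ^ r) ^ 2 := Nat.pow_le_pow_left hcard 2
          _ = Nat.card N ^ 2 ^ (r + 1) := by rw [← pow_mul, pow_succ]
      · exact Nat.pow_le_pow_right (by norm_num) (by omega)

/-- the data used below: `M` normal, with a central chain of length `c`, first step `Z` -/
def Dat (p : ℕ) (M Z : Subgroup G) (c : ℕ) : Prop :=
  ∃ L : ℕ → Subgroup G, L 0 = M ∧ L 1 = Z ∧ L c = ⊥ ∧ (∀ i, (L i).Normal) ∧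
    ∀ i < c, L (i + 1) ≤ L i ∧ ⁅L i, M⁆ ≤ L (i + 1) ∧ ∀ x ∈ L i, x ^ p ∈ L (i + 1)

/-- passing to a term of the chain such that the next one is small -/
theorem CC.exists_dat [Finite G] {p : ℕ} {N : Subgroup G} {n : ℕ} (h : CC p N N ⊥ n) (hn : 1 ≤ n)
    (q : ℕ) (hq : 1 ≤ q) : ∃ M Z : Subgroup G, ∃ c, 1 ≤ c ∧ c ≤ n ∧ M.Normal ∧ M ≤ N ∧ Z ≤ M ∧
      Nat.card N ≤ Nat.card M ^ q ^ n ∧ Nat.card Z ^ q ≤ Nat.card M ∧ Dat p M Z c := by
  classical
  obtain ⟨L, hL0, hLm, hLn, hL⟩ := h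
  have hanti : ∀ i, i ≤ n → L i ≤ N := by
    intro i
    induction i with
    | zero => intro _; rw [hL0]
    | succ i ih => intro hi; exact (hL i (by omega)).1.trans (ih (by omega))
  have hex : ∃ j, j < n ∧ Nat.card (L (j + 1)) ^ q ≤ Nat.card (L j) := by
    refine ⟨n - 1, by omega, ?_⟩
    have : n - 1 + 1 = n := by omega
    rw [this, hLm]
    simp only [Subgroup.card_bot, one_pow]
    exact Nat.card_pos
  obtain ⟨hjn, hj⟩ := Nat.find_spec hex
  have hmin := @Nat.find_min _ _ hex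
  set j := Nat.find hex with hjdef
  have hcards : ∀ i, i ≤ j → Nat.card N ≤ Nat.card (L i) ^ q ^ i := by
    intro i
    induction i with
    | zero => intro _; rw [hL0]; simp
    | succ i ih =>
      intro hi
      have h1 := hmin (m := i) (by omega)
      have h2 : Nat.card (L i) ≤ Nat.card (L (i + 1)) ^ q := by
        by_contra hcon
        exact h1 ⟨by omega, by omega⟩
      calc Nat.card N ≤ Nat.card (L i) ^ q ^ i := ih (by omega)
        _ ≤ (Nat.card (L (i + 1)) ^ q) ^ q ^ i := Nat.pow_le_pow_left h2 _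
        _ = Nat.card (L (i + 1)) ^ q ^ (i + 1) := by rw [← pow_mul, pow_succ']
  refine ⟨L j, L (j + 1), n - j, by omega, by omega, hLn j, hanti j hjn.le, (hL j hjn).1, ?_, hj,
    fun i => L (j + i), rfl, rfl, ?_, fun i => hLn _, ?_⟩
  · refine (hcards j le_rfl).trans (Nat.pow_le_pow_right Nat.card_pos ?_)
    exact Nat.pow_le_pow_right hq hjn.le
  · have : j + (n - j) = n := by omega
    simp only [this, hLm]
  · intro i hi
    obtain ⟨h1, h2, h3⟩ := hL (j + i) (by omega)
    exact ⟨h1, (Subgroup.commutator_mono le_rfl (hanti j hjn.le)).trans h2, h3⟩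

end Ch

end Pool.Agent.N580
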