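import Mathlib

/-!
# Adjoining one element to a subgroup
-/

namespace Pool.Agent.N580

open Subgroup
open scoped commutatorElement

section Ex

variable {H : Type*} [Group H]

theorem conj_pow_mem {Q : Subgroup H} {y : H} (hy : ∀ q ∈ Q, y⁻¹ * q * y ∈ Q) (b : ℕ) :
    ∀ q ∈ Q, (y ^ b)⁻¹ * q * y ^ b ∈ Q := by
  induction b with
  | zero => intro q hq; simpa using hq
  | succ b ih =>
    intro q hq
    have h1 := hy _ (ih q hq)
    have h2 : y⁻¹ * ((y ^ b)⁻¹ * q * y ^ b) * y = (y ^ (b + 1))⁻¹ * q * y ^ (b + 1) := by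
      rw [pow_succ]; group
    rwa [h2] at h1

/-- the subgroup of the elements `y ^ b * q` -/
def ext [Finite H] (Q : Subgroup H) (y : H) (hy : ∀ q ∈ Q, y⁻¹ * q * y ∈ Q) : Subgroup H where
  carrier := {g | ∃ b : ℕ, ∃ q ∈ Q, g = y ^ b * q}
  one_mem' := ⟨0, 1, one_mem _, by simp⟩
  mul_mem' := by
    rintro _ _ ⟨b, q, hq, rfl⟩ ⟨b', q', hq', rfl⟩
    refine ⟨b + b', ((y ^ b')⁻¹ * q * y ^ b') * q', mul_mem (conj_pow_mem hy _ _ hq) hq', ?_⟩
    rw [pow_add]; group
  inv_mem' := by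
    rintro _ ⟨b, q, hq, rfl⟩
    -- `y⁻¹` is a power of `y`
    have hyo : y⁻¹ = y ^ (orderOf y - 1) := by
      rw [inv_eq_iff_mul_eq_one, ← pow_succ', Nat.sub_add_cancel (orderOf_pos y), pow_orderOf_eq_one]
    have h1 : (y ^ b)⁻¹ = y ^ ((orderOf y - 1) * b) := by
      rw [← inv_pow, hyo, ← pow_mul]
    refine ⟨(orderOf y - 1) * b, (y ^ ((orderOf y - 1) * b))⁻¹ * q⁻¹ * y ^ ((orderOf y - 1) * b),
      conj_pow_mem hy _ _ (inv_mem hq), ?_⟩
    rw [mul_inv_rev, h1]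
    group

theorem mem_ext [Finite H] {Q : Subgroup H} {y : H} {hy : ∀ q ∈ Q, y⁻¹ * q * y ∈ Q} {g : H} :
    g ∈ ext Q y hy ↔ ∃ b : ℕ, ∃ q ∈ Q, g = y ^ b * q := Iff.rfl

theorem le_ext [Finite H] (Q : Subgroup H) (y : H) (hy : ∀ q ∈ Q, y⁻¹ * q * y ∈ Q) :
    Q ≤ ext Q y hy := fun q hq => ⟨0, q, hq, by simp⟩

theorem self_mem_ext [Finite H] (Q : Subgroup H) (y : H) (hy : ∀ q ∈ Q, y⁻¹ * q * y ∈ Q) :
    y ∈ ext Q y hy := ⟨1, 1, one_mem _, by simp⟩

theorem ext_le [Finite H] {Q : Subgroup H} {y : H} (hy : ∀ q ∈ Q, y⁻¹ * q * y ∈ Q)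
    {L : Subgroup H} (hQ : Q ≤ L) (hyL : y ∈ L) : ext Q y hy ≤ L := by
  rintro _ ⟨b, q, hq, rfl⟩
  exact mul_mem (pow_mem hyL b) (hQ hq)

theorem card_ext [Finite H] {Q : Subgroup H} {y : H} (hy : ∀ q ∈ Q, y⁻¹ * q * y ∈ Q) {p : ℕ}
    (hp : p.Prime) (hyp : y ^ p ∈ Q) (hyQ : y ∉ Q) :
    p * Nat.card Q ≤ Nat.card (ext Q y hy) := by
  -- powers of `y` in `Q`
  have key : ∀ n : ℕ, 0 < n → n < p → y ^ n ∉ Q := by
    intro n hn0 hnp hn
    have hcop : Nat.gcd n p = 1 := by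
      have := (Nat.coprime_primes hp hp).symm
      exact (Nat.Coprime.symm ((Nat.Prime.coprime_iff_not_dvd hp).2
        (fun h => absurd (Nat.le_of_dvd hn0 h) (by omega))))
    have h1 : y ^ ((Nat.gcd n p : ℕ) : ℤ) ∈ Q := by
      rw [Nat.gcd_eq_gcd_ab, zpow_add, zpow_mul, zpow_mul]
      refine mul_mem (Q.zpow_mem ?_ _) (Q.zpow_mem ?_ _)
      · rw [zpow_natCast]; exact hn
      · rw [zpow_natCast]; exact hyp
    rw [hcop] at h1
    exact hyQ (by simpa using h1)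
  let f : Fin p × Q → ext Q y hy := fun z => ⟨y ^ (z.1 : ℕ) * z.2, ⟨z.1, z.2, z.2.2, rfl⟩⟩
  have hf : Function.Injective f := by
    rintro ⟨⟨b, hb⟩, q⟩ ⟨⟨b', hb'⟩, q'⟩ h
    have h1 : y ^ b * (q : H) = y ^ b' * q' := congrArg Subtype.val h
    have hbb : b = b' := by
      rcases lt_trichotomy b b' with hlt | heq | hgt
      · exfalso
        apply key (b' - b) (by omega) (by omega)
        have h2 : y ^ (b' - b) = (q : H) * (q' : H)⁻¹ := by
          have h3 : y ^ b' = y ^ b * y ^ (b' - b) := by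
            rw [← pow_add]; congr 1; omega
          rw [h3, mul_assoc] at h1
          have := mul_left_cancel h1
          rw [this]; group
        rw [h2]
        exact mul_mem q.2 (inv_mem q'.2)
      · exact heq
      · exfalso
        apply key (b - b') (by omega) (by omega)
        have h2 : y ^ (b - b') = (q' : H) * (q : H)⁻¹ := by
          have h3 : y ^ b = y ^ b' * y ^ (b - b') := by
            rw [← pow_add]; congr 1; omega
          rw [h3, mul_assoc] at h1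
          have := mul_left_cancel h1
          rw [← this]; group
        rw [h2]
        exact mul_mem q'.2 (inv_mem q.2)
    subst hbb
    have : (q : H) = q' := mul_left_cancel h1
    have : q = q' := Subtype.ext this
    rw [this]
  have := Nat.card_le_card_of_injective f hf
  simpa [Nat.card_prod] using this

end Ex

end Pool.Agent.N580
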