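import Mathlib
import Pool.Agent.N580.Ext
import Pool.Agent.N580.Chain

/-!
# The nilpotency index of the augmentation ideal
-/

namespace Pool.Agent.N580

open Subgroup
open scoped commutatorElement

section Au

variable {K : Type*} [Field K] {H : Type*} [Group H]

/-- the element `g` of the group algebra -/
noncomputable abbrev gr (K : Type*) [Field K] {H : Type*} [Group H] (g : H) : MonoidAlgebra K H :=
  MonoidAlgebra.of K H g

theorem gr_mul (a b : H) : gr K (a * b) = gr K a * gr K b := map_mul _ _ _

theorem gr_one : gr K (1 : H) = 1 := map_one _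

theorem gr_inv_mul (a : H) : gr K a⁻¹ * gr K a = 1 := by
  rw [← gr_mul, inv_mul_cancel, gr_one]

theorem gr_mul_inv (a : H) : gr K a * gr K a⁻¹ = 1 := by
  rw [← gr_mul, mul_inv_cancel, gr_one]

theorem gr_pow (a : H) (n : ℕ) : gr K (a ^ n) = gr K a ^ n := map_pow _ _ _

theorem mulmonoleft {A : Type*} [Semiring A] [Algebra K A] {M N P : Submodule K A} (h : M ≤ N) :
    M * P ≤ N * P := mul_le_mul' h le_rfl

/-- a filtration adapted to the subgroup `Q` -/
structure Filt (p : ℕ) (L : ℕ → Subgroup H) (Q : Subgroup H) (B : ℕ)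
    (S : ℕ → Submodule K (MonoidAlgebra K H)) : Prop where
  anti : ∀ k, S (k + 1) ≤ S k
  one : (1 : MonoidAlgebra K H) ∈ S 0
  mul : ∀ k l, S k * S l ≤ S (k + l)
  conj : ∀ a, ∀ m ∈ L a, ∀ k, ∀ s ∈ S k, gr K m * s * gr K m⁻¹ - s ∈ S (k + p ^ a)
  mem : ∀ a, ∀ g ∈ Q, g ∈ L a → gr K g - 1 ∈ S (p ^ a)
  zero : ∀ k, B < k → S k = ⊥

theorem Filt.antitone {p : ℕ} {L : ℕ → Subgroup H} {Q : Subgroup H} {B : ℕ}
    {S : ℕ → Submodule K (MonoidAlgebra K H)} (h : Filt p L Q B S) : Antitone S :=
  antitone_nat_of_succ_le h.anti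

/-- the new filtration -/
noncomputable def newS (S : ℕ → Submodule K (MonoidAlgebra K H)) (u : MonoidAlgebra K H) (w : ℕ)
    (k : ℕ) : Submodule K (MonoidAlgebra K H) :=
  ⨆ a : ℕ, (Submodule.span K {u}) ^ a * S (k - a * w)

theorem newS_step {p : ℕ} [Fact p.Prime] [CharP K p] [Finite H] {M : Subgroup H}
    {L : ℕ → Subgroup H} (hLM : ∀ i, L i ≤ M) (hL : ∀ i, L (i + 1) ≤ L i)
    (hLc : ∀ i, ⁅L i, M⁆ ≤ L (i + 1)) (hLp : ∀ i, ∀ x ∈ L i, x ^ p ∈ L (i + 1))
    {i : ℕ} {Q : Subgroup H} (hQ1 : L (i + 1) ≤ Q) (hQ2 : Q ≤ L i) {B : ℕ}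
    {S : ℕ → Submodule K (MonoidAlgebra K H)} (h : Filt p L Q B S) {y : H} (hy : y ∈ L i)
    (hyQ : ∀ q ∈ Q, y⁻¹ * q * y ∈ Q) :
    Filt p L (ext Q y hyQ) (B + (p - 1) * p ^ i) (newS S (gr K y - 1) (p ^ i)) := by
  have hp : p.Prime := Fact.out
  have hanti := h.antitone
  have hLanti : Antitone L := antitone_nat_of_succ_le hL
  set u : MonoidAlgebra K H := gr K y - 1 with hu
  set w : ℕ := p ^ i with hw
  set S' := newS S u w with hS'
  have hS'k : ∀ k, S' k = ⨆ a : ℕ, (Submodule.span K {u}) ^ a * S (k - a * w) := fun k => rfl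
  -- basic facts
  have hS'anti : Antitone S' := by
    intro k l hkl
    rw [hS'k, hS'k]
    exact iSup_mono fun a => mul_le_mul' le_rfl (hanti (by omega))
  have hterm : ∀ a k, (Submodule.span K {u}) ^ a * S (k - a * w) ≤ S' k := by
    intro a k
    rw [hS'k]
    exact le_iSup (fun a : ℕ => (Submodule.span K {u}) ^ a * S (k - a * w)) a
  have hSS' : ∀ k, S k ≤ S' k := by
    intro k
    have := hterm 0 k
    simpa using this
  have hone : (1 : MonoidAlgebra K H) ∈ S' 0 := hSS' 0 h.one
  have hc : ∀ k l, S' k * S l ≤ S' (k + l) := by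
    intro k l
    rw [hS'k k, Submodule.iSup_mul]
    refine iSup_le fun a => ?_
    rw [mul_assoc]
    refine le_trans (mul_le_mul' le_rfl (h.mul _ _)) ?_
    exact le_trans (mul_le_mul' le_rfl (hanti (by omega))) (hterm a (k + l))
  have hmove : ∀ j, S j * Submodule.span K {u} ≤ Submodule.span K {u} * S j ⊔ S (j + w) := by
    intro j
    rw [Submodule.mul_le]
    intro s hs v hv
    obtain ⟨c, rfl⟩ := Submodule.mem_span_singleton.1 hv
    have h1 := h.conj i y⁻¹ (inv_mem hy) j s hs
    rw [inv_inv] at h1
    set s' := gr K y⁻¹ * s * gr K y with hs'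
    have h2 : s' ∈ S j := by
      have := add_mem (hanti (Nat.le_add_right j (p ^ i)) h1) hs
      simpa using this
    have h3 : s * u = u * s' + (s' - s) := by
      rw [hs', hu]
      have : gr K y * (gr K y⁻¹ * s * gr K y) = s * gr K y := by
        rw [← mul_assoc, ← mul_assoc, gr_mul_inv, one_mul]
      rw [sub_mul, this, mul_sub]
      simp
    rw [mul_smul_comm, h3]
    refine Submodule.smul_mem _ _ (Submodule.add_mem_sup ?_ h1)
    exact Submodule.mul_mem_mul (Submodule.mem_span_singleton_self u) h2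
  have hd : ∀ k, S' k * Submodule.span K {u} ≤ S' (k + w) := by
    intro k
    rw [hS'k k, Submodule.iSup_mul]
    refine iSup_le fun a => ?_
    rw [mul_assoc]
    refine le_trans (mul_le_mul' le_rfl (hmove _)) ?_
    rw [Submodule.mul_sup]
    refine sup_le ?_ ?_
    · rw [← mul_assoc, ← pow_succ]
      have e : k - a * w = (k + w) - (a + 1) * w := by
        rw [add_mul, one_mul, Nat.add_sub_add_right]
      rw [e]
      exact hterm (a + 1) (k + w)
    · exact le_trans (mul_le_mul' le_rfl (hanti (by omega))) (hterm a (k + w))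
  have he : ∀ b k, S' k * (Submodule.span K {u}) ^ b ≤ S' (k + b * w) := by
    intro b
    induction b with
    | zero => intro k; simp
    | succ b ih =>
      intro k
      rw [pow_succ, ← mul_assoc]
      refine le_trans (mulmonoleft (ih k)) (le_trans (hd _) ?_)
      exact hS'anti (by rw [add_mul, one_mul]; omega)
  have hmul : ∀ k l, S' k * S' l ≤ S' (k + l) := by
    intro k l
    rw [hS'k l, Submodule.mul_iSup]
    refine iSup_le fun b => ?_
    rw [← mul_assoc]
    refine le_trans (mulmonoleft (he b k)) (le_trans (hc _ _) (hS'anti (by omega)))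
  have hmul' : ∀ {k l : ℕ} {x z : MonoidAlgebra K H}, x ∈ S' k → z ∈ S' l → x * z ∈ S' (k + l) :=
    fun hx hz => hmul _ _ (Submodule.mul_mem_mul hx hz)
  have huS' : u ∈ S' w := by
    have := hterm 1 w
    rw [pow_one, one_mul, Nat.sub_self] at this
    have h2 := this (Submodule.mul_mem_mul (Submodule.mem_span_singleton_self u) h.one)
    simpa using h2
  -- conjugation
  have hconj : ∀ a, ∀ m ∈ L a, ∀ k, ∀ s ∈ S' k, gr K m * s * gr K m⁻¹ - s ∈ S' (k + p ^ a) := by
    intro a m hm
    set α := p ^ a with hα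
    -- products
    have hprod : ∀ {k l : ℕ} {x z : MonoidAlgebra K H}, x ∈ S' k →
        gr K m * x * gr K m⁻¹ - x ∈ S' (k + α) → z ∈ S' l →
        gr K m * z * gr K m⁻¹ - z ∈ S' (l + α) →
        gr K m * (x * z) * gr K m⁻¹ - x * z ∈ S' (k + l + α) := by
      intro k l x z hx hx' hz hz'
      have hz2 : gr K m * z * gr K m⁻¹ ∈ S' l := by
        have := add_mem (hS'anti (Nat.le_add_right l α) hz') hz
        simpa using this
      have e : gr K m * (x * z) * gr K m⁻¹ - x * z =
          (gr K m * x * gr K m⁻¹ - x) * (gr K m * z * gr K m⁻¹) +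
            x * (gr K m * z * gr K m⁻¹ - z) := by
        have : gr K m * x * gr K m⁻¹ * (gr K m * z * gr K m⁻¹) =
            gr K m * (x * z) * gr K m⁻¹ := by
          calc gr K m * x * gr K m⁻¹ * (gr K m * z * gr K m⁻¹)
              = gr K m * x * (gr K m⁻¹ * gr K m) * z * gr K m⁻¹ := by
                simp only [mul_assoc]
            _ = _ := by rw [gr_inv_mul]; simp only [mul_assoc, mul_one]
        rw [sub_mul, this, mul_sub]
        abel
      rw [e]
      refine add_mem ?_ ?_
      · have := hmul' hx' hz2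
        have e2 : k + α + l = k + l + α := by ring
        rwa [e2] at this
      · have := hmul' hx hz'
        have e2 : k + (l + α) = k + l + α := by ring
        rwa [e2] at this
    -- the element u
    have hu' : gr K m * u * gr K m⁻¹ - u ∈ S' (w + α) := by
      set c := ⁅y⁻¹, m⁆ with hcdef
      have e1 : m * y * m⁻¹ = y * c := by
        rw [hcdef, commutatorElement_def]; group
      have e2 : gr K m * u * gr K m⁻¹ - u = (u + 1) * (gr K c - 1) := by
        have h1 : gr K m * u * gr K m⁻¹ = gr K (m * y * m⁻¹) - 1 := by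
          rw [hu, mul_sub, sub_mul, mul_one, gr_mul_inv, gr_mul, gr_mul]
        rw [h1, e1, gr_mul, hu]
        simp only [sub_add_cancel]
        rw [mul_sub, mul_one]
        abel
      rw [e2]
      have hmM : m ∈ M := hLM a hm
      have hyM : y ∈ M := hLM i hy
      have hcS : gr K c - 1 ∈ S (w + α) := by
        rcases le_or_gt a i with hai | hia
        · have hc1 : c ∈ L (i + 1) :=
            hLc i (Subgroup.commutator_mem_commutator (inv_mem hy) hmM)
          have h1 := h.mem (i + 1) c (hQ1 hc1) hc1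
          refine hanti ?_ h1
          rw [hw, hα, pow_succ]
          have h2 : p ^ a ≤ p ^ i := Nat.pow_le_pow_right hp.pos hai
          have h3 : p ^ i * 2 ≤ p ^ i * p := Nat.mul_le_mul_left _ hp.two_le
          omega
        · have hc1 : c ∈ L (a + 1) := by
            apply hLc a
            rw [Subgroup.commutator_comm]
            exact Subgroup.commutator_mem_commutator (inv_mem hyM) hm
          have hc2 : c ∈ L (i + 1) := hLanti (by omega) hc1
          have h1 := h.mem (a + 1) c (hQ1 hc2) hc1
          refine hanti ?_ h1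
          rw [hw, hα, pow_succ]
          have h2 : p ^ i ≤ p ^ a := Nat.pow_le_pow_right hp.pos hia.le
          have h3 : p ^ a * 2 ≤ p ^ a * p := Nat.mul_le_mul_left _ hp.two_le
          omega
      have h1 : u + 1 ∈ S' 0 := add_mem (hS'anti (Nat.zero_le _) huS') hone
      have := hmul' h1 (hSS' _ hcS)
      rwa [zero_add] at this
    have hupow : ∀ b : ℕ, u ^ b ∈ S' (b * w) ∧
        gr K m * u ^ b * gr K m⁻¹ - u ^ b ∈ S' (b * w + α) := by
      intro b
      induction b with
      | zero =>
        refine ⟨by simpa using hone, ?_⟩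
        rw [pow_zero, mul_one, gr_mul_inv, sub_self]
        exact zero_mem _
      | succ b ih =>
        have e : (b + 1) * w = b * w + w := by ring
        rw [pow_succ, e]
        exact ⟨hmul' ih.1 huS', hprod ih.1 ih.2 huS' hu'⟩
    intro k
    -- the set of good elements
    let T : Submodule K (MonoidAlgebra K H) :=
      { carrier := {s | gr K m * s * gr K m⁻¹ - s ∈ S' (k + α)}
        add_mem' := by
          intro x z hx hz
          have : gr K m * (x + z) * gr K m⁻¹ - (x + z) =
              (gr K m * x * gr K m⁻¹ - x) + (gr K m * z * gr K m⁻¹ - z) := by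
            rw [mul_add, add_mul]; abel
          simp only [Set.mem_ofPred_eq] at hx hz ⊢
          rw [this]
          exact add_mem hx hz
        zero_mem' := by simp
        smul_mem' := by
          intro c x hx
          have : gr K m * (c • x) * gr K m⁻¹ - c • x = c • (gr K m * x * gr K m⁻¹ - x) := by
            rw [smul_sub, mul_smul_comm, smul_mul_assoc]
          simp only [Set.mem_ofPred_eq] at hx ⊢
          rw [this]
          exact Submodule.smul_mem _ _ hx }
    have hT : S' k ≤ T := by
      rw [hS'k]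
      refine iSup_le fun b => ?_
      rw [Submodule.span_pow, Set.singleton_pow, Submodule.mul_le]
      intro x hx s hs
      obtain ⟨c, rfl⟩ := Submodule.mem_span_singleton.1 hx
      rw [smul_mul_assoc]
      refine Submodule.smul_mem _ _ ?_
      change gr K m * (u ^ b * s) * gr K m⁻¹ - u ^ b * s ∈ S' (k + α)
      have h1 := hprod (hupow b).1 (hupow b).2 (hSS' _ hs) (hSS' _ (h.conj a m hm _ s hs))
      exact hS'anti (by omega) h1
    exact fun s hs => hT hs
  refine ⟨fun k => hS'anti (Nat.le_succ k), hone, hmul, hconj, ?_, ?_⟩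
  · -- membership
    intro a g hg hga
    rcases le_or_gt a i with hai | hia
    · obtain ⟨b, q, hq, rfl⟩ := hg
      have hq1 : gr K q - 1 ∈ S' (p ^ a) := by
        refine hS'anti ?_ (hSS' _ (h.mem i q hq (hQ2 hq)))
        exact Nat.pow_le_pow_right hp.pos hai
      have hb : ∀ b : ℕ, gr K (y ^ b) - 1 ∈ S' w := by
        intro b
        induction b with
        | zero => rw [pow_zero, gr_one, sub_self]; exact zero_mem _
        | succ b ih =>
          have e : gr K (y ^ (b + 1)) - 1 = gr K (y ^ b) * u + (gr K (y ^ b) - 1) := by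
            rw [pow_succ, gr_mul, hu, mul_sub, mul_one]; abel
          rw [e]
          have h1 : gr K (y ^ b) ∈ S' 0 := by
            have := add_mem (hS'anti (Nat.zero_le w) ih) hone
            simpa using this
          have h2 := hmul' h1 huS'
          rw [zero_add] at h2
          exact add_mem h2 ih
      have hq0 : gr K q ∈ S' 0 := by
        have := add_mem (hS'anti (Nat.zero_le _) hq1) hone
        simpa using this
      have e : gr K (y ^ b * q) - 1 = (gr K (y ^ b) - 1) * gr K q + (gr K q - 1) := by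
        rw [gr_mul, sub_mul, one_mul]; abel
      rw [e]
      refine add_mem ?_ hq1
      have h2 := hmul' (hb b) hq0
      rw [add_zero] at h2
      refine hS'anti ?_ h2
      rw [hw]
      exact Nat.pow_le_pow_right hp.pos hai
    · have hgQ : g ∈ Q := hQ1 (hLanti (by omega : i + 1 ≤ a) hga)
      exact hSS' _ (h.mem a g hgQ hga)
  · -- vanishing
    have hchar : CharP (MonoidAlgebra K H) p :=
      charP_of_injective_algebraMap (R := K) (FaithfulSMul.algebraMap_injective K _) p
    have hup : u ^ p ∈ S (p * w) := by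
      have h1 : u ^ p = gr K (y ^ p) - 1 := by
        rw [hu, sub_pow_char_of_commute _ (Commute.one_right _), one_pow, gr_pow]
      rw [h1]
      have h2 := h.mem (i + 1) (y ^ p) (hQ1 (hLp i y hy)) (hLp i y hy)
      rwa [pow_succ, mul_comm] at h2
    have hup' : Submodule.span K {u} ^ p ≤ S (p * w) := by
      rw [Submodule.span_pow, Set.singleton_pow, Submodule.span_singleton_le_iff_mem]
      exact hup
    intro k hk
    have hall : ∀ a, (Submodule.span K {u}) ^ a * S (k - a * w) = ⊥ := by
      intro a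
      induction a using Nat.strong_induction_on with
      | _ a ih =>
        rcases lt_or_ge a p with hap | hap
        · have h1 : a * w ≤ (p - 1) * w := Nat.mul_le_mul_right _ (by omega)
          rw [h.zero (k - a * w) (by omega), Submodule.mul_bot]
        · have h1 := ih (a - p) (by have := hp.pos; omega)
          rw [eq_bot_iff, ← h1]
          have e : a = (a - p) + p := by omega
          have e2 : (Submodule.span K {u}) ^ a =
              (Submodule.span K {u}) ^ (a - p) * (Submodule.span K {u}) ^ p := by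
            rw [← pow_add, ← e]
          rw [e2, mul_assoc]
          refine mul_le_mul' le_rfl ?_
          refine le_trans (mulmonoleft hup') (le_trans (h.mul _ _) (hanti ?_))
          have e3 : a * w = (a - p) * w + p * w := by
            rw [← add_mul, ← e]
          omega
    rw [hS'k]
    simp [hall]

theorem Filt.mono {p : ℕ} {L : ℕ → Subgroup H} {Q : Subgroup H} {B B' : ℕ}
    {S : ℕ → Submodule K (MonoidAlgebra K H)} (h : Filt p L Q B S) (hB : B ≤ B') :
    Filt p L Q B' S :=
  ⟨h.anti, h.one, h.mul, h.conj, h.mem, fun k hk => h.zero k (by omega)⟩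

theorem fill {p : ℕ} [Fact p.Prime] [CharP K p] [Finite H] {M : Subgroup H}
    {L : ℕ → Subgroup H} (hLM : ∀ i, L i ≤ M) (hL : ∀ i, L (i + 1) ≤ L i)
    (hLc : ∀ i, ⁅L i, M⁆ ≤ L (i + 1)) (hLp : ∀ i, ∀ x ∈ L i, x ^ p ∈ L (i + 1)) (i : ℕ) (t : ℕ) :
    ∀ (Q : Subgroup H) (B : ℕ) (S : ℕ → Submodule K (MonoidAlgebra K H)), L (i + 1) ≤ Q →
      Q ≤ L i → Nat.card (L i) ≤ p ^ t * Nat.card Q → Filt p L Q B S →
      ∃ S' : ℕ → Submodule K (MonoidAlgebra K H), Filt p L (L i) (B + (p - 1) * p ^ i * t) S' := by
  have hp : p.Prime := Fact.out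
  induction t with
  | zero =>
    intro Q B S h1 h2 h3 h4
    have : Q = L i := Subgroup.eq_of_le_of_card_ge h2 (by simpa using h3)
    subst this
    exact ⟨S, by simpa using h4⟩
  | succ t ih =>
    intro Q B S h1 h2 h3 h4
    by_cases hQ : L i ≤ Q
    · have : Q = L i := le_antisymm h2 hQ
      subst this
      exact ⟨S, h4.mono (Nat.le_add_right _ _)⟩
    · obtain ⟨y, hy, hyQ⟩ := SetLike.not_le_iff_exists.1 hQ
      have hconj : ∀ q ∈ Q, y⁻¹ * q * y ∈ Q := by
        intro q hq
        have h5 : y⁻¹ * q * y = q * ⁅q⁻¹, y⁻¹⁆ := by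
          rw [commutatorElement_def]; group
        rw [h5]
        refine mul_mem hq (h1 (hLc i ?_))
        exact Subgroup.commutator_mem_commutator (inv_mem (h2 hq)) (inv_mem (hLM i hy))
      have h5 := newS_step (K := K) hLM hL hLc hLp h1 h2 h4 hy hconj
      have h6 := card_ext hconj hp (h1 (hLp i y hy)) hyQ
      obtain ⟨S', hS'⟩ := ih (ext Q y hconj) _ _ (h1.trans (le_ext _ _ _)) (ext_le hconj h2 hy)
        (by
          calc Nat.card (L i) ≤ p ^ (t + 1) * Nat.card Q := h3
            _ = p ^ t * (p * Nat.card Q) := by ring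
            _ ≤ _ := Nat.mul_le_mul_left _ h6) h5
      refine ⟨S', ?_⟩
      have e : B + (p - 1) * p ^ i + (p - 1) * p ^ i * t = B + (p - 1) * p ^ i * (t + 1) := by ring
      rwa [e] at hS'

/-- the trivial filtration -/
theorem filt_bot (p : ℕ) (L : ℕ → Subgroup H) :
    Filt p L ⊥ 0 (fun k => if k = 0 then (1 : Submodule K (MonoidAlgebra K H)) else ⊥) where
  anti := fun k => by simp
  one := by
    simp only [if_true]
    exact Submodule.mem_one.2 ⟨1, map_one _⟩
  mul := by
    intro k l
    by_cases hk : k = 0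
    · by_cases hl : l = 0
      · simp [hk, hl]
      · simp [hl]
    · simp [hk]
  conj := by
    intro a m _ k s hs
    by_cases hk : k = 0
    · subst hk
      simp only [if_true, Submodule.mem_one] at hs
      obtain ⟨c, rfl⟩ := hs
      have : gr K m * algebraMap K (MonoidAlgebra K H) c * gr K m⁻¹ -
          algebraMap K (MonoidAlgebra K H) c = 0 := by
        rw [← Algebra.commutes, mul_assoc, gr_mul_inv, mul_one, sub_self]
      rw [this]
      exact zero_mem _
    · simp only [hk, if_false, Submodule.mem_bot] at hs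
      subst hs
      simp
  mem := by
    intro a g hg _
    rw [Subgroup.mem_bot] at hg
    subst hg
    rw [gr_one, sub_self]
    exact zero_mem _
  zero := by
    intro k hk
    simp [Nat.pos_iff_ne_zero.1 hk]

/-- the augmentation ideal, as a space -/
noncomputable def aug (K : Type*) [Field K] {H : Type*} [Group H] (M : Subgroup H) :
    Submodule K (MonoidAlgebra K H) :=
  Submodule.span K {x | ∃ g ∈ M, x = gr K g - 1}

theorem Filt.aug_pow_le {p : ℕ} {L : ℕ → Subgroup H} {M : Subgroup H} {B : ℕ}
    {S : ℕ → Submodule K (MonoidAlgebra K H)} (h : Filt p L M B S) (hM : M ≤ L 0) (k : ℕ) :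
    aug K M ^ k ≤ S k := by
  have h1 : aug K M ≤ S 1 := by
    rw [aug, Submodule.span_le]
    rintro _ ⟨g, hg, rfl⟩
    simpa using h.mem 0 g hg (hM hg)
  induction k with
  | zero =>
    rw [pow_zero, Submodule.one_le]
    exact h.one
  | succ k ih =>
    rw [pow_succ]
    exact (mul_le_mul' ih h1).trans (h.mul k 1)

theorem aug_pow_eq_bot {p : ℕ} [Fact p.Prime] [CharP K p] [Finite H] {M Z : Subgroup H} {c : ℕ}
    (hc : 1 ≤ c) (hdat : Dat p M Z c) {d t : ℕ} (hd : Nat.card M = p ^ d * Nat.card Z)
    (ht : Nat.card Z = p ^ t) (k : ℕ) (hk : (p - 1) * (d + p ^ c * t) < k) :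
    aug K M ^ k = ⊥ := by
  have hp : p.Prime := Fact.out
  obtain ⟨L₀, hL0, hL1, hLc', -, hLL⟩ := hdat
  -- normalize the chain
  let L : ℕ → Subgroup H := fun i => if i < c then L₀ i else ⊥
  have hLle : ∀ i, i ≤ c → L i = L₀ i := by
    intro i hi
    rcases lt_or_eq_of_le hi with h | h
    · simp [L, h]
    · subst h
      simp [L, hLc']
  have hLbot : ∀ i, c ≤ i → L i = ⊥ := by
    intro i hi
    simp [L, not_lt.2 hi]
  have hL : ∀ i, L (i + 1) ≤ L i := by
    intro i
    rcases lt_or_ge i c with h | h
    · rw [hLle i h.le, hLle (i + 1) (by omega)]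
      exact (hLL i h).1
    · rw [hLbot (i + 1) (by omega)]
      exact bot_le
  have hLM : ∀ i, L i ≤ M := by
    intro i
    induction i with
    | zero => rw [hLle 0 (by omega), hL0]
    | succ i ih => exact (hL i).trans ih
  have hLcomm : ∀ i, ⁅L i, M⁆ ≤ L (i + 1) := by
    intro i
    rcases lt_or_ge i c with h | h
    · rw [hLle i h.le, hLle (i + 1) (by omega)]
      exact (hLL i h).2.1
    · rw [hLbot i h, Subgroup.commutator_bot_left]
      exact bot_le
  have hLp : ∀ i, ∀ x ∈ L i, x ^ p ∈ L (i + 1) := by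
    intro i x hx
    rcases lt_or_ge i c with h | h
    · rw [hLle i h.le] at hx
      rw [hLle (i + 1) (by omega)]
      exact (hLL i h).2.2 x hx
    · rw [hLbot i h, Subgroup.mem_bot] at hx
      rw [hx, one_pow]
      exact one_mem _
  -- all terms are `p`-groups
  have hpow : ∀ j i, i + j = c → ∀ x ∈ L i, x ^ p ^ j = 1 := by
    intro j
    induction j with
    | zero =>
      intro i hi x hx
      rw [hLbot i (by omega), Subgroup.mem_bot] at hx
      rw [hx, one_pow]
    | succ j ih =>
      intro i hi x hx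
      rw [pow_succ', pow_mul]
      exact ih (i + 1) (by omega) _ (hLp i x hx)
  have hcard : ∀ i, ∃ n, Nat.card (L i) = p ^ n := by
    intro i
    rw [← IsPGroup.iff_card]
    intro x
    rcases lt_or_ge i c with h | h
    · refine ⟨c - i, ?_⟩
      ext
      simpa using hpow (c - i) i (by omega) x x.2
    · refine ⟨0, ?_⟩
      ext
      have h3 : (x : H) ∈ (⊥ : Subgroup H) := (hLbot i h) ▸ x.2
      rw [Subgroup.mem_bot] at h3
      simp [h3]
  choose n hn using hcard
  have hncard : ∀ i, Nat.card (L i) = p ^ (n i - n (i + 1)) * Nat.card (L (i + 1)) ∧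
      n (i + 1) ≤ n i := by
    intro i
    have h1 : n (i + 1) ≤ n i := by
      have := Subgroup.card_le_of_le (hL i)
      rw [hn, hn] at this
      exact (Nat.pow_le_pow_iff_right hp.one_lt).1 this
    refine ⟨?_, h1⟩
    rw [hn, hn, ← pow_add, Nat.sub_add_cancel h1]
  have hnc : n c = 0 := by
    have := hn c
    rw [hLbot c le_rfl, Subgroup.card_bot] at this
    by_contra hne
    have h2 := Nat.one_lt_pow hne hp.one_lt
    omega
  have main : ∀ j i, i + j = c → ∃ S : ℕ → Submodule K (MonoidAlgebra K H),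
      Filt p L (L i) ((p - 1) * p ^ c * n i) S := by
    intro j
    induction j with
    | zero =>
      intro i hi
      have : i = c := by omega
      subst this
      rw [hnc, hLbot i le_rfl, mul_zero]
      exact ⟨_, filt_bot p L⟩
    | succ j ih =>
      intro i hi
      obtain ⟨S, hS⟩ := ih (i + 1) (by omega)
      obtain ⟨S', hS'⟩ := fill (K := K) hLM hL hLcomm hLp i (n i - n (i + 1)) (L (i + 1)) _ S
        le_rfl (hL i) (hncard i).1.le hS
      refine ⟨S', hS'.mono ?_⟩
      have h1 : p ^ i ≤ p ^ c := Nat.pow_le_pow_right hp.pos (by omega)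
      have h2 := (hncard i).2
      calc (p - 1) * p ^ c * n (i + 1) + (p - 1) * p ^ i * (n i - n (i + 1))
          ≤ (p - 1) * p ^ c * n (i + 1) + (p - 1) * p ^ c * (n i - n (i + 1)) := by gcongr
        _ = (p - 1) * p ^ c * (n (i + 1) + (n i - n (i + 1))) := by ring
        _ = _ := by rw [Nat.add_sub_cancel' h2]
  obtain ⟨S, hS⟩ := main (c - 1) 1 (by omega)
  obtain ⟨S', hS'⟩ := fill (K := K) hLM hL hLcomm hLp 0 d (L 1) _ S le_rfl (hL 0) (by
    rw [hLle 0 (by omega), hL0, hLle 1 hc, hL1, hd]) hS
  have hM : L 0 = M := by rw [hLle 0 (by omega), hL0]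
  rw [hM] at hS'
  have hn1 : n 1 = t := by
    have := hn 1
    rw [hLle 1 hc, hL1, ht] at this
    exact (Nat.pow_right_injective hp.two_le this).symm
  have h1 := hS'.aug_pow_le (by rw [hM]) k
  rw [hS'.zero k ?_] at h1
  · exact eq_bot_iff.2 h1
  · rw [hn1]
    calc (p - 1) * p ^ c * t + (p - 1) * p ^ 0 * d = (p - 1) * (d + p ^ c * t) := by ring
      _ < k := hk

end Au

end Pool.Agent.N580
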