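import Mathlib
import Pool.Agent.N580.Aug

/-!
# The codimension of powers of the ideal generated by the augmentation ideal of a normal subgroup
-/

namespace Pool.Agent.N580

open Subgroup Module
open scoped commutatorElement

section Cd

variable {K : Type*} [Field K] {H : Type*} [Group H]

/-- the powers of the ideal generated by the elements `g - 1`, `g ∈ M` -/
noncomputable def JJ (K : Type*) [Field K] {H : Type*} [Group H] (M : Subgroup H) (k : ℕ) :
    Submodule K (MonoidAlgebra K H) := ⊤ * aug K M ^ k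

theorem top_mul_top' : (⊤ : Submodule K (MonoidAlgebra K H)) * ⊤ = ⊤ := by
  refine le_antisymm le_top ?_
  intro x _
  have := Submodule.mul_mem_mul (Submodule.mem_top (x := x) (R := K))
    (Submodule.mem_top (x := (1 : MonoidAlgebra K H)) (R := K))
  simpa using this

theorem span_gr : (⊤ : Submodule K (MonoidAlgebra K H)) = Submodule.span K {x | ∃ g : H, x = gr K g} := by
  symm
  rw [eq_top_iff]
  intro x _
  induction x using MonoidAlgebra.induction_on with
  | of g => exact Submodule.subset_span ⟨g, rfl⟩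
  | add f g hf hg => exact add_mem (hf trivial) (hg trivial)
  | smul r f hf => exact Submodule.smul_mem _ _ (hf trivial)

theorem aug_mul_top {M : Subgroup H} (hM : M.Normal) :
    aug K M * (⊤ : Submodule K (MonoidAlgebra K H)) ≤ ⊤ * aug K M := by
  rw [span_gr, aug, Submodule.span_mul_span, Submodule.span_mul_span, Submodule.span_le]
  rintro _ ⟨_, ⟨m, hm, rfl⟩, _, ⟨h, rfl⟩, rfl⟩
  refine Submodule.subset_span ⟨gr K h, ⟨h, rfl⟩, gr K (h⁻¹ * m * h) - 1,
    ⟨h⁻¹ * m * h, by simpa using hM.conj_mem m hm h⁻¹, rfl⟩, ?_⟩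
  simp only [mul_sub, sub_mul, mul_one, one_mul, ← gr_mul]
  congr 2
  group

theorem aug_pow_mul_top {M : Subgroup H} (hM : M.Normal) (k : ℕ) :
    aug K M ^ k * (⊤ : Submodule K (MonoidAlgebra K H)) ≤ ⊤ * aug K M ^ k := by
  induction k with
  | zero => simp
  | succ k ih =>
    calc aug K M ^ (k + 1) * ⊤ = aug K M ^ k * (aug K M * ⊤) := by rw [pow_succ, mul_assoc]
      _ ≤ aug K M ^ k * (⊤ * aug K M) := mul_le_mul' le_rfl (aug_mul_top hM)
      _ = (aug K M ^ k * ⊤) * aug K M := by rw [mul_assoc]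
      _ ≤ (⊤ * aug K M ^ k) * aug K M := mul_le_mul' ih le_rfl
      _ = ⊤ * aug K M ^ (k + 1) := by rw [pow_succ, mul_assoc]

theorem JJ_mul {M : Subgroup H} (hM : M.Normal) (k l : ℕ) :
    JJ K M k * JJ K M l ≤ JJ K M (k + l) := by
  calc JJ K M k * JJ K M l = ⊤ * (aug K M ^ k * ⊤) * aug K M ^ l := by
        rw [JJ, JJ]; simp only [mul_assoc]
    _ ≤ ⊤ * (⊤ * aug K M ^ k) * aug K M ^ l :=
        mul_le_mul' (mul_le_mul' le_rfl (aug_pow_mul_top hM k)) le_rfl
    _ = (⊤ * ⊤) * (aug K M ^ k * aug K M ^ l) := by simp only [mul_assoc]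
    _ = JJ K M (k + l) := by rw [top_mul_top', ← pow_add, JJ]

theorem JJ_zero (M : Subgroup H) : JJ K M 0 = ⊤ := by
  rw [JJ, pow_zero, mul_one]

theorem JJ_succ_le (M : Subgroup H) (k : ℕ) : JJ K M (k + 1) ≤ JJ K M k := by
  calc JJ K M (k + 1) = (⊤ * aug K M) * aug K M ^ k := by rw [JJ, pow_succ', mul_assoc]
    _ ≤ ⊤ * aug K M ^ k := mul_le_mul' le_top le_rfl

theorem JJ_anti (M : Subgroup H) : Antitone (JJ K M) := antitone_nat_of_succ_le (JJ_succ_le M)

theorem aug_pow_le_JJ (M : Subgroup H) (k : ℕ) : aug K M ^ k ≤ JJ K M k := by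
  intro x hx
  have := Submodule.mul_mem_mul (Submodule.mem_top (x := (1 : MonoidAlgebra K H)) (R := K)) hx
  simpa [JJ] using this

theorem top_mul_JJ (M : Subgroup H) (k : ℕ) : ⊤ * JJ K M k = JJ K M k := by
  rw [JJ, ← mul_assoc, top_mul_top']

/-- the span of the elements of a subgroup -/
noncomputable def gs (K : Type*) [Field K] {H : Type*} [Group H] (Q : Subgroup H) :
    Submodule K (MonoidAlgebra K H) :=
  Submodule.span K {x | ∃ g ∈ Q, x = gr K g}

/-- the dimension of the image of `K[Q]` modulo the `k`-th power of the ideal -/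
noncomputable def gd (K : Type*) [Field K] {H : Type*} [Group H] (M Q : Subgroup H) (k : ℕ) : ℕ :=
  finrank K ((gs K Q).map (JJ K M k).mkQ)

variable [Finite H]

omit [Group H] in
theorem fd : FiniteDimensional K (MonoidAlgebra K H) :=
  Module.Finite.equiv (MonoidAlgebra.coeffLinearEquiv K (S := K) (M := H)).symm

omit [Finite H] in
theorem finrank_biSup_le {V : Type*} [AddCommGroup V] [Module K V] [FiniteDimensional K V]
    {ι : Type*} (s : Finset ι) (W : ι → Submodule K V) :
    finrank K (⨆ i ∈ s, W i : Submodule K V) ≤ ∑ i ∈ s, finrank K (W i) := by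
  classical
  induction s using Finset.induction_on with
  | empty => simp
  | insert a s ha ih =>
    rw [Finset.iSup_insert, Finset.sum_insert ha]
    exact (Submodule.finrank_add_le_finrank_add_finrank _ _).trans (by omega)

omit [Finite H] in
theorem map_biSup {V W : Type*} [AddCommGroup V] [Module K V] [AddCommGroup W] [Module K W]
    {ι : Type*} (s : Finset ι) (F : ι → Submodule K V) (f : V →ₗ[K] W) :
    (⨆ i ∈ s, F i).map f = ⨆ i ∈ s, (F i).map f := by
  rw [Submodule.map_iSup]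
  congr 1
  ext1 i
  rw [Submodule.map_iSup]

theorem gs_ext_le {p : ℕ} (hp : p.Prime) {Q : Subgroup H} {y : H}
    (hy : ∀ q ∈ Q, y⁻¹ * q * y ∈ Q) (hyp : y ^ p ∈ Q) :
    gs K (ext Q y hy) ≤ ⨆ b ∈ Finset.range p,
      (gs K Q).map (LinearMap.mulLeft K ((gr K y - 1) ^ b)) := by
  rw [gs, Submodule.span_le]
  rintro _ ⟨g, ⟨n, q, hq, rfl⟩, rfl⟩
  -- reduce the exponent
  have h1 : y ^ n * q = y ^ (n % p) * ((y ^ p) ^ (n / p) * q) := by
    rw [← mul_assoc, ← pow_mul, ← pow_add, Nat.mod_add_div]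
  have h2 : (y ^ p) ^ (n / p) * q ∈ Q := mul_mem (pow_mem hyp _) hq
  rw [h1]
  generalize (y ^ p) ^ (n / p) * q = q' at h2
  have hr : n % p < p := Nat.mod_lt _ hp.pos
  generalize n % p = r at hr
  have h3 : gr K (y ^ r * q') = ∑ b ∈ Finset.range (r + 1),
      (r.choose b : K) • ((gr K y - 1) ^ b * gr K q') := by
    have h4 : gr K (y ^ r) = ((gr K y - 1) + 1) ^ r := by
      rw [sub_add_cancel, gr_pow]
    rw [gr_mul, h4, (Commute.one_right (gr K y - 1)).add_pow, Finset.sum_mul]
    refine Finset.sum_congr rfl fun b _ => ?_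
    rw [one_pow, mul_one, ← (Nat.cast_commute (r.choose b) ((gr K y - 1) ^ b)).eq, mul_assoc,
      ← nsmul_eq_mul, Nat.cast_smul_eq_nsmul]
  rw [h3]
  refine Submodule.sum_mem _ fun b hb => Submodule.smul_mem _ _ ?_
  have hb' : b ∈ Finset.range p := by
    rw [Finset.mem_range] at hb ⊢
    omega
  refine Submodule.mem_iSup_of_mem b (Submodule.mem_iSup_of_mem hb' ?_)
  exact ⟨gr K q', Submodule.subset_span ⟨q', h2, rfl⟩, rfl⟩

theorem gd_ext_le {p : ℕ} (hp : p.Prime) {M Q : Subgroup H} (hM : M.Normal) {y : H} (hyM : y ∈ M)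
    (hy : ∀ q ∈ Q, y⁻¹ * q * y ∈ Q) (hyp : y ^ p ∈ Q) (k : ℕ) :
    gd K M (ext Q y hy) k ≤ ∑ b ∈ Finset.range p, gd K M Q (k - b) := by
  have hfd : FiniteDimensional K (MonoidAlgebra K H) := fd
  calc gd K M (ext Q y hy) k
      ≤ finrank K ((⨆ b ∈ Finset.range p,
          (gs K Q).map (LinearMap.mulLeft K ((gr K y - 1) ^ b))).map (JJ K M k).mkQ) :=
        Submodule.finrank_mono (Submodule.map_mono (gs_ext_le hp hy hyp))
    _ = finrank K (⨆ b ∈ Finset.range p,
          ((gs K Q).map (LinearMap.mulLeft K ((gr K y - 1) ^ b))).map (JJ K M k).mkQ :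
            Submodule K (MonoidAlgebra K H ⧸ JJ K M k)) := by
        rw [map_biSup]
    _ ≤ ∑ b ∈ Finset.range p, finrank K (((gs K Q).map
          (LinearMap.mulLeft K ((gr K y - 1) ^ b))).map (JJ K M k).mkQ) := finrank_biSup_le _ _
    _ ≤ _ := by
        refine Finset.sum_le_sum fun b _ => ?_
        have hle : JJ K M (k - b) ≤
            (JJ K M k).comap (LinearMap.mulLeft K ((gr K y - 1) ^ b)) := by
          intro v hv
          rw [Submodule.mem_comap, LinearMap.mulLeft_apply]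
          have h1 : (gr K y - 1) ^ b ∈ JJ K M b := by
            apply aug_pow_le_JJ
            have h0 : gr K y - 1 ∈ aug K M := Submodule.subset_span ⟨y, hyM, rfl⟩
            exact Submodule.pow_mem_pow _ h0 b
          have h2 := JJ_mul hM b (k - b) (Submodule.mul_mem_mul h1 hv)
          exact JJ_anti M (by omega) h2
        have e : ((gs K Q).map (LinearMap.mulLeft K ((gr K y - 1) ^ b))).map (JJ K M k).mkQ =
            ((gs K Q).map (JJ K M (k - b)).mkQ).map
              (Submodule.mapQ (JJ K M (k - b)) (JJ K M k) _ hle) := by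
          rw [← Submodule.map_comp, ← Submodule.map_comp]
          rfl
        rw [e]
        exact Submodule.finrank_map_le _ _

theorem finrank_quot_le {M : Subgroup H} (k : ℕ) :
    finrank K (MonoidAlgebra K H ⧸ JJ K M k) ≤ Nat.card (H ⧸ M) * gd K M M k := by
  classical
  have hfd : FiniteDimensional K (MonoidAlgebra K H) := fd
  have hfin : Fintype (H ⧸ M) := Fintype.ofFinite _
  have htop : (⊤ : Submodule K (MonoidAlgebra K H)) ≤ ⨆ c ∈ (Finset.univ : Finset (H ⧸ M)),
      (gs K M).map (LinearMap.mulLeft K (gr K c.out)) := by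
    rw [span_gr, Submodule.span_le]
    rintro _ ⟨g, rfl⟩
    refine Submodule.mem_iSup_of_mem (QuotientGroup.mk g : H ⧸ M) (Submodule.mem_iSup_of_mem
      (Finset.mem_univ _) ?_)
    have hmem : (QuotientGroup.mk g : H ⧸ M).out⁻¹ * g ∈ M := by
      rw [← QuotientGroup.eq, QuotientGroup.out_eq']
    have hmem2 : gr K ((QuotientGroup.mk g : H ⧸ M).out⁻¹ * g) ∈ gs K M :=
      Submodule.subset_span ⟨_, hmem, rfl⟩
    refine Submodule.mem_map.2 ⟨_, hmem2, ?_⟩
    rw [LinearMap.mulLeft_apply, ← gr_mul, mul_inv_cancel_left]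
  calc finrank K (MonoidAlgebra K H ⧸ JJ K M k)
      = finrank K ((⊤ : Submodule K (MonoidAlgebra K H)).map (JJ K M k).mkQ) := by
        rw [Submodule.map_top, Submodule.range_mkQ, finrank_top]
    _ ≤ finrank K ((⨆ c ∈ (Finset.univ : Finset (H ⧸ M)),
          (gs K M).map (LinearMap.mulLeft K (gr K c.out))).map (JJ K M k).mkQ) :=
        Submodule.finrank_mono (Submodule.map_mono htop)
    _ = finrank K (⨆ c ∈ (Finset.univ : Finset (H ⧸ M)),
          ((gs K M).map (LinearMap.mulLeft K (gr K c.out))).map (JJ K M k).mkQ :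
            Submodule K (MonoidAlgebra K H ⧸ JJ K M k)) := by
        rw [map_biSup]
    _ ≤ ∑ c ∈ (Finset.univ : Finset (H ⧸ M)), finrank K (((gs K M).map
          (LinearMap.mulLeft K (gr K c.out))).map (JJ K M k).mkQ) := finrank_biSup_le _ _
    _ ≤ ∑ c ∈ (Finset.univ : Finset (H ⧸ M)), gd K M M k := by
        refine Finset.sum_le_sum fun c _ => ?_
        have hle : JJ K M k ≤
            (JJ K M k).comap (LinearMap.mulLeft K (gr K c.out)) := by
          intro v hv
          rw [Submodule.mem_comap, LinearMap.mulLeft_apply, ← top_mul_JJ]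
          exact Submodule.mul_mem_mul Submodule.mem_top hv
        have e : ((gs K M).map (LinearMap.mulLeft K (gr K c.out))).map (JJ K M k).mkQ =
            ((gs K M).map (JJ K M k).mkQ).map
              (Submodule.mapQ (JJ K M k) (JJ K M k) _ hle) := by
          rw [← Submodule.map_comp, ← Submodule.map_comp]
          rfl
        rw [e]
        exact Submodule.finrank_map_le _ _
    _ = _ := by
        rw [Finset.sum_const, smul_eq_mul, Finset.card_univ, Nat.card_eq_fintype_card]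

theorem gd_zero (M Q : Subgroup H) : gd K M Q 0 = 0 := by
  have hfd : FiniteDimensional K (MonoidAlgebra K H) := fd
  rw [gd, JJ_zero]
  have h1 : (gs K Q).map (⊤ : Submodule K (MonoidAlgebra K H)).mkQ = ⊥ := by
    rw [eq_bot_iff]
    rintro _ ⟨x, _, rfl⟩
    rw [Submodule.mem_bot, Submodule.mkQ_apply, Submodule.Quotient.mk_eq_zero]
    trivial
  rw [h1, finrank_bot]

theorem gd_le_card (M Q : Subgroup H) (k : ℕ) : gd K M Q k ≤ Nat.card Q := by
  classical
  have hfd : FiniteDimensional K (MonoidAlgebra K H) := fd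
  have hfin : Fintype Q := Fintype.ofFinite _
  refine (Submodule.finrank_map_le _ _).trans ?_
  have h1 : gs K Q = Submodule.span K (((Finset.univ : Finset Q).image
      (fun q : Q => gr K (q : H)) : Finset (MonoidAlgebra K H)) : Set (MonoidAlgebra K H)) := by
    rw [gs]
    congr 1
    ext x
    simp only [Finset.coe_image, Finset.coe_univ, Set.image_univ, Set.mem_range, Subtype.exists]
    constructor
    · rintro ⟨g, hg, rfl⟩
      exact ⟨g, hg, rfl⟩
    · rintro ⟨g, hg, rfl⟩
      exact ⟨g, hg, rfl⟩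
  rw [h1]
  refine (finrank_span_finset_le_card _).trans (Finset.card_image_le.trans ?_)
  rw [Finset.card_univ, Nat.card_eq_fintype_card]

theorem gd_fill {p : ℕ} (hp : p.Prime) {M Z : Subgroup H} (hM : M.Normal)
    (hc : ⁅M, M⁆ ≤ Z) (hpow : ∀ x ∈ M, x ^ p ∈ Z) {d : ℕ}
    (hd : Nat.card M = p ^ d * Nat.card Z) {x : ℝ} (hx0 : 0 < x) (n : ℕ) :
    ∀ (Q : Subgroup H) (j : ℕ), Z ≤ Q → Q ≤ M → Nat.card M ≤ p ^ n * Nat.card Q →
      p ^ j * Nat.card Z ≤ Nat.card Q →
      (∀ k, (gd K M Q k : ℝ) * x ^ k ≤ Nat.card Z * (∑ b ∈ Finset.range p, x ^ b) ^ j) →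
      ∀ k, (gd K M M k : ℝ) * x ^ k ≤ Nat.card Z * (∑ b ∈ Finset.range p, x ^ b) ^ d := by
  have hσ : 1 ≤ ∑ b ∈ Finset.range p, x ^ b := by
    have h1 : x ^ 0 ≤ ∑ b ∈ Finset.range p, x ^ b :=
      Finset.single_le_sum (f := fun b => x ^ b) (fun b _ => (pow_pos hx0 b).le)
        (Finset.mem_range.2 hp.pos)
    simpa using h1
  have final : ∀ (Q : Subgroup H) (j : ℕ), Q = M → p ^ j * Nat.card Z ≤ Nat.card Q →
      (∀ k, (gd K M Q k : ℝ) * x ^ k ≤ Nat.card Z * (∑ b ∈ Finset.range p, x ^ b) ^ j) →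
      ∀ k, (gd K M M k : ℝ) * x ^ k ≤ Nat.card Z * (∑ b ∈ Finset.range p, x ^ b) ^ d := by
    rintro Q j rfl h1 h2 k
    have h3 : j ≤ d := by
      rw [hd] at h1
      exact (Nat.pow_le_pow_iff_right hp.one_lt).1 (Nat.le_of_mul_le_mul_right h1 Nat.card_pos)
    refine (h2 k).trans ?_
    exact mul_le_mul_of_nonneg_left (pow_le_pow_right₀ hσ h3) (Nat.cast_nonneg _)
  induction n with
  | zero =>
    intro Q j _ h2 h3 h4 h5
    have : Q = M := Subgroup.eq_of_le_of_card_ge h2 (by simpa using h3)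
    exact final Q j this h4 h5
  | succ n ih =>
    intro Q j h1 h2 h3 h4 h5
    by_cases hQ : M ≤ Q
    · exact final Q j (le_antisymm h2 hQ) h4 h5
    · obtain ⟨y, hy, hyQ⟩ := SetLike.not_le_iff_exists.1 hQ
      have hconj : ∀ q ∈ Q, y⁻¹ * q * y ∈ Q := by
        intro q hq
        have h6 : y⁻¹ * q * y = q * ⁅q⁻¹, y⁻¹⁆ := by
          rw [commutatorElement_def]; group
        rw [h6]
        refine mul_mem hq (h1 (hc ?_))
        exact Subgroup.commutator_mem_commutator (inv_mem (h2 hq)) (inv_mem hy)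
      have hyp : y ^ p ∈ Q := h1 (hpow y hy)
      have h6 := card_ext hconj hp hyp hyQ
      refine ih (ext Q y hconj) (j + 1) (h1.trans (le_ext _ _ _)) (ext_le hconj h2 hy) ?_ ?_ ?_
      · calc Nat.card M ≤ p ^ (n + 1) * Nat.card Q := h3
          _ = p ^ n * (p * Nat.card Q) := by ring
          _ ≤ _ := Nat.mul_le_mul_left _ h6
      · calc p ^ (j + 1) * Nat.card Z = p * (p ^ j * Nat.card Z) := by ring
          _ ≤ p * Nat.card Q := Nat.mul_le_mul_left _ h4
          _ ≤ _ := h6
      · intro k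
        have h7 := gd_ext_le (K := K) hp hM hy hconj hyp k
        have h8 : ((gd K M (ext Q y hconj) k : ℕ) : ℝ) ≤
            ∑ b ∈ Finset.range p, (gd K M Q (k - b) : ℝ) := by exact_mod_cast h7
        calc (gd K M (ext Q y hconj) k : ℝ) * x ^ k
            ≤ (∑ b ∈ Finset.range p, (gd K M Q (k - b) : ℝ)) * x ^ k :=
              mul_le_mul_of_nonneg_right h8 (pow_pos hx0 k).le
          _ = ∑ b ∈ Finset.range p, (gd K M Q (k - b) : ℝ) * x ^ k := by rw [Finset.sum_mul]
          _ ≤ ∑ b ∈ Finset.range p,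
                (Nat.card Z * (∑ b ∈ Finset.range p, x ^ b) ^ j) * x ^ b := by
              refine Finset.sum_le_sum fun b _ => ?_
              rcases le_or_gt b k with hbk | hbk
              · have h9 : x ^ k = x ^ (k - b) * x ^ b := by
                  rw [← pow_add, Nat.sub_add_cancel hbk]
                rw [h9, ← mul_assoc]
                exact mul_le_mul_of_nonneg_right (h5 (k - b)) (pow_pos hx0 b).le
              · have h9 : k - b = 0 := by omega
                rw [h9, gd_zero]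
                simp only [Nat.cast_zero, zero_mul]
                positivity
          _ = _ := by rw [← Finset.mul_sum, pow_succ]; ring

theorem codim_bound {p : ℕ} (hp : p.Prime) {M Z : Subgroup H} (hM : M.Normal) (hZM : Z ≤ M)
    (hc : ⁅M, M⁆ ≤ Z) (hpow : ∀ x ∈ M, x ^ p ∈ Z) {d : ℕ}
    (hd : Nat.card M = p ^ d * Nat.card Z) {x : ℝ} (hx0 : 0 < x) (hx1 : x ≤ 1) (k : ℕ) :
    (finrank K (MonoidAlgebra K H ⧸ JJ K M k) : ℝ) * x ^ k ≤
      Nat.card (H ⧸ M) * (Nat.card Z * (∑ b ∈ Finset.range p, x ^ b) ^ d) := by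
  have h1 := gd_fill (K := K) hp hM hc hpow hd hx0 d Z 0 le_rfl hZM hd.le (by simp) (by
    intro k
    rw [pow_zero, mul_one]
    calc (gd K M Z k : ℝ) * x ^ k ≤ (Nat.card Z : ℝ) * 1 := by
          refine mul_le_mul ?_ (pow_le_one₀ hx0.le hx1) (pow_pos hx0 k).le (Nat.cast_nonneg _)
          exact_mod_cast gd_le_card M Z k
      _ = _ := mul_one _) k
  have h2 : (finrank K (MonoidAlgebra K H ⧸ JJ K M k) : ℝ) ≤ Nat.card (H ⧸ M) * gd K M M k := by
    exact_mod_cast finrank_quot_le (K := K) (M := M) k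
  calc (finrank K (MonoidAlgebra K H ⧸ JJ K M k) : ℝ) * x ^ k
      ≤ (Nat.card (H ⧸ M) * gd K M M k) * x ^ k :=
        mul_le_mul_of_nonneg_right h2 (pow_pos hx0 k).le
    _ = Nat.card (H ⧸ M) * (gd K M M k * x ^ k) := by ring
    _ ≤ _ := mul_le_mul_of_nonneg_left h1 (Nat.cast_nonneg _)

end Cd

end Pool.Agent.N580
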