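import Mathlib

/-!
# Counting pairs of elements with product zero
-/

namespace Pool.Agent.N580

open Module Finset

section Ct

variable {K : Type*} [Field K]

/-- a preimage of a subspace is not too small -/
theorem card_comap {V W : Type*} [AddCommGroup V] [Module K V] [Finite V] [AddCommGroup W]
    [Module K W] [Finite W] (φ : V →ₗ[K] W) (S : Submodule K W) :
    Nat.card S * Nat.card V ≤ Nat.card (S.comap φ) * Nat.card W := by
  have h1 : Nat.card V = Nat.card (V ⧸ S.comap φ) * Nat.card (S.comap φ) :=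
    (Submodule.card_eq_card_quotient_mul_card _).trans (mul_comm _ _)
  have h2 : Nat.card W = Nat.card (W ⧸ S) * Nat.card S :=
    (Submodule.card_eq_card_quotient_mul_card _).trans (mul_comm _ _)
  have hfin : Finite (W ⧸ S) := Finite.of_surjective _ (Submodule.mkQ_surjective S)
  have h3 : Nat.card (V ⧸ S.comap φ) ≤ Nat.card (W ⧸ S) := by
    refine Nat.card_le_card_of_injective (Submodule.mapQ (S.comap φ) S φ le_rfl) ?_
    rw [← LinearMap.ker_eq_bot, Submodule.ker_mapQ, Submodule.mkQ_map_self]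
  rw [h1, h2]
  calc Nat.card S * (Nat.card (V ⧸ S.comap φ) * Nat.card (S.comap φ))
      = Nat.card (S.comap φ) * (Nat.card (V ⧸ S.comap φ) * Nat.card S) := by ring
    _ ≤ Nat.card (S.comap φ) * (Nat.card (W ⧸ S) * Nat.card S) := by gcongr

/-- the number of pairs in `U × V` such that the trilinear form vanishes identically on `W` -/
noncomputable def NN {U V W : Type*} [AddCommGroup U] [Module K U] [AddCommGroup V] [Module K V]
    [AddCommGroup W] [Module K W] (T : U →ₗ[K] V →ₗ[K] W →ₗ[K] K) : ℕ :=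
  Nat.card {q : U × V // T q.1 q.2 = 0}

theorem NN_eq_sum {U V W : Type*} [AddCommGroup U] [Module K U] [AddCommGroup V] [Module K V]
    [AddCommGroup W] [Module K W] [Fintype U] [Finite V] (T : U →ₗ[K] V →ₗ[K] W →ₗ[K] K) :
    NN T = ∑ x : U, Nat.card (LinearMap.ker (T x)) := by
  have e : {q : U × V // T q.1 q.2 = 0} ≃ Σ x : U, LinearMap.ker (T x) :=
    { toFun := fun q => ⟨q.1.1, q.1.2, q.2⟩
      invFun := fun q => ⟨(q.1, q.2.1), q.2.2⟩
      left_inv := fun _ => rfl
      right_inv := fun _ => rfl }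
  rw [NN, Nat.card_congr e, Nat.card_sigma]

theorem NN_flip {U V W : Type*} [AddCommGroup U] [Module K U] [AddCommGroup V] [Module K V]
    [AddCommGroup W] [Module K W] (T : U →ₗ[K] V →ₗ[K] W →ₗ[K] K) : NN T.flip = NN T := by
  refine Nat.card_congr
    { toFun := fun q => ⟨(q.1.2, q.1.1), q.2⟩
      invFun := fun q => ⟨(q.1.2, q.1.1), q.2⟩
      left_inv := fun _ => rfl
      right_inv := fun _ => rfl }

/-- restriction of the second variable -/
theorem NN_restrict_snd {U V V' W : Type*} [AddCommGroup U] [Module K U] [AddCommGroup V]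
    [Module K V] [AddCommGroup V'] [Module K V'] [AddCommGroup W] [Module K W] [Finite U]
    [Finite V] [Finite V'] (T : U →ₗ[K] V →ₗ[K] W →ₗ[K] K) (φ : V' →ₗ[K] V) :
    NN T * Nat.card V' ≤ NN (T.compl₂ φ) * Nat.card V := by
  have := Fintype.ofFinite U
  rw [NN_eq_sum, NN_eq_sum, Finset.sum_mul, Finset.sum_mul]
  refine Finset.sum_le_sum fun x _ => ?_
  have h1 := card_comap φ (LinearMap.ker (T x))
  have h2 : (LinearMap.ker (T x)).comap φ = LinearMap.ker ((T.compl₂ φ) x) := by
    ext v
    simp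
  rwa [h2] at h1

theorem NN_restrict_fst {U U' V W : Type*} [AddCommGroup U] [Module K U] [AddCommGroup U']
    [Module K U'] [AddCommGroup V] [Module K V] [AddCommGroup W] [Module K W] [Finite U]
    [Finite U'] [Finite V] (T : U →ₗ[K] V →ₗ[K] W →ₗ[K] K) (φ : U' →ₗ[K] U) :
    NN T * Nat.card U' ≤ NN (T ∘ₗ φ) * Nat.card U := by
  have h := NN_restrict_snd T.flip φ
  rw [NN_flip] at h
  have e : T.flip.compl₂ φ = (T ∘ₗ φ).flip := by
    ext x y z
    rfl
  rwa [e, NN_flip] at h

/-- restriction of the third variable -/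
theorem NN_restrict_thd {U V W W' : Type*} [AddCommGroup U] [Module K U] [AddCommGroup V]
    [Module K V] [AddCommGroup W] [Module K W] [AddCommGroup W'] [Module K W'] [Finite U]
    [Finite V] (T : U →ₗ[K] V →ₗ[K] W →ₗ[K] K) (T' : U →ₗ[K] V →ₗ[K] W' →ₗ[K] K)
    (h : ∀ x y, T x y = 0 → T' x y = 0) : NN T ≤ NN T' := by
  refine Nat.card_le_card_of_injective (fun q => ⟨q.1, h _ _ q.2⟩) ?_
  intro a b hab
  exact Subtype.ext (by simpa using hab)

/-- a trilinear form which vanishes on a large subspace has many zeros -/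
theorem NN_lower [Finite K] {R : Type*} [AddCommGroup R] [Module K R] [Finite R]
    (T : R →ₗ[K] R →ₗ[K] R →ₗ[K] K) (J : Submodule K R)
    (hJ : ∀ x ∈ J, ∀ y ∈ J, ∀ z ∈ J, T x y z = 0) :
    Nat.card R ^ 2 ≤ NN T * Nat.card (R ⧸ J) ^ 3 := by
  classical
  have := Fintype.ofFinite R
  have hfd : FiniteDimensional K R := inferInstance
  obtain ⟨C, hC⟩ := J.exists_isCompl
  have hcardC : Nat.card C = Nat.card (R ⧸ J) :=
    (Nat.card_congr (Submodule.quotientEquivOfIsCompl J C hC).toEquiv).symm
  have hcardR : Nat.card R = Nat.card (R ⧸ J) * Nat.card J :=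
    (Submodule.card_eq_card_quotient_mul_card _).trans (mul_comm _ _)
  -- for `x` in `J` the kernel is large
  have hx : ∀ x ∈ J, Nat.card J ≤ Nat.card (LinearMap.ker (T x)) * Nat.card (R ⧸ J) := by
    intro x hx
    let f : J →ₗ[K] (C →ₗ[K] K) := (LinearMap.lcomp K K C.subtype) ∘ₗ (T x) ∘ₗ J.subtype
    have hf : ∀ (y : J) (c : C), f y c = T x y c := fun y c => rfl
    have h1 : Nat.card J = Nat.card (J ⧸ LinearMap.ker f) * Nat.card (LinearMap.ker f) :=
      (Submodule.card_eq_card_quotient_mul_card _).trans (mul_comm _ _)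
    have h2 : Nat.card (J ⧸ LinearMap.ker f) ≤ Nat.card (R ⧸ J) := by
      have hfin : Finite (C →ₗ[K] K) := Module.finite_of_finite K
      have h3 : Nat.card (J ⧸ LinearMap.ker f) ≤ Nat.card (C →ₗ[K] K) :=
        Nat.card_le_card_of_injective ((LinearMap.ker f).liftQ f le_rfl)
          (LinearMap.ker_eq_bot.1 (by rw [Submodule.ker_liftQ, Submodule.mkQ_map_self]))
      have h4 : Nat.card (C →ₗ[K] K) = Nat.card C := by
        rw [Module.natCard_eq_pow_finrank (K := K), Module.natCard_eq_pow_finrank (K := K) (V := C),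
          Module.finrank_linearMap_self]
      rw [h4, hcardC] at h3
      exact h3
    have h5 : Nat.card (LinearMap.ker f) ≤ Nat.card (LinearMap.ker (T x)) := by
      refine Nat.card_le_card_of_injective (fun y => ⟨(y : J), ?_⟩) ?_
      · rw [LinearMap.mem_ker]
        ext z
        obtain ⟨j, hj, c, hc, rfl⟩ := Submodule.mem_sup.1 (hC.sup_eq_top ▸ Submodule.mem_top :
          z ∈ J ⊔ C)
        rw [map_add, hJ x hx _ (y : J).2 j hj]
        have h6 : f (y : J) ⟨c, hc⟩ = 0 := by
          rw [LinearMap.mem_ker.1 y.2]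
          rfl
        rw [hf] at h6
        simpa using h6
      · intro a b hab
        have := congrArg Subtype.val hab
        exact Subtype.ext (Subtype.ext this)
    calc Nat.card J = Nat.card (J ⧸ LinearMap.ker f) * Nat.card (LinearMap.ker f) := h1
      _ ≤ Nat.card (R ⧸ J) * Nat.card (LinearMap.ker (T x)) := Nat.mul_le_mul h2 h5
      _ = _ := mul_comm _ _
  have hsum : Nat.card J * Nat.card J ≤ NN T * Nat.card (R ⧸ J) := by
    rw [NN_eq_sum, Finset.sum_mul]
    calc Nat.card J * Nat.card J = ∑ x : J, Nat.card J := by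
          rw [Finset.sum_const, smul_eq_mul, Finset.card_univ, Nat.card_eq_fintype_card]
      _ ≤ ∑ x : J, Nat.card (LinearMap.ker (T (x : R))) * Nat.card (R ⧸ J) :=
          Finset.sum_le_sum fun x _ => hx x x.2
      _ = ∑ x ∈ (Finset.univ : Finset J).map ⟨Subtype.val, Subtype.val_injective⟩,
            Nat.card (LinearMap.ker (T x)) * Nat.card (R ⧸ J) := by
          rw [Finset.sum_map]; rfl
      _ ≤ _ := Finset.sum_le_sum_of_subset (Finset.subset_univ _)
  calc Nat.card R ^ 2 = Nat.card (R ⧸ J) ^ 2 * (Nat.card J * Nat.card J) := by rw [hcardR]; ring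
    _ ≤ Nat.card (R ⧸ J) ^ 2 * (NN T * Nat.card (R ⧸ J)) := Nat.mul_le_mul_left _ hsum
    _ = _ := by ring

end Ct

end Pool.Agent.N580
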