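import Mathlib

/-!
# The number of pairs of matrices with product zero
-/

namespace Pool.Agent.N580

open Module Finset

section Mt

variable {K : Type*} [Field K] [Finite K]

omit [Finite K] in
theorem natCard_hom (V W : Type*) [AddCommGroup V] [Module K V] [FiniteDimensional K V]
    [AddCommGroup W] [Module K W] [FiniteDimensional K W] :
    Nat.card (V →ₗ[K] W) = Nat.card K ^ (finrank K V * finrank K W) := by
  rw [Module.natCard_eq_pow_finrank (K := K), Module.finrank_linearMap]

theorem card_lowrank (m r : ℕ) :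
    Nat.card {f : (Fin m → K) →ₗ[K] (Fin m → K) // finrank K (LinearMap.range f) ≤ r} ≤
      Nat.card K ^ (2 * m * r) := by
  classical
  have key : ∀ f : (Fin m → K) →ₗ[K] (Fin m → K), finrank K (LinearMap.range f) ≤ r →
      ∃ (h : (Fin m → K) →ₗ[K] (Fin r → K)) (g : (Fin r → K) →ₗ[K] (Fin m → K)), g ∘ₗ h = f := by
    intro f hf
    have h1 : finrank K (LinearMap.range f) ≤ finrank K (Fin r → K) := by simpa using hf
    obtain ⟨i, hi⟩ := (finrank_le_iff_exists_linearMap).1 h1
    obtain ⟨j, hj⟩ := LinearMap.exists_leftInverse_of_injective i (LinearMap.ker_eq_bot.2 hi)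
    refine ⟨i ∘ₗ f.rangeRestrict, (LinearMap.range f).subtype ∘ₗ j, ?_⟩
    ext1 v
    have h2 : j (i (f.rangeRestrict (Pi.single v 1))) = f.rangeRestrict (Pi.single v 1) :=
      congrArg (fun φ => φ (f.rangeRestrict (Pi.single v 1))) hj
    ext1
    simp only [LinearMap.comp_apply, LinearMap.single_apply]
    rw [h2]
    rfl
  choose h g hgh using key
  have hinj : Function.Injective
      (fun f : {f : (Fin m → K) →ₗ[K] (Fin m → K) // finrank K (LinearMap.range f) ≤ r} =>
        (h f.1 f.2, g f.1 f.2)) := by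
    intro a b hab
    have h1 : h a.1 a.2 = h b.1 b.2 := congrArg Prod.fst hab
    have h2 : g a.1 a.2 = g b.1 b.2 := congrArg Prod.snd hab
    apply Subtype.ext
    rw [← hgh a.1 a.2, ← hgh b.1 b.2, h1, h2]
  have hfin1 : Finite ((Fin m → K) →ₗ[K] (Fin r → K)) := Module.finite_of_finite K
  have hfin2 : Finite ((Fin r → K) →ₗ[K] (Fin m → K)) := Module.finite_of_finite K
  refine (Nat.card_le_card_of_injective _ hinj).trans ?_
  rw [Nat.card_prod, natCard_hom, natCard_hom, ← pow_add]
  simp only [finrank_fintype_fun_eq_card, Fintype.card_fin]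
  refine le_of_eq ?_
  congr 1
  ring

theorem card_pairs (m r : ℕ) :
    Nat.card {q : ((Fin m → K) →ₗ[K] (Fin m → K)) × ((Fin m → K) →ₗ[K] (Fin m → K)) //
      q.1 ∘ₗ q.2 = 0} ≤
      Nat.card K ^ (2 * m * r + m * m) + Nat.card K ^ (m * m + m * (m - (r + 1))) := by
  classical
  have hfin : Finite ((Fin m → K) →ₗ[K] (Fin m → K)) := Module.finite_of_finite K
  have := Fintype.ofFinite ((Fin m → K) →ₗ[K] (Fin m → K))
  have hcardE : Nat.card ((Fin m → K) →ₗ[K] (Fin m → K)) = Nat.card K ^ (m * m) := by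
    rw [natCard_hom]; simp
  have hq : 0 < Nat.card K := Nat.card_pos
  have e : {q : ((Fin m → K) →ₗ[K] (Fin m → K)) × ((Fin m → K) →ₗ[K] (Fin m → K)) //
      q.1 ∘ₗ q.2 = 0} ≃ Σ f : (Fin m → K) →ₗ[K] (Fin m → K),
        {g : (Fin m → K) →ₗ[K] (Fin m → K) // f ∘ₗ g = 0} :=
    { toFun := fun q => ⟨q.1.1, q.1.2, q.2⟩
      invFun := fun q => ⟨(q.1, q.2.1), q.2.2⟩
      left_inv := fun _ => rfl
      right_inv := fun _ => rfl }
  rw [Nat.card_congr e, Nat.card_sigma]
  have hfib : ∀ f : (Fin m → K) →ₗ[K] (Fin m → K),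
      Nat.card {g : (Fin m → K) →ₗ[K] (Fin m → K) // f ∘ₗ g = 0} ≤
        Nat.card K ^ (m * finrank K (LinearMap.ker f)) := by
    intro f
    have h1 := natCard_hom (K := K) (Fin m → K) (LinearMap.ker f)
    rw [finrank_fintype_fun_eq_card, Fintype.card_fin] at h1
    rw [← h1]
    have hfin3 : Finite ((Fin m → K) →ₗ[K] LinearMap.ker f) := Module.finite_of_finite K
    refine Nat.card_le_card_of_injective (fun g => LinearMap.codRestrict (LinearMap.ker f) g.1
      (fun c => by
        rw [LinearMap.mem_ker]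
        exact congrArg (fun φ => φ c) g.2)) ?_
    intro a b hab
    apply Subtype.ext
    ext1 v
    ext1
    have := congrArg (fun φ : (Fin m → K) →ₗ[K] LinearMap.ker f => ((φ (Pi.single v 1) :
      LinearMap.ker f) : Fin m → K)) hab
    simpa using this
  calc ∑ f : (Fin m → K) →ₗ[K] (Fin m → K),
        Nat.card {g : (Fin m → K) →ₗ[K] (Fin m → K) // f ∘ₗ g = 0}
      ≤ ∑ f : (Fin m → K) →ₗ[K] (Fin m → K),
          ((if finrank K (LinearMap.range f) ≤ r then Nat.card K ^ (m * m) else 0) +
            Nat.card K ^ (m * (m - (r + 1)))) := by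
        refine Finset.sum_le_sum fun f _ => (hfib f).trans ?_
        have h2 : finrank K (LinearMap.range f) + finrank K (LinearMap.ker f) = m := by
          have := LinearMap.finrank_range_add_finrank_ker f
          simpa using this
        by_cases hr : finrank K (LinearMap.range f) ≤ r
        · rw [if_pos hr]
          refine le_trans ?_ (Nat.le_add_right _ _)
          exact Nat.pow_le_pow_right hq (Nat.mul_le_mul_left _ (by omega))
        · rw [if_neg hr, zero_add]
          exact Nat.pow_le_pow_right hq (Nat.mul_le_mul_left _ (by omega))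
    _ = Nat.card {f : (Fin m → K) →ₗ[K] (Fin m → K) // finrank K (LinearMap.range f) ≤ r} *
          Nat.card K ^ (m * m) + Nat.card K ^ (m * m) * Nat.card K ^ (m * (m - (r + 1))) := by
        rw [Finset.sum_add_distrib, ← Finset.sum_filter, Finset.sum_const, Finset.sum_const,
          smul_eq_mul, smul_eq_mul, Finset.card_univ, ← Nat.card_eq_fintype_card, hcardE,
          Nat.card_eq_fintype_card (α := {f : (Fin m → K) →ₗ[K] (Fin m → K) //
            finrank K (LinearMap.range f) ≤ r}), Fintype.card_subtype]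
    _ ≤ _ := by
        rw [pow_add, pow_add]
        exact Nat.add_le_add (Nat.mul_le_mul_right _ (card_lowrank m r)) le_rfl

/-- the number of pairs of `m × m` matrices with product zero -/
noncomputable def Nm (K : Type*) [Field K] (m : ℕ) : ℕ :=
  Nat.card {q : Matrix (Fin m) (Fin m) K × Matrix (Fin m) (Fin m) K // q.1 * q.2 = 0}

theorem Nm_le (m r : ℕ) :
    Nm K m ≤ Nat.card K ^ (2 * m * r + m * m) + Nat.card K ^ (m * m + m * (m - (r + 1))) := by
  classical
  refine le_trans (le_of_eq ?_) (card_pairs (K := K) m r)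
  refine Nat.card_congr
    { toFun := fun q => ⟨(Matrix.toLin' q.1.1, Matrix.toLin' q.1.2), by
        rw [← Matrix.toLin'_mul, q.2, map_zero]⟩
      invFun := fun q => ⟨(LinearMap.toMatrix' q.1.1, LinearMap.toMatrix' q.1.2), by
        rw [← LinearMap.toMatrix'_comp, q.2, map_zero]⟩
      left_inv := fun q => by ext <;> simp
      right_inv := fun q => by
        apply Subtype.ext
        apply Prod.ext <;> simp }

theorem Nm_one : Nm K 1 ≤ 2 * Nat.card K - 1 := by
  classical
  have := Fintype.ofFinite K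
  have e : {q : Matrix (Fin 1) (Fin 1) K × Matrix (Fin 1) (Fin 1) K // q.1 * q.2 = 0} ≃
      {q : K × K // q.1 * q.2 = 0} :=
    { toFun := fun q => ⟨(q.1.1 0 0, q.1.2 0 0), by
        have := congrArg (fun M : Matrix (Fin 1) (Fin 1) K => M 0 0) q.2
        simpa [Matrix.mul_apply] using this⟩
      invFun := fun q => ⟨(Matrix.of fun _ _ => q.1.1, Matrix.of fun _ _ => q.1.2), by
        ext i j
        have h2 : q.1.1 * q.1.2 = 0 := q.2
        rw [Matrix.mul_apply]
        simp only [Matrix.of_apply, h2]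
        simp⟩
      left_inv := fun q => by
        apply Subtype.ext
        apply Prod.ext
        · ext i j
          fin_cases i; fin_cases j; rfl
        · ext i j
          fin_cases i; fin_cases j; rfl
      right_inv := fun q => rfl }
  rw [Nm, Nat.card_congr e, Nat.card_eq_fintype_card, Fintype.card_subtype]
  have h1 : (Finset.univ.filter fun q : K × K => q.1 * q.2 = 0) ⊆
      (Finset.univ.image fun x : K => (x, (0 : K))) ∪
        ((Finset.univ.erase (0 : K)).image fun y : K => ((0 : K), y)) := by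
    rintro ⟨x, y⟩ h
    rw [Finset.mem_filter] at h
    rw [Finset.mem_union, Finset.mem_image, Finset.mem_image]
    rcases eq_or_ne y 0 with hy | hy
    · left
      exact ⟨x, Finset.mem_univ _, by rw [hy]⟩
    · right
      have hx : x = 0 := by
        rcases mul_eq_zero.1 h.2 with h | h
        · exact h
        · exact absurd h hy
      exact ⟨y, Finset.mem_erase.2 ⟨hy, Finset.mem_univ _⟩, by rw [hx]⟩
  refine (Finset.card_le_card h1).trans ((Finset.card_union_le _ _).trans ?_)
  have h2 := Finset.card_image_le (s := (Finset.univ : Finset K)) (f := fun x : K => (x, (0 : K)))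
  have h3 := Finset.card_image_le (s := (Finset.univ.erase (0 : K)))
    (f := fun y : K => ((0 : K), y))
  rw [Finset.card_erase_of_mem (Finset.mem_univ _)] at h3
  rw [Finset.card_univ] at h2 h3
  have h4 : 0 < Fintype.card K := Fintype.card_pos
  rw [Nat.card_eq_fintype_card]
  omega

/-- the main bound -/
theorem Nm_bound (p : ℕ) (hp : Nat.card K = p) (m : ℕ) (hm : 1 ≤ m) :
    Nm K m ^ (16 * p) * p ^ (m * m) ≤ p ^ (2 * (m * m) * (16 * p)) := by
  have hp2 : 2 ≤ p := by
    rw [← hp]
    exact Finite.one_lt_card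
  have hp0 : 0 < p := by omega
  -- general principle
  have gen : ∀ F, Nm K m ≤ 2 * p ^ F → 16 * p + F * (16 * p) + m * m ≤ 2 * (m * m) * (16 * p) →
      Nm K m ^ (16 * p) * p ^ (m * m) ≤ p ^ (2 * (m * m) * (16 * p)) := by
    intro F h1 h2
    calc Nm K m ^ (16 * p) * p ^ (m * m) ≤ (2 * p ^ F) ^ (16 * p) * p ^ (m * m) :=
          Nat.mul_le_mul_right _ (Nat.pow_le_pow_left h1 _)
      _ = 2 ^ (16 * p) * (p ^ (F * (16 * p)) * p ^ (m * m)) := by
          rw [mul_pow, ← pow_mul]; ring
      _ ≤ p ^ (16 * p) * (p ^ (F * (16 * p)) * p ^ (m * m)) :=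
          Nat.mul_le_mul_right _ (Nat.pow_le_pow_left hp2 _)
      _ = p ^ (16 * p + F * (16 * p) + m * m) := by rw [pow_add, pow_add]; ring
      _ ≤ _ := Nat.pow_le_pow_right hp0 h2
  rcases Nat.lt_or_ge m 3 with hm3 | hm3
  · have hm12 : m = 1 ∨ m = 2 := by omega
    rcases hm12 with rfl | rfl
    · have h1 := Nm_one (K := K)
      rw [hp] at h1
      have h2 : 4 * Nm K 1 ≤ 3 * p ^ 2 := by
        have : 4 * (2 * p - 1) ≤ 3 * p ^ 2 := by
          obtain ⟨k, rfl⟩ := Nat.exists_eq_add_of_le hp2
          have : 2 * (2 + k) - 1 = 3 + 2 * k := by omega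
          rw [this]
          nlinarith
        omega
      have h3 : 4 ^ (16 * p) * (Nm K 1 ^ (16 * p) * p) ≤ 4 ^ (16 * p) * p ^ (2 * (16 * p)) := by
        calc 4 ^ (16 * p) * (Nm K 1 ^ (16 * p) * p) = (4 * Nm K 1) ^ (16 * p) * p := by
              rw [mul_pow]; ring
          _ ≤ (3 * p ^ 2) ^ (16 * p) * p := Nat.mul_le_mul_right _ (Nat.pow_le_pow_left h2 _)
          _ = (3 ^ 16) ^ p * p * p ^ (2 * (16 * p)) := by
              rw [mul_pow, pow_mul 3 16 p, ← pow_mul p 2]; ring
          _ ≤ (3 ^ 16) ^ p * 2 ^ p * p ^ (2 * (16 * p)) := by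
              refine Nat.mul_le_mul_right _ (Nat.mul_le_mul_left _ (Nat.lt_two_pow_self).le)
          _ = (3 ^ 16 * 2) ^ p * p ^ (2 * (16 * p)) := by rw [mul_pow]
          _ ≤ (4 ^ 16) ^ p * p ^ (2 * (16 * p)) :=
              Nat.mul_le_mul_right _ (Nat.pow_le_pow_left (by norm_num) _)
          _ = _ := by rw [← pow_mul 4]
      have h4 : 0 < 4 ^ (16 * p) := by positivity
      have h5 := Nat.le_of_mul_le_mul_left h3 h4
      simpa using h5
    · refine gen 6 ?_ (by nlinarith)
      have h1 := Nm_le (K := K) 2 0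
      rw [hp] at h1
      have h2 : p ^ (2 * 2 * 0 + 2 * 2) ≤ p ^ 6 := Nat.pow_le_pow_right hp0 (by norm_num)
      have h3 : p ^ (2 * 2 + 2 * (2 - (0 + 1))) = p ^ 6 := by norm_num
      rw [h3] at h1
      omega
  · set r := 3 * m / 8 with hr
    have hr1 : 8 * r ≤ 3 * m := Nat.mul_div_le _ _
    have hr2 : 3 * m < 8 * (r + 1) := by omega
    set F := 7 * (m * m) / 4 with hF
    have hF1 : 4 * F ≤ 7 * (m * m) := Nat.mul_div_le _ _
    have hF2 : 7 * (m * m) < 4 * (F + 1) := by omega
    have hE1 : 2 * m * r + m * m ≤ F := by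
      have : m * (8 * r) ≤ m * (3 * m) := Nat.mul_le_mul_left _ hr1
      have h4 : 4 * (2 * m * r + m * m) ≤ 7 * (m * m) := by nlinarith
      omega
    have hE2 : m * m + m * (m - (r + 1)) ≤ F := by
      have h5 : 8 * (m - (r + 1)) ≤ 5 * m := by omega
      have : m * (8 * (m - (r + 1))) ≤ m * (5 * m) := Nat.mul_le_mul_left _ h5
      have h4 : 8 * (m * m + m * (m - (r + 1))) ≤ 13 * (m * m) := by nlinarith
      omega
    refine gen F ?_ ?_
    · have h1 := Nm_le (K := K) m r
      rw [hp] at h1
      have h2 := Nat.pow_le_pow_right hp0 hE1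
      have h3 := Nat.pow_le_pow_right hp0 hE2
      omega
    · have h9 : 9 ≤ m * m := by nlinarith
      have h10 : 4 * F * (4 * p) ≤ 7 * (m * m) * (4 * p) := Nat.mul_le_mul_right _ hF1
      have h11 : 9 * (4 * p - 1) ≤ m * m * (4 * p - 1) := Nat.mul_le_mul_right _ h9
      have h12 : m * m * (4 * p - 1) + m * m = m * m * (4 * p) := by
        have : 4 * p = (4 * p - 1) + 1 := by omega
        nlinarith
      nlinarith

end Mt

end Pool.Agent.N580
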