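import Mathlib
import Pool.Agent.N580.Codim
import Pool.Agent.N580.Count
import Pool.Agent.N580.Mat

/-!
# Matrix multiplication tensors inside the group algebra
-/

namespace Pool.Agent.N580

open Module Finset

section Tr

variable {K : Type*} [Field K] {H : Type*} [Group H]

/-- the coefficient of the identity -/
noncomputable def tau (K : Type*) [Field K] (H : Type*) [Group H] : MonoidAlgebra K H →ₗ[K] K :=
  (Finsupp.lapply (1 : H)) ∘ₗ (MonoidAlgebra.coeffLinearEquiv K (S := K) (M := H)).toLinearMap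

theorem tau_gr [DecidableEq H] (g : H) : tau K H (gr K g) = if g = 1 then 1 else 0 := by
  simp only [tau, LinearMap.comp_apply, Finsupp.lapply_apply, LinearEquiv.coe_coe]
  change (MonoidAlgebra.coeff (MonoidAlgebra.of K H g)) 1 = _
  rw [MonoidAlgebra.of_apply, MonoidAlgebra.coeff_single, Finsupp.single_apply]

/-- the trilinear form of the group algebra -/
noncomputable def TT (K : Type*) [Field K] (H : Type*) [Group H] :
    MonoidAlgebra K H →ₗ[K] MonoidAlgebra K H →ₗ[K] MonoidAlgebra K H →ₗ[K] K :=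
  (LinearMap.mul K (MonoidAlgebra K H)).compr₂ ((LinearMap.mul K (MonoidAlgebra K H)).compr₂
    (tau K H))

theorem TT_apply (x y z : MonoidAlgebra K H) : TT K H x y z = tau K H (x * y * z) := rfl

theorem TT_vanish {M : Subgroup H} (hM : M.Normal) {k : ℕ} (hk : aug K M ^ (3 * k) = ⊥) :
    ∀ x ∈ JJ K M k, ∀ y ∈ JJ K M k, ∀ z ∈ JJ K M k, TT K H x y z = 0 := by
  intro x hx y hy z hz
  have h1 := JJ_mul hM _ _ (Submodule.mul_mem_mul hx hy)
  have h2 := JJ_mul hM _ _ (Submodule.mul_mem_mul h1 hz)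
  have h3 : JJ K M (k + k + k) = ⊥ := by
    have : k + k + k = 3 * k := by ring
    rw [this, JJ, hk, Submodule.mul_bot]
  rw [h3, Submodule.mem_bot] at h2
  rw [TT_apply, h2, map_zero]

/-- the simultaneous triple product property for enumerated sets of the same size -/
def STPPe {ι : Type*} {m : ℕ} (a b c : ι → Fin m → H) : Prop :=
  ∀ i j k α α' β β' γ γ', a i α * (a j α')⁻¹ * (b j β * (b k β')⁻¹) * (c k γ * (c i γ')⁻¹) = 1 →
    i = j ∧ j = k ∧ α = α' ∧ β = β' ∧ γ = γ'

/-- the embedding of a family of matrices -/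
noncomputable def emb (K : Type*) [Field K] {ι : Type*} [Fintype ι] {m : ℕ} (a b : ι → Fin m → H) :
    (ι → Matrix (Fin m) (Fin m) K) →ₗ[K] MonoidAlgebra K H :=
  ∑ j : ι × Fin m × Fin m,
    (LinearMap.toSpanSingleton K (MonoidAlgebra K H) (gr K ((a j.1 j.2.1)⁻¹ * b j.1 j.2.2))) ∘ₗ
      (Matrix.entryLinearMap K K j.2.1 j.2.2) ∘ₗ (LinearMap.proj j.1)

theorem emb_apply {ι : Type*} [Fintype ι] {m : ℕ} (a b : ι → Fin m → H)
    (X : ι → Matrix (Fin m) (Fin m) K) :
    emb K a b X = ∑ j : ι × Fin m × Fin m,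
      X j.1 j.2.1 j.2.2 • gr K ((a j.1 j.2.1)⁻¹ * b j.1 j.2.2) := by
  rw [emb, LinearMap.sum_apply]
  rfl

theorem TT_emb {ι : Type*} [Fintype ι] {m : ℕ} {a b c : ι → Fin m → H} (h : STPPe a b c)
    (X Y : ι → Matrix (Fin m) (Fin m) K) (i : ι) (α γ : Fin m) :
    TT K H (emb K a b X) (emb K b c Y) (gr K ((c i γ)⁻¹ * a i α)) = (X i * Y i) α γ := by
  classical
  rw [TT_apply, emb_apply, emb_apply, Finset.sum_mul_sum, Finset.sum_mul, map_sum]
  have h1 : ∀ j k : ι × Fin m × Fin m,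
      tau K H ((X j.1 j.2.1 j.2.2 • gr K ((a j.1 j.2.1)⁻¹ * b j.1 j.2.2)) *
        (Y k.1 k.2.1 k.2.2 • gr K ((b k.1 k.2.1)⁻¹ * c k.1 k.2.2)) *
          gr K ((c i γ)⁻¹ * a i α)) =
      if j.1 = i ∧ k.1 = i ∧ j.2.1 = α ∧ k.2.2 = γ ∧ j.2.2 = k.2.1 then
        X j.1 j.2.1 j.2.2 * Y k.1 k.2.1 k.2.2 else 0 := by
    rintro ⟨j, α', β⟩ ⟨k, β', γ'⟩
    simp only
    rw [smul_mul_smul_comm, ← gr_mul, smul_mul_assoc, ← gr_mul, map_smul, tau_gr]
    by_cases hc : j = i ∧ k = i ∧ α' = α ∧ γ' = γ ∧ β = β'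
    · rw [if_pos hc]
      obtain ⟨rfl, rfl, rfl, rfl, rfl⟩ := hc
      rw [if_pos (by group), smul_eq_mul, mul_one]
    · rw [if_neg hc, if_neg, smul_zero]
      intro hg
      apply hc
      have h2 : a i α * (a j α')⁻¹ * (b j β * (b k β')⁻¹) * (c k γ' * (c i γ)⁻¹) = 1 := by
        have h3 : a i α * (a j α')⁻¹ * (b j β * (b k β')⁻¹) * (c k γ' * (c i γ)⁻¹) =
            a i α * (((a j α')⁻¹ * b j β * ((b k β')⁻¹ * c k γ') * ((c i γ)⁻¹ * a i α))) *
              (a i α)⁻¹ := by group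
        rw [h3, hg]
        group
      obtain ⟨e1, e2, e3, e4, e5⟩ := h _ _ _ _ _ _ _ _ _ h2
      exact ⟨e1.symm, (e1.trans e2).symm, e3.symm, e5, e4⟩
  simp only [Finset.sum_mul, map_sum]
  rw [Finset.sum_congr rfl fun j _ => Finset.sum_congr rfl fun k _ => h1 j k]
  simp only [Fintype.sum_prod_type]
  rw [Finset.sum_eq_single i]
  · rw [Finset.sum_eq_single α]
    · rw [Matrix.mul_apply]
      refine Finset.sum_congr rfl fun β _ => ?_
      rw [Finset.sum_eq_single i]
      · rw [Finset.sum_eq_single β]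
        · rw [Finset.sum_eq_single γ]
          · simp
          · intro γ' _ hγ
            simp [hγ]
          · intro h; exact absurd (Finset.mem_univ _) h
        · intro β' _ hβ
          refine Finset.sum_eq_zero fun γ' _ => ?_
          simp [hβ.symm]
        · intro h; exact absurd (Finset.mem_univ _) h
      · intro k _ hk
        refine Finset.sum_eq_zero fun β' _ => Finset.sum_eq_zero fun γ' _ => ?_
        simp [hk]
      · intro h; exact absurd (Finset.mem_univ _) h
    · intro α' _ hα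
      refine Finset.sum_eq_zero fun β _ => Finset.sum_eq_zero fun k _ =>
        Finset.sum_eq_zero fun β' _ => Finset.sum_eq_zero fun γ' _ => ?_
      simp [hα]
    · intro h; exact absurd (Finset.mem_univ _) h
  · intro j _ hj
    refine Finset.sum_eq_zero fun α' _ => Finset.sum_eq_zero fun β _ => Finset.sum_eq_zero
      fun k _ => Finset.sum_eq_zero fun β' _ => Finset.sum_eq_zero fun γ' _ => ?_
    simp [hj]
  · intro h; exact absurd (Finset.mem_univ _) h

variable [Finite K] [Finite H]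

theorem stpp_bound {ι : Type*} [Fintype ι] {m : ℕ} (hm : 1 ≤ m) {a b c : ι → Fin m → H}
    (h : STPPe a b c) (p : ℕ) (hp : Nat.card K = p) (J : Submodule K (MonoidAlgebra K H))
    (hJ : ∀ x ∈ J, ∀ y ∈ J, ∀ z ∈ J, TT K H x y z = 0) :
    Fintype.card ι * (m * m) ≤ 48 * p * finrank K (MonoidAlgebra K H ⧸ J) := by
  classical
  have hfd : FiniteDimensional K (MonoidAlgebra K H) := fd
  have hfin : Finite (MonoidAlgebra K H) := Module.finite_of_finite K
  have hq2 : 2 ≤ p := by
    rw [← hp]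
    exact Finite.one_lt_card
  set A := MonoidAlgebra K H with hA
  set V := ι → Matrix (Fin m) (Fin m) K with hV
  set δ := finrank K (A ⧸ J) with hδ
  have h1 := NN_lower (TT K H) J hJ
  have h2 := NN_restrict_fst (TT K H) (emb K a b)
  have h3 := NN_restrict_snd ((TT K H) ∘ₗ (emb K a b)) (emb K b c)
  have h4 : NN (((TT K H) ∘ₗ (emb K a b)).compl₂ (emb K b c)) ≤ Nm K m ^ Fintype.card ι := by
    have h5 : Nat.card (ι → {q : Matrix (Fin m) (Fin m) K × Matrix (Fin m) (Fin m) K //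
        q.1 * q.2 = 0}) = Nm K m ^ Fintype.card ι := by
      rw [Nat.card_fun, Nm, Nat.card_eq_fintype_card (α := ι)]
    rw [← h5]
    refine Nat.card_le_card_of_injective
      (fun q : {q : V × V // ((TT K H) ∘ₗ (emb K a b)).compl₂ (emb K b c) q.1 q.2 = 0} =>
        fun i => ⟨(q.1.1 i, q.1.2 i), ?_⟩) ?_
    · ext α γ
      have h6 := TT_emb h q.1.1 q.1.2 i α γ
      have h7 := congrArg (fun f : A →ₗ[K] K => f (gr K ((c i γ)⁻¹ * a i α))) q.2
      simp only [LinearMap.compl₂_apply, LinearMap.comp_apply, LinearMap.zero_apply] at h7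
      rw [← h6, h7]
      rfl
    · intro q q' hq
      apply Subtype.ext
      apply Prod.ext
      · ext1 i
        exact congrArg (fun f : (ι → {q : Matrix (Fin m) (Fin m) K × Matrix (Fin m) (Fin m) K //
          q.1 * q.2 = 0}) => (f i).1.1) hq
      · ext1 i
        exact congrArg (fun f : (ι → {q : Matrix (Fin m) (Fin m) K × Matrix (Fin m) (Fin m) K //
          q.1 * q.2 = 0}) => (f i).1.2) hq
  have hcV : Nat.card V = p ^ (m * m * Fintype.card ι) := by
    rw [hV, Nat.card_fun, Nat.card_eq_fintype_card (α := ι), pow_mul]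
    congr 1
    rw [Module.natCard_eq_pow_finrank (K := K), Module.finrank_matrix, hp]
    simp
  have hcJ : Nat.card (A ⧸ J) = p ^ δ := by
    rw [Module.natCard_eq_pow_finrank (K := K), hp]
  have hApos : 0 < Nat.card A := Nat.card_pos
  have h8 : Nat.card V * Nat.card V ≤ Nm K m ^ Fintype.card ι * Nat.card (A ⧸ J) ^ 3 := by
    have h9 : Nat.card A ^ 2 * (Nat.card V * Nat.card V) ≤
        Nat.card A ^ 2 * (Nm K m ^ Fintype.card ι * Nat.card (A ⧸ J) ^ 3) := by
      calc Nat.card A ^ 2 * (Nat.card V * Nat.card V)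
          ≤ (NN (TT K H) * Nat.card (A ⧸ J) ^ 3) * (Nat.card V * Nat.card V) :=
            Nat.mul_le_mul_right _ h1
        _ = (NN (TT K H) * Nat.card V) * (Nat.card V * Nat.card (A ⧸ J) ^ 3) := by ring
        _ ≤ (NN ((TT K H) ∘ₗ (emb K a b)) * Nat.card A) *
              (Nat.card V * Nat.card (A ⧸ J) ^ 3) := Nat.mul_le_mul_right _ h2
        _ = (NN ((TT K H) ∘ₗ (emb K a b)) * Nat.card V) *
              (Nat.card A * Nat.card (A ⧸ J) ^ 3) := by ring
        _ ≤ (NN (((TT K H) ∘ₗ (emb K a b)).compl₂ (emb K b c)) * Nat.card A) *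
              (Nat.card A * Nat.card (A ⧸ J) ^ 3) := Nat.mul_le_mul_right _ h3
        _ ≤ (Nm K m ^ Fintype.card ι * Nat.card A) * (Nat.card A * Nat.card (A ⧸ J) ^ 3) :=
            Nat.mul_le_mul_right _ (Nat.mul_le_mul_right _ h4)
        _ = _ := by ring
    exact Nat.le_of_mul_le_mul_left h9 (pow_pos hApos 2)
  rw [hcV, hcJ] at h8
  set L := Fintype.card ι with hL
  have h10 := Nm_bound (K := K) p hp m hm
  have h11 : p ^ (2 * (m * m) * (16 * p) * L) * p ^ (m * m * L) ≤
      p ^ (2 * (m * m) * (16 * p) * L) * p ^ (48 * p * δ) := by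
    have e0 : p ^ (2 * (m * m) * (16 * p) * L) = (p ^ (m * m * L) * p ^ (m * m * L)) ^ (16 * p) := by
      rw [← pow_add, ← pow_mul]; congr 1; ring
    calc p ^ (2 * (m * m) * (16 * p) * L) * p ^ (m * m * L)
        = (p ^ (m * m * L) * p ^ (m * m * L)) ^ (16 * p) * p ^ (m * m * L) := by rw [e0]
      _ ≤ (Nm K m ^ L * (p ^ δ) ^ 3) ^ (16 * p) * p ^ (m * m * L) :=
          Nat.mul_le_mul_right _ (Nat.pow_le_pow_left h8 _)
      _ = (Nm K m ^ (16 * p) * p ^ (m * m)) ^ L * p ^ (48 * p * δ) := by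
          rw [mul_pow, mul_pow, ← pow_mul, ← pow_mul, ← pow_mul, ← pow_mul, ← pow_mul]
          have e1 : δ * (3 * (16 * p)) = 48 * p * δ := by ring
          have e2 : L * (16 * p) = 16 * p * L := by ring
          rw [e1, e2]
          ring
      _ ≤ (p ^ (2 * (m * m) * (16 * p))) ^ L * p ^ (48 * p * δ) :=
          Nat.mul_le_mul_right _ (Nat.pow_le_pow_left h10 _)
      _ = _ := by rw [← pow_mul]
  have h12 := Nat.le_of_mul_le_mul_left h11 (pow_pos (by omega) _)
  have h13 := (Nat.pow_le_pow_iff_right (by omega : 1 < p)).1 h12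
  calc L * (m * m) = m * m * L := by ring
    _ ≤ _ := h13

end Tr

end Pool.Agent.N580
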