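import Mathlib
import Pool.Agent.N580.Tri

/-!
# The simultaneous triple product property and powers of groups
-/

namespace Pool.Agent.N580

open Module Finset

/-- The simultaneous triple product property of Cohn, Kleinberg, Szegedy and Umans: if
`a a'⁻¹ b b'⁻¹ c c'⁻¹ = 1` with `a ∈ A i`, `a' ∈ A j`, `b ∈ B j`, `b' ∈ B k`, `c ∈ C k`, `c' ∈ C i`
then `i = j = k`, `a = a'`, `b = b'` and `c = c'`. -/
def STPP {G : Type*} [Group G] {ι : Type*} (A B C : ι → Finset G) : Prop :=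
  ∀ i j k, ∀ a ∈ A i, ∀ a' ∈ A j, ∀ b ∈ B j, ∀ b' ∈ B k, ∀ c ∈ C k, ∀ c' ∈ C i,
    a * a'⁻¹ * (b * b'⁻¹) * (c * c'⁻¹) = 1 → i = j ∧ j = k ∧ a = a' ∧ b = b' ∧ c = c'

section Pw

variable {G : Type*} [Group G] {I : Type*}

theorem STPP.rotate {A B C : I → Finset G} (h : STPP A B C) : STPP B C A := by
  intro i j k b hb b' hb' c hc c' hc' a ha a' ha' he
  have h1 : a * a'⁻¹ * (b * b'⁻¹) * (c * c'⁻¹) = 1 := by
    have h2 : a * a'⁻¹ * (b * b'⁻¹) * (c * c'⁻¹) =
        (a * a'⁻¹) * (b * b'⁻¹ * (c * c'⁻¹) * (a * a'⁻¹)) * (a * a'⁻¹)⁻¹ := by group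
    rw [h2, he]
    group
  obtain ⟨e1, e2, e3, e4, e5⟩ := h k i j a ha a' ha' b hb b' hb' c hc c' hc' h1
  exact ⟨e2, (e1.trans e2).symm, e4, e5, e3⟩

/-- the three families, cyclically -/
def fam (A B C : I → Finset G) (r : Fin 3) : I → Finset G :=
  if r = 0 then A else if r = 1 then B else C

theorem fam_stpp {A B C : I → Finset G} (h : STPP A B C) (r : Fin 3) :
    STPP (fam A B C r) (fam A B C (r + 1)) (fam A B C (r + 2)) := by
  fin_cases r
  · exact h
  · exact h.rotate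
  · exact h.rotate.rotate

/-- the number of occurrences of the indices -/
def typ [DecidableEq I] {N : ℕ} (w : Fin N → I) (i : I) : Fin (N + 1) :=
  ⟨(Finset.univ.filter fun t => w t = i).card, by
    have := Finset.card_filter_le (Finset.univ : Finset (Fin N)) (fun t => w t = i)
    rw [Finset.card_univ, Fintype.card_fin] at this
    omega⟩

theorem prod_of_typ [DecidableEq I] [Fintype I] {N : ℕ} {M : Type*} [CommMonoid M] (f : I → M)
    (w : Fin N → I) : ∏ t, f (w t) = ∏ i, f i ^ (typ w i : ℕ) := by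
  rw [← Finset.prod_fiberwise (s := Finset.univ) (g := w) (f := fun t => f (w t))]
  refine Finset.prod_congr rfl fun i _ => ?_
  have : ∀ t ∈ Finset.univ.filter (fun t => w t = i), f (w t) = f i := by
    intro t ht
    rw [(Finset.mem_filter.1 ht).2]
  rw [Finset.prod_congr rfl this, Finset.prod_const]
  rfl

theorem prod_eq_of_typ [DecidableEq I] [Fintype I] {N : ℕ} {M : Type*} [CommMonoid M] (f : I → M)
    {w w' : Fin N → I} (h : typ w = typ w') : ∏ t, f (w t) = ∏ t, f (w' t) := by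
  rw [prod_of_typ, prod_of_typ, h]

variable [Finite G]

theorem class_bound [DecidableEq I] [Fintype I] {A B C : I → Finset G} (h : STPP A B C) (p : ℕ)
    [Fact p.Prime] (N : ℕ) (J : Submodule (ZMod p) (MonoidAlgebra (ZMod p) (Fin 3 × Fin N → G)))
    (hJ : ∀ x ∈ J, ∀ y ∈ J, ∀ z ∈ J, TT (ZMod p) (Fin 3 × Fin N → G) x y z = 0)
    (τ : I → Fin (N + 1)) (w₀ : Fin N → I) (hw₀ : typ w₀ = τ) :
    (Finset.univ.filter fun w : Fin N → I => typ w = τ).card ^ 3 *
      ((∏ t, (A (w₀ t)).card) * (∏ t, (B (w₀ t)).card) * (∏ t, (C (w₀ t)).card)) ^ 2 ≤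
      48 * p * finrank (ZMod p) (MonoidAlgebra (ZMod p) (Fin 3 × Fin N → G) ⧸ J) := by
  classical
  set m := (∏ t, (A (w₀ t)).card) * (∏ t, (B (w₀ t)).card) * (∏ t, (C (w₀ t)).card) with hm
  rcases Nat.eq_zero_or_pos m with hm0 | hm0
  · rw [hm0]; simp
  let ι := Fin 3 → {w : Fin N → I // typ w = τ}
  have hcardι : Fintype.card ι = (Finset.univ.filter fun w : Fin N → I => typ w = τ).card ^ 3 := by
    rw [Fintype.card_fun, Fintype.card_fin, Fintype.card_subtype]
  -- the sets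
  let S : Fin 3 → ι → Finset (Fin 3 × Fin N → G) := fun u w =>
    Fintype.piFinset fun q => fam A B C (q.1 + u) ((w q.1).1 q.2)
  have hScard : ∀ u w, (S u w).card = m := by
    intro u w
    have h1 : ∀ r : Fin 3, ∏ t, (fam A B C r ((w (r - u)).1 t)).card =
        ∏ t, (fam A B C r (w₀ t)).card := by
      intro r
      exact prod_eq_of_typ (fun i => (fam A B C r i).card) ((w (r - u)).2.trans hw₀.symm)
    have h2 : (S u w).card = ∏ r : Fin 3, ∏ t, (fam A B C (r + u) ((w r).1 t)).card := by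
      rw [Fintype.card_piFinset, Fintype.prod_prod_type]
    have h3 : ∏ r : Fin 3, ∏ t, (fam A B C (r + u) ((w r).1 t)).card =
        ∏ r : Fin 3, ∏ t, (fam A B C r ((w (r - u)).1 t)).card := by
      refine Fintype.prod_equiv (Equiv.addRight u) _ _ ?_
      intro r
      simp
    rw [h2, h3, Finset.prod_congr rfl fun r _ => h1 r, Fin.prod_univ_three, hm]
    rfl
  have henum : ∀ u w, ∃ f : Fin m → (Fin 3 × Fin N → G), Function.Injective f ∧
      ∀ x, f x ∈ S u w := by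
    intro u w
    let e := (S u w).equivFinOfCardEq (hScard u w)
    exact ⟨fun x => (e.symm x : Fin 3 × Fin N → G),
      fun x y hxy => e.symm.injective (Subtype.ext hxy), fun x => (e.symm x).2⟩
  choose f hf hfS using henum
  have hst : STPPe (f 0) (f 1) (f 2) := by
    intro i j k α α' β β' γ γ' he
    have hcoord : ∀ q : Fin 3 × Fin N, (i q.1).1 q.2 = (j q.1).1 q.2 ∧
        (j q.1).1 q.2 = (k q.1).1 q.2 ∧ f 0 i α q = f 0 j α' q ∧ f 1 j β q = f 1 k β' q ∧
        f 2 k γ q = f 2 i γ' q := by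
      intro q
      have hq := congrFun he q
      simp only [Pi.mul_apply, Pi.inv_apply, Pi.one_apply] at hq
      have m0 : ∀ (u : Fin 3) (w : ι) (x : Fin m), f u w x q ∈ fam A B C (q.1 + u)
          ((w q.1).1 q.2) := fun u w x => Fintype.mem_piFinset.1 (hfS u w x) q
      have a1 := m0 0 i α
      have a2 := m0 0 j α'
      rw [add_zero] at a1 a2
      exact fam_stpp h q.1 _ _ _ _ a1 _ a2 _ (m0 1 j β) _ (m0 1 k β') _ (m0 2 k γ) _ (m0 2 i γ') hq
    have hij : i = j := by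
      funext r
      apply Subtype.ext
      funext t
      exact (hcoord (r, t)).1
    have hjk : j = k := by
      funext r
      apply Subtype.ext
      funext t
      exact (hcoord (r, t)).2.1
    subst hij
    subst hjk
    refine ⟨rfl, rfl, ?_, ?_, ?_⟩
    · exact hf 0 i (funext fun q => (hcoord q).2.2.1)
    · exact hf 1 i (funext fun q => (hcoord q).2.2.2.1)
    · exact hf 2 i (funext fun q => (hcoord q).2.2.2.2)
  have := stpp_bound (K := ZMod p) hm0 hst p (by simp) J hJ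
  rw [hcardι] at this
  calc _ = (Finset.univ.filter fun w : Fin N → I => typ w = τ).card ^ 3 * (m * m) := by rw [sq]
    _ ≤ _ := this

theorem power_ineq [Fintype I] {A B C : I → Finset G} (h : STPP A B C) (p : ℕ)
    [Fact p.Prime] (N : ℕ) (J : Submodule (ZMod p) (MonoidAlgebra (ZMod p) (Fin 3 × Fin N → G)))
    (hJ : ∀ x ∈ J, ∀ y ∈ J, ∀ z ∈ J, TT (ZMod p) (Fin 3 × Fin N → G) x y z = 0)
    (s : I → ℝ) (hs0 : ∀ i, 0 ≤ s i)
    (hs : ∀ i, s i ^ 3 = (((A i).card : ℝ) * (B i).card * (C i).card) ^ 2) :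
    (∑ i, s i) ^ (3 * N) ≤ ((N + 1 : ℕ) : ℝ) ^ (3 * Fintype.card I) *
      (48 * p * finrank (ZMod p) (MonoidAlgebra (ZMod p) (Fin 3 × Fin N → G) ⧸ J)) := by
  classical
  set X : (I → Fin (N + 1)) → ℝ := fun τ =>
    ∑ w ∈ Finset.univ.filter (fun w : Fin N → I => typ w = τ), ∏ t, s (w t) with hX
  have hX0 : ∀ τ, 0 ≤ X τ := fun τ =>
    Finset.sum_nonneg fun w _ => Finset.prod_nonneg fun t _ => hs0 _
  have hsum : (∑ i, s i) ^ N = ∑ τ, X τ := by
    rw [Fintype.sum_pow, hX]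
    exact (Finset.sum_fiberwise (s := (Finset.univ : Finset (Fin N → I)))
      (g := fun w => (typ w : I → Fin (N + 1))) (f := fun w => ∏ t, s (w t))).symm
  have hX3 : ∀ τ, X τ ^ 3 ≤
      48 * p * finrank (ZMod p) (MonoidAlgebra (ZMod p) (Fin 3 × Fin N → G) ⧸ J) := by
    intro τ
    by_cases hτ : ∃ w₀ : Fin N → I, typ w₀ = τ
    · obtain ⟨w₀, hw₀⟩ := hτ
      have h1 : X τ = (Finset.univ.filter (fun w : Fin N → I => typ w = τ)).card *
          ∏ t, s (w₀ t) := by
        simp only [hX]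
        rw [← nsmul_eq_mul, ← Finset.sum_const]
        refine Finset.sum_congr rfl fun w hw => ?_
        exact prod_eq_of_typ s ((Finset.mem_filter.1 hw).2.trans hw₀.symm)
      have h2 : (∏ t, s (w₀ t)) ^ 3 = (((∏ t, (A (w₀ t)).card) * (∏ t, (B (w₀ t)).card) *
          (∏ t, (C (w₀ t)).card) : ℕ) : ℝ) ^ 2 := by
        rw [← Finset.prod_pow, Finset.prod_congr rfl fun t _ => hs (w₀ t)]
        rw [Finset.prod_pow, Finset.prod_mul_distrib, Finset.prod_mul_distrib]
        push_cast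
        rfl
      rw [h1, mul_pow, h2]
      have h3 := class_bound h p N J hJ τ w₀ hw₀
      exact_mod_cast h3
    · have h1 : X τ = 0 := by
        simp only [hX]
        refine Finset.sum_eq_zero fun w hw => ?_
        exact absurd ⟨w, (Finset.mem_filter.1 hw).2⟩ hτ
      rw [h1, zero_pow three_ne_zero]
      positivity
  obtain ⟨τ₀, -, hτ₀⟩ := Finset.exists_max_image (Finset.univ : Finset (I → Fin (N + 1))) X
    ⟨fun _ => 0, Finset.mem_univ _⟩
  have h4 : (∑ i, s i) ^ N ≤ ((N + 1 : ℕ) : ℝ) ^ Fintype.card I * X τ₀ := by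
    rw [hsum]
    calc ∑ τ, X τ ≤ ∑ _τ : I → Fin (N + 1), X τ₀ :=
          Finset.sum_le_sum fun τ _ => hτ₀ τ (Finset.mem_univ _)
      _ = _ := by
        rw [Finset.sum_const, Finset.card_univ, Fintype.card_fun, Fintype.card_fin, nsmul_eq_mul]
        push_cast
        rfl
  have hs1 : 0 ≤ (∑ i, s i) ^ N := pow_nonneg (Finset.sum_nonneg fun i _ => hs0 i) _
  calc (∑ i, s i) ^ (3 * N) = ((∑ i, s i) ^ N) ^ 3 := by rw [← pow_mul, mul_comm]
    _ ≤ (((N + 1 : ℕ) : ℝ) ^ Fintype.card I * X τ₀) ^ 3 := pow_le_pow_left₀ hs1 h4 3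
    _ = ((N + 1 : ℕ) : ℝ) ^ (3 * Fintype.card I) * X τ₀ ^ 3 := by
        rw [mul_pow, ← pow_mul, mul_comm (Fintype.card I) 3]
    _ ≤ _ := mul_le_mul_of_nonneg_left (hX3 τ₀) (by positivity)

end Pw

end Pool.Agent.N580
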